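import Mathlib
import Pool.Agent.W367.KT.K2
set_option autoImplicit false

/-!
Functoriality of `K_2` of fields, `K_2` of rings of `S`-integers inside `K_2` of the number field,
the `θ`-part of `K_2 ⊗ ℤ_p` of the ring `ℤ[ζ_M, 1/M]` and the image of the symbols in it.
-/

namespace Pool.Agent.TH834

open scoped TensorProduct WithZero
open Pool.Agent.W367.KT

section functor

variable {F : Type*} [Field F] {F' : Type*} [Field F']

/-- the projection `Fˣ ⊗ Fˣ → K_2 (F)` -/
noncomputable def mkK2 (F : Type*) [Field F] : (Additive Fˣ ⊗[ℤ] Additive Fˣ) →+ K2 F :=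
  QuotientAddGroup.mk' (steinberg F)

theorem symb_eq (a b : Fˣ) : symb a b = mkK2 F (Additive.ofMul a ⊗ₜ[ℤ] Additive.ofMul b) := rfl

theorem mkK2_surjective : Function.Surjective (mkK2 F) :=
  QuotientAddGroup.mk'_surjective (steinberg F)

theorem symb_mul_left (a b c : Fˣ) : symb (a * b) c = symb a c + symb b c := by
  rw [symb_eq, ofMul_mul, TensorProduct.add_tmul, map_add]; rfl

theorem symb_mul_right (a b c : Fˣ) : symb a (b * c) = symb a b + symb a c := by
  rw [symb_eq, ofMul_mul, TensorProduct.tmul_add, map_add]; rfl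

theorem symb_steinberg (a b : Fˣ) (h : (a : F) + (b : F) = 1) : symb a b = 0 :=
  (QuotientAddGroup.eq_zero_iff _).2 (AddSubgroup.subset_closure ⟨a, b, h, rfl⟩)

/-- The homomorphism `K_2 (F) → K_2 (F')` induced by a homomorphism of fields; it sends the
symbol `{a, b}` to `{g a, g b}`. -/
noncomputable def K2map (g : F →+* F') : K2 F →+ K2 F' :=
  K2lift (fun a b => symb (Units.map (g : F →* F') a) (Units.map (g : F →* F') b))
    (fun a b c => by rw [map_mul, symb_mul_left])
    (fun a b c => by rw [map_mul, symb_mul_right])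
    (fun a b hab => symb_steinberg _ _ (by
      change g a + g b = 1
      rw [← map_add, hab, map_one]))

theorem K2map_symb (g : F →+* F') (a b : Fˣ) :
    K2map g (symb a b) = symb (Units.map (g : F →* F') a) (Units.map (g : F →* F') b) := rfl

/-- two homomorphisms on `K_2` that agree on symbols are equal -/
theorem K2_hom_ext {A : Type*} [AddCommGroup A] (f h : K2 F →+ A)
    (hfh : ∀ a b : Fˣ, f (symb a b) = h (symb a b)) : f = h := by
  have key : f.comp (mkK2 F) = h.comp (mkK2 F) := by
    ext t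
    change f (mkK2 F t) = h (mkK2 F t)
    induction t using TensorProduct.induction_on with
    | zero => simp only [map_zero]
    | tmul x y => exact hfh x.toMul y.toMul
    | add x y hx hy => simp only [map_add, hx, hy]
  ext z
  obtain ⟨t, rfl⟩ := mkK2_surjective z
  exact DFunLike.congr_fun key t

theorem K2map_comp {F'' : Type*} [Field F''] (g : F →+* F') (h : F' →+* F'') (z : K2 F) :
    K2map h (K2map g z) = K2map (h.comp g) z := by
  have : (K2map h).comp (K2map g) = K2map (h.comp g) := by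
    apply K2_hom_ext
    intro a b
    rfl
  exact DFunLike.congr_fun this z

end functor

section rings

variable (E : Type*) [Field E]

/-- The ring `ℤ[ζ_M, 1/M]` inside a field `E` that contains the `M`-th roots of unity. -/
def cycRing (M : ℕ) : Subring E := Subring.closure ({x : E | x ^ M = 1} ∪ {(M : E)⁻¹})

variable {E}

/-- `K_2` of a ring of `S`-integers `A` of a number field `E`, as a subgroup of `K_2 (E)`: the
elements whose tame symbols vanish at all discrete valuations of `E` that are integral on `A`. -/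
noncomputable def K2ring (A : Subring E) : AddSubgroup (K2 E) :=
  ⨅ (v : Valuation E ℤᵐ⁰) (_ : Function.Surjective v) (_ : ∀ x ∈ A, v x ≤ 1), (tame v).ker

end rings

section generic

variable (R : Type*) [CommRing R] {A : Type*} [AddCommGroup A]

/-- The submodule of `R ⊗ A` spanned by the elements `1 ⊗ y - c ⊗ x` for `x, y` in `A` and `c` in
`R` that satisfy a given relation. -/
noncomputable def relSub (rel : A → A → R → Prop) : Submodule R (R ⊗[ℤ] A) :=
  Submodule.span R {t | ∃ (x y : A) (c : R), rel x y c ∧ t = 1 ⊗ₜ[ℤ] y - c ⊗ₜ[ℤ] x}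

/-- The quotient of `R ⊗ A` by the relations `1 ⊗ y = c ⊗ x`. -/
abbrev relQuot (rel : A → A → R → Prop) : Type _ := (R ⊗[ℤ] A) ⧸ relSub R rel

/-- The classes of `1 ⊗ s`, with `s` in the set `S`, generate the `R`-module `relQuot`. -/
def Generates (rel : A → A → R → Prop) (S : Set A) : Prop :=
  Submodule.span R {t : relQuot R rel | ∃ s ∈ S, t = (relSub R rel).mkQ (1 ⊗ₜ[ℤ] s)} = ⊤

end generic

section theta

variable {p : ℕ} [Fact p.Prime] {M : ℕ} (θ : DirichletCharacter (AlgebraicClosure ℚ_[p]) M)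

/-- The ring `ℤ_p[θ]` generated over `ℤ_p` by the values of `θ`. -/
def ZpTheta : Type := Algebra.adjoin ℤ_[p] (Set.range θ)

noncomputable instance : CommRing (ZpTheta θ) :=
  (Algebra.adjoin ℤ_[p] (Set.range θ)).toCommRing

/-- the value `θ (a)` as an element of `ℤ_p[θ]` -/
noncomputable def thetaVal (a : ZMod M) : ZpTheta θ :=
  ⟨θ a, Algebra.subset_adjoin (Set.mem_range_self a)⟩

variable (E : Type*) [Field E] (M)

/-- The group `K_2 (ℤ[ζ_M, 1/M])`. -/
def K2O : Type _ := K2ring (cycRing E M)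

noncomputable instance : AddCommGroup (K2O M E) := (K2ring (cycRing E M)).toAddCommGroup

variable {M E} in
/-- An element of `K_2 (ℤ[ζ_M, 1/M])` as an element of `K_2 (E)`. -/
def K2val (x : K2O M E) : K2 E := x.1

/-- The set of symbols `{u, v}` of units `u, v` of `ℤ[ζ_M, 1/M]`. -/
def symbolSet : Set (K2O M E) := {x | ∃ u v : Eˣ,
    (u : E) ∈ cycRing E M ∧ ((u⁻¹ : Eˣ) : E) ∈ cycRing E M ∧
    (v : E) ∈ cycRing E M ∧ ((v⁻¹ : Eˣ) : E) ∈ cycRing E M ∧ K2val x = symb u v}

variable {M}

/-- The relation between `x`, `y = σ x` and `c = θ (σ)` for automorphisms `σ = g` of `E = ℚ(ζ_M)`,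
where `g ζ = ζ ^ a` for all `M`-th roots of unity and `θ (σ) = θ (a)`. -/
def galRel [CharZero E] (x y : K2O M E) (c : ZpTheta θ) : Prop :=
  ∃ (g : E ≃ₐ[ℚ] E) (a : (ZMod M)ˣ), (∀ ζ : E, ζ ^ M = 1 → g ζ = ζ ^ (a : ZMod M).val) ∧
    K2val y = K2map (g : E →+* E) (K2val x) ∧ c = thetaVal θ a

/-- The symbols of units of `ℤ[ζ_M, 1/M]` generate the `θ`-part
`(K_2 (ℤ[ζ_M, 1/M]) ⊗ ℤ_p) ⊗ ℤ_p[θ]`, the second tensor product being over the group ring
`ℤ_p[(ℤ/M)ˣ]`; this is the quotient of `ℤ_p[θ] ⊗ K_2 (ℤ[ζ_M, 1/M])` by the relations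
`1 ⊗ σ x = θ (σ) ⊗ x`. -/
def SymbolsGenerate [CharZero E] : Prop :=
  Generates (ZpTheta θ) (galRel θ E) (symbolSet M E)

end theta

end Pool.Agent.TH834
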