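import Mathlib
import Pool.Agent.TH834.Defs
set_option autoImplicit false

/-!
A criterion for the failure of `Generates`.
-/

namespace Pool.Agent.TH834

open scoped TensorProduct

section gen

variable {R : Type} [CommRing R] {A : Type} [AddCommGroup A]
variable {F : Type} [CommRing F] [Nontrivial F] [Algebra R F]

theorem not_generates_aux (rel : A → A → R → Prop) (S : Set A) (f : A →+ F)
    (hrel : ∀ x y c, rel x y c → f y = algebraMap R F c * f x) (hS : ∀ s ∈ S, f s = 0)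
    (z : A) (hz : f z = 1) : ¬ Generates R rel S := by
  intro htop
  unfold Generates at htop
  let P : (R ⊗[ℤ] A) →ₗ[R] F := f.toIntLinearMap.liftBaseChange R
  have hP : ∀ (r : R) (x : A), P (r ⊗ₜ[ℤ] x) = algebraMap R F r * f x := by
    intro r x
    change (f.toIntLinearMap.liftBaseChange R) (r ⊗ₜ[ℤ] x) = _
    rw [LinearMap.liftBaseChange_tmul, Algebra.smul_def]
    rfl
  have hle : relSub R rel ≤ LinearMap.ker P := by
    unfold relSub
    rw [Submodule.span_le]
    rintro t ⟨x, y, c, h, rfl⟩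
    change P _ = 0
    rw [map_sub, hP, hP, map_one, one_mul, hrel x y c h, sub_self]
  let B : relQuot R rel →ₗ[R] F := (relSub R rel).liftQ P hle
  have hle2 : Submodule.span R {t : relQuot R rel |
      ∃ s ∈ S, t = (relSub R rel).mkQ (1 ⊗ₜ[ℤ] s)} ≤ LinearMap.ker B := by
    rw [Submodule.span_le]
    rintro t ⟨x, hx, rfl⟩
    change P (1 ⊗ₜ[ℤ] x) = 0
    rw [hP, hS x hx, mul_zero]
  rw [htop] at hle2
  have h6 : P (1 ⊗ₜ[ℤ] z) = 0 := hle2 (Submodule.mem_top (x := (relSub R rel).mkQ (1 ⊗ₜ[ℤ] z)))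
  rw [hP, hz, map_one, one_mul] at h6
  exact one_ne_zero h6

end gen

theorem not_generates {R : Type} [CommRing R] {A : Type} [AddCommGroup A]
    (Q : Ideal R) (hQ : Q.IsMaximal) (h3 : (3 : R) ∈ Q)
    (rel : A → A → R → Prop) (S : Set A) (f : A →+ ZMod 3)
    (hrel : ∀ x y c, rel x y c → ∃ e : ℤˣ, c ^ 3 = ((e : ℤ) : R) ∧
      f y = ((e : ℤ) : ZMod 3) * f x)
    (hS : ∀ s ∈ S, f s = 0) (z : A) (hz : f z = 1) : ¬ Generates R rel S := by
  have hdom : IsDomain (R ⧸ Q) := (Ideal.Quotient.isDomain_iff_prime Q).2 hQ.isPrime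
  have hchar : CharP (R ⧸ Q) 3 := by
    rw [CharP.charP_iff_prime_eq_zero Nat.prime_three]
    have := Ideal.Quotient.eq_zero_iff_mem.2 h3
    rw [map_ofNat] at this
    exact_mod_cast this
  refine not_generates_aux (F := R ⧸ Q) rel S
    (((ZMod.castHom (dvd_refl 3) (R ⧸ Q) : ZMod 3 →+* (R ⧸ Q)) : ZMod 3 →+ (R ⧸ Q)).comp f)
    ?_ ?_ z ?_
  · intro x y c h
    obtain ⟨e, h1, h2⟩ := hrel x y c h
    change ZMod.castHom (dvd_refl 3) (R ⧸ Q) (f y) = _ * ZMod.castHom (dvd_refl 3) (R ⧸ Q) (f x)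
    rw [h2, map_mul, map_intCast]
    congr 1
    have h3 := congrArg (algebraMap R (R ⧸ Q)) h1
    rw [map_pow, map_intCast] at h3
    generalize algebraMap R (R ⧸ Q) c = t at h3
    have h4 : (t - (((e : ℤˣ) : ℤ) : (R ⧸ Q))) ^ 3 = 0 := by
      rw [sub_pow_char, h3]
      rcases Int.units_eq_one_or e with h | h <;> rw [h] <;> norm_num
    exact (sub_eq_zero.1 (pow_eq_zero_iff (by norm_num) |>.1 h4)).symm
  · intro s hs
    change ZMod.castHom (dvd_refl 3) (R ⧸ Q) (f s) = 0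
    rw [hS s hs, map_zero]
  · change ZMod.castHom (dvd_refl 3) (R ⧸ Q) (f z) = 1
    rw [hz, map_one]

end Pool.Agent.TH834
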