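import Mathlib
import Pool.Agent.W367.KT.K2
set_option autoImplicit false

/-!
Valuations of a number field and automorphisms.
-/

namespace Pool.Agent.TH834

open NumberField IsDedekindDomain HeightOneSpectrum WithZero Pool.Agent.W367.KT

section general

variable {E : Type} [Field E] [NumberField E]

theorem cmul (a b : 𝓞 E) : ((a * b : 𝓞 E) : E) = (a : E) * (b : E) := rfl
theorem cadd (a b : 𝓞 E) : ((a + b : 𝓞 E) : E) = (a : E) + (b : E) := rfl
theorem csub (a b : 𝓞 E) : ((a - b : 𝓞 E) : E) = (a : E) - (b : E) := rfl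
theorem cpow (a : 𝓞 E) (n : ℕ) : ((a ^ n : 𝓞 E) : E) = (a : E) ^ n := rfl
theorem cone : ((1 : 𝓞 E) : E) = 1 := rfl
theorem cnat (n : ℕ) : ((n : 𝓞 E) : E) = (n : E) := rfl
theorem cint (n : ℤ) : ((n : 𝓞 E) : E) = (n : E) := rfl

/-- the action of a field automorphism on the ring of integers -/
noncomputable abbrev intEquiv (g : E ≃ₐ[ℚ] E) : 𝓞 E ≃+* 𝓞 E :=
  RingOfIntegers.mapRingEquiv (g : E ≃+* E)

theorem coe_intEquiv (g : E ≃ₐ[ℚ] E) (x : 𝓞 E) : ((intEquiv g x : 𝓞 E) : E) = g (x : E) := rfl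

theorem map_pow_mem (g : E ≃ₐ[ℚ] E) (P Q : Ideal (𝓞 E))
    (h : ∀ x : 𝓞 E, x ∈ P ↔ intEquiv g x ∈ Q) (n : ℕ) (x : 𝓞 E) :
    x ∈ P ^ n ↔ intEquiv g x ∈ Q ^ n := by
  have h1 : P.map (intEquiv g) = Q := by
    ext y
    rw [Ideal.mem_map_iff_of_surjective _ (intEquiv g).surjective]
    constructor
    · rintro ⟨x, hx, rfl⟩
      exact (h x).1 hx
    · intro hy
      obtain ⟨x, rfl⟩ := (intEquiv g).surjective y
      exact ⟨x, (h x).2 hy, rfl⟩
  rw [← h1, ← Ideal.map_pow]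
  constructor
  · intro hx
    exact Ideal.mem_map_of_mem _ hx
  · intro hx
    rw [Ideal.mem_map_iff_of_surjective _ (intEquiv g).surjective] at hx
    obtain ⟨y, hy, hyx⟩ := hx
    have : y = x := (intEquiv g).injective hyx
    exact this ▸ hy

theorem intValuation_map (g : E ≃ₐ[ℚ] E) (P Q : HeightOneSpectrum (𝓞 E))
    (h : ∀ x : 𝓞 E, x ∈ P.asIdeal ↔ intEquiv g x ∈ Q.asIdeal) (x : 𝓞 E) :
    Q.intValuation (intEquiv g x) = P.intValuation x := by
  by_cases hx : x = 0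
  · subst hx; simp
  have hgx : intEquiv g x ≠ 0 := by simpa using hx
  have key : ∀ n : ℕ, Q.intValuation (intEquiv g x) ≤ exp (-(n : ℤ)) ↔
      P.intValuation x ≤ exp (-(n : ℤ)) := by
    intro n
    rw [intValuation_le_pow_iff_mem, intValuation_le_pow_iff_mem,
      ← map_pow_mem g P.asIdeal Q.asIdeal h]
  have hP := P.intValuation_eq_exp_neg_multiplicity hx
  have hQ := Q.intValuation_eq_exp_neg_multiplicity hgx
  rw [hP, hQ] at key ⊢
  have k1 := (key (multiplicity Q.asIdeal (Ideal.span {intEquiv g x}))).1 le_rfl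
  have k2 := (key (multiplicity P.asIdeal (Ideal.span {x}))).2 le_rfl
  exact le_antisymm k2 k1

theorem valuation_map (g : E ≃ₐ[ℚ] E) (P Q : HeightOneSpectrum (𝓞 E))
    (h : ∀ x : 𝓞 E, x ∈ P.asIdeal ↔ intEquiv g x ∈ Q.asIdeal) (x : E) :
    Q.valuation E (g x) = P.valuation E x := by
  obtain ⟨n, d, hd, rfl⟩ := IsFractionRing.div_surjective (A := 𝓞 E) x
  rw [map_div₀, map_div₀, map_div₀]
  have e : ∀ y : 𝓞 E, Q.valuation E (g (algebraMap (𝓞 E) E y)) =
      P.valuation E (algebraMap (𝓞 E) E y) := by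
    intro y
    have : g (algebraMap (𝓞 E) E y) = algebraMap (𝓞 E) E (intEquiv g y) := rfl
    rw [this, valuation_of_algebraMap, valuation_of_algebraMap, intValuation_map g P Q h]
  rw [e, e]

theorem ord_map (g : E ≃ₐ[ℚ] E) (P Q : HeightOneSpectrum (𝓞 E))
    (h : ∀ x : 𝓞 E, x ∈ P.asIdeal ↔ intEquiv g x ∈ Q.asIdeal) (x : Eˣ) :
    ord (Q.valuation E) (Units.map (g : E →* E) x) = ord (P.valuation E) x := by
  rw [ord_eq_iff, ← val_eq]
  exact valuation_map g P Q h x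

/-- if all valuations are trivial, the element is a unit of the ring of integers -/
theorem exists_unit_of_ord_eq_zero (x : Eˣ)
    (h : ∀ P : HeightOneSpectrum (𝓞 E), ord (P.valuation E) x = 0) :
    ∃ u : (𝓞 E)ˣ, ((u : 𝓞 E) : E) = x := by
  have h1 : ∀ P : HeightOneSpectrum (𝓞 E), P.valuation E (x : E) = 1 := by
    intro P
    rw [val_eq, h P]; simp
  obtain ⟨a, ha⟩ := HeightOneSpectrum.mem_integers_of_valuation_le_one E (x : E)
    (fun P => (h1 P).le)
  obtain ⟨b, hb⟩ := HeightOneSpectrum.mem_integers_of_valuation_le_one E ((x⁻¹ : Eˣ) : E)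
    (fun P => by rw [Units.val_inv_eq_inv_val, map_inv₀, h1 P, inv_one])
  have hab : a * b = 1 := by
    apply RingOfIntegers.ext
    change algebraMap (𝓞 E) E (a * b) = 1
    rw [map_mul, ha, hb, ← Units.val_mul, mul_inv_cancel, Units.val_one]
  exact ⟨⟨a, b, hab, by rw [mul_comm]; exact hab⟩, ha⟩

theorem ord_unit (P : HeightOneSpectrum (𝓞 E)) (u : (𝓞 E)ˣ) (x : Eˣ)
    (h : ((u : 𝓞 E) : E) = x) : ord (P.valuation E) x = 0 := by
  rw [ord_eq_iff, ← h]
  have h1 : P.valuation E ((u : 𝓞 E) : E) ≤ 1 := P.valuation_le_one _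
  have h2 : P.valuation E (((u⁻¹ : (𝓞 E)ˣ) : 𝓞 E) : E) ≤ 1 := P.valuation_le_one _
  have h3 : P.valuation E ((u : 𝓞 E) : E) * P.valuation E (((u⁻¹ : (𝓞 E)ˣ) : 𝓞 E) : E) = 1 := by
    rw [← map_mul, ← map_mul, ← Units.val_mul, mul_inv_cancel]
    simp
  have h4 := eq_one_of_one_le_mul_left h1 h2 h3.ge
  change P.valuation E ((u : 𝓞 E) : E) = _
  rw [h4]; simp

theorem ord_eq_zero_of_not_mem (P : HeightOneSpectrum (𝓞 E)) (a : 𝓞 E) (x : Eˣ)
    (ha : algebraMap (𝓞 E) E a = x) (h : a ∉ P.asIdeal) : ord (P.valuation E) x = 0 := by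
  rw [ord_eq_iff, ← ha]
  have := (P.valuation_of_algebraMap (K := E) a)
  rw [this]
  have h2 := (P.intValuation_eq_one_iff (x := a)).2 h
  rw [h2]; simp

theorem ord_nonneg_of_int (P : HeightOneSpectrum (𝓞 E)) (a : 𝓞 E) (x : Eˣ)
    (ha : algebraMap (𝓞 E) E a = x) : 0 ≤ ord (P.valuation E) x := by
  have h1 : P.valuation E (x : E) ≤ 1 := by rw [← ha]; exact P.valuation_le_one _
  rw [val_eq, ← WithZero.exp_zero, WithZero.exp_le_exp] at h1
  omega

end general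

end Pool.Agent.TH834
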