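import Mathlib
import Pool.Agent.TH834.Gal
set_option autoImplicit false

/-!
The cyclotomic field of conductor `87996 = 12 * 7333` and a prime of it above `7333`.
-/

namespace Pool.Agent.TH834

open NumberField IsDedekindDomain HeightOneSpectrum WithZero Pool.Agent.W367.KT Polynomial

/-- the conductor `12 * 7333` -/
abbrev MM : ℕ := 87996
/-- the prime `7333` -/
abbrev LL : ℕ := 7333

instance factLL : Fact (Nat.Prime LL) := ⟨by norm_num⟩
instance neZeroMM : NeZero MM := ⟨by norm_num⟩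

section cyc

variable (E : Type) [Field E] [NumberField E] [IsCyclotomicExtension {MM} ℚ E]

/-- a primitive root of unity of order `MM` -/
noncomputable def zt : E := IsCyclotomicExtension.zeta MM ℚ E

theorem zt_spec : IsPrimitiveRoot (zt E) MM := IsCyclotomicExtension.zeta_spec MM ℚ E

/-- the root of unity in the ring of integers -/
noncomputable def ztI : 𝓞 E := (zt_spec E).toInteger

theorem coe_ztI : ((ztI E : 𝓞 E) : E) = zt E := rfl

theorem ztI_spec : IsPrimitiveRoot (ztI E) MM := (zt_spec E).toInteger_isPrimitiveRoot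

theorem adjoin_ztI : Algebra.adjoin ℤ {ztI E} = ⊤ :=
  IsCyclotomicExtension.Rat.adjoin_singleton_eq_top (zt_spec E)

variable {E}

theorem frob_sub_mem (P : Ideal (𝓞 E)) [P.IsPrime] (q j : ℕ) (hq : q.Prime) (hqP : (q : 𝓞 E) ∈ P)
    (g : E ≃ₐ[ℚ] E) (h : intEquiv g (ztI E) - (ztI E) ^ (q ^ j) ∈ P) (x : 𝓞 E) :
    intEquiv g x - x ^ (q ^ j) ∈ P := by
  have hc : CharP (𝓞 E ⧸ P) q := by
    rw [CharP.charP_iff_prime_eq_zero hq]
    have := Ideal.Quotient.eq_zero_iff_mem.2 hqP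
    rw [map_natCast] at this
    exact this
  have : Fact q.Prime := ⟨hq⟩
  let f : 𝓞 E →+* (𝓞 E ⧸ P) := (Ideal.Quotient.mk P).comp (intEquiv g : 𝓞 E →+* 𝓞 E)
  let f' : 𝓞 E →+* (𝓞 E ⧸ P) := (iterateFrobenius (𝓞 E ⧸ P) q j).comp (Ideal.Quotient.mk P)
  have hff' : f.toIntAlgHom = f'.toIntAlgHom := by
    apply AlgHom.ext_of_adjoin_eq_top (adjoin_ztI E)
    intro y hy
    rw [Set.mem_singleton_iff] at hy
    subst hy
    change Ideal.Quotient.mk P (intEquiv g (ztI E)) =
      iterateFrobenius (𝓞 E ⧸ P) q j (Ideal.Quotient.mk P (ztI E))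
    rw [iterateFrobenius_def, ← map_pow, Ideal.Quotient.eq]
    exact h
  have h2 : f x = f' x := congrArg (fun t : 𝓞 E →ₐ[ℤ] (𝓞 E ⧸ P) => t x) hff'
  change Ideal.Quotient.mk P (intEquiv g x) =
      iterateFrobenius (𝓞 E ⧸ P) q j (Ideal.Quotient.mk P x) at h2
  rw [iterateFrobenius_def, ← map_pow, Ideal.Quotient.eq] at h2
  exact h2

theorem frob_mem_iff (P : Ideal (𝓞 E)) [P.IsPrime] (q j : ℕ) (hq : q.Prime) (hqP : (q : 𝓞 E) ∈ P)
    (g : E ≃ₐ[ℚ] E) (h : intEquiv g (ztI E) - (ztI E) ^ (q ^ j) ∈ P) (x : 𝓞 E) :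
    x ∈ P ↔ intEquiv g x ∈ P := by
  have h1 := frob_sub_mem P q j hq hqP g h x
  constructor
  · intro hx
    have h2 : x ^ (q ^ j) ∈ P := Ideal.pow_mem_of_mem _ hx _ (pow_pos hq.pos _)
    have := P.add_mem h1 h2
    simpa using this
  · intro hx
    have h2 : x ^ (q ^ j) ∈ P := by
      have := P.sub_mem hx h1
      simpa using this
    exact Ideal.IsPrime.mem_of_pow_mem inferInstance _ h2

/-- valuations are unchanged under automorphisms that act as a power of Frobenius -/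
theorem ord_frob (P : HeightOneSpectrum (𝓞 E)) (q j : ℕ) (hq : q.Prime)
    (hqP : (q : 𝓞 E) ∈ P.asIdeal)
    (g : E ≃ₐ[ℚ] E) (h : intEquiv g (ztI E) - (ztI E) ^ (q ^ j) ∈ P.asIdeal) (x : Eˣ) :
    ord (P.valuation E) (Units.map (g : E →* E) x) = ord (P.valuation E) x :=
  ord_map g P P (fun y => frob_mem_iff P.asIdeal q j hq hqP g h y) x

theorem kappa_spec : IsPrimitiveRoot (2237 : ZMod LL) 12 := by
  rw [IsPrimitiveRoot.iff_orderOf]
  apply orderOf_eq_of_pow_and_pow_div_prime (by norm_num) (by decide)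
  intro p hp hd
  have h12 : p ∣ 2 ^ 2 * 3 := by simpa using hd
  have : p = 2 ∨ p = 3 := by
    rcases (Nat.Prime.dvd_mul hp).1 h12 with h | h
    · exact Or.inl ((Nat.prime_dvd_prime_iff_eq hp Nat.prime_two).1 (hp.dvd_of_dvd_pow h))
    · exact Or.inr ((Nat.prime_dvd_prime_iff_eq hp Nat.prime_three).1 h)
  rcases this with rfl | rfl
  · decide
  · decide

variable (E)

theorem eval_cyc : (aeval (2237 : ZMod LL)) (minpoly ℤ (zt_spec E).integralPowerBasis.gen) = 0 := by
  rw [IsPrimitiveRoot.integralPowerBasis_gen]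
  have h1 : minpoly ℤ (zt_spec E).toInteger = cyclotomic MM ℤ := by
    rw [cyclotomic_eq_minpoly (zt_spec E) (by norm_num), ← RingOfIntegers.minpoly_coe]
    rfl
  rw [h1, aeval_def, eval₂_eq_eval_map, map_cyclotomic,
    show (MM : ℕ) = 12 * LL by norm_num,
    cyclotomic_mul_prime_eq_pow_of_not_dvd (ZMod LL) (n := 12) (p := LL) (by norm_num)]
  rw [eval_pow]
  have h2 : eval (2237 : ZMod LL) (cyclotomic 12 (ZMod LL)) = 0 :=
    IsPrimitiveRoot.isRoot_cyclotomic (by norm_num) kappa_spec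
  rw [h2, zero_pow (by norm_num)]

/-- the residue map of the chosen prime above `7333`: it sends `zt` to `2237` -/
noncomputable def rho : 𝓞 E →+* ZMod LL :=
  ((zt_spec E).integralPowerBasis.lift (2237 : ZMod LL) (eval_cyc E)).toRingHom

theorem rho_ztI : rho E (ztI E) = 2237 := by
  have h := (zt_spec E).integralPowerBasis.lift_gen (2237 : ZMod LL) (eval_cyc E)
  rw [IsPrimitiveRoot.integralPowerBasis_gen] at h
  exact h

theorem rho_LL : rho E (LL : 𝓞 E) = 0 := by
  rw [map_natCast, ZMod.natCast_self]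

/-- the chosen prime above `7333` -/
noncomputable def Wp : HeightOneSpectrum (𝓞 E) where
  asIdeal := RingHom.ker (rho E)
  isPrime := RingHom.ker_isPrime _
  ne_bot := by
    intro h
    have h1 : (LL : 𝓞 E) ∈ RingHom.ker (rho E) := rho_LL E
    rw [h, Ideal.mem_bot] at h1
    have : ((LL : ℕ) : 𝓞 E) ≠ 0 := Nat.cast_ne_zero.2 (by norm_num)
    exact this h1

variable {E}

theorem mem_Wp (x : 𝓞 E) : x ∈ (Wp E).asIdeal ↔ rho E x = 0 := RingHom.mem_ker

theorem LL_mem_Wp : (LL : 𝓞 E) ∈ (Wp E).asIdeal := rho_LL E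

end cyc

end Pool.Agent.TH834
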