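import Mathlib
import Pool.Agent.TH834.Cyc
set_option autoImplicit false

/-!
Leading coefficients at the chosen prime above `7333`.
-/

namespace Pool.Agent.TH834

open NumberField IsDedekindDomain HeightOneSpectrum WithZero Pool.Agent.W367.KT Polynomial

section loc

variable (E : Type) [Field E] [NumberField E] [IsCyclotomicExtension {MM} ℚ E]

/-- the valuation of the chosen prime -/
noncomputable abbrev wv : Valuation E ℤᵐ⁰ := (Wp E).valuation E

variable {E}

theorem wv_int (d : 𝓞 E) (hd : rho E d ≠ 0) : wv E (d : E) = 1 := by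
  have h : d ∉ (Wp E).asIdeal := fun h => hd ((mem_Wp d).1 h)
  have h2 := ((Wp E).intValuation_eq_one_iff (x := d)).2 h
  change (Wp E).valuation E (algebraMap (𝓞 E) E d) = 1
  rw [valuation_of_algebraMap, h2]

theorem wv_int_lt (d : 𝓞 E) (hd : rho E d = 0) : wv E (d : E) < 1 := by
  have h : d ∈ (Wp E).asIdeal := (mem_Wp d).2 hd
  change (Wp E).valuation E (algebraMap (𝓞 E) E d) < 1
  rw [valuation_of_algebraMap]
  exact (Wp E).intValuation_lt_one_iff_mem d |>.2 h

theorem exists_rep (x : E) (hx : wv E x ≤ 1) :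
    ∃ (n d : 𝓞 E), rho E d ≠ 0 ∧ x * (d : E) = n := by
  obtain ⟨n, d, h⟩ := (Wp E).exists_primeCompl_mul_eq_of_integer x hx
  exact ⟨n, d, fun h0 => d.2 ((mem_Wp _).2 h0), h⟩

open Classical in
/-- the residue of an element that is integral at the chosen prime -/
noncomputable def resF (x : E) : ZMod LL :=
  if h : wv E x ≤ 1 then rho E (exists_rep x h).choose / rho E (exists_rep x h).choose_spec.choose
  else 0

theorem resF_eq {x : E} {n d : 𝓞 E} (hd : rho E d ≠ 0) (h : x * (d : E) = n) :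
    resF x = rho E n / rho E d := by
  have hx : wv E x ≤ 1 := by
    have h1 : wv E (x * (d : E)) ≤ 1 := by
      rw [h]; exact (Wp E).valuation_le_one n
    rwa [map_mul, wv_int d hd, mul_one] at h1
  unfold resF
  rw [dif_pos hx]
  obtain ⟨h1, h2⟩ := (exists_rep x hx).choose_spec.choose_spec
  set n' := (exists_rep x hx).choose
  set d' := (exists_rep x hx).choose_spec.choose
  have h3 : n' * d = n * d' := by
    apply RingOfIntegers.ext
    change algebraMap (𝓞 E) E (n' * d) = algebraMap (𝓞 E) E (n * d')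
    rw [map_mul, map_mul]
    change (n' : E) * (d : E) = (n : E) * (d' : E)
    rw [← h2, ← h]; ring
  have h4 := congrArg (rho E) h3
  rw [map_mul, map_mul] at h4
  rw [div_eq_div_iff h1 hd, h4]

theorem resF_int (n : 𝓞 E) : resF (n : E) = rho E n := by
  have := resF_eq (x := (n : E)) (n := n) (d := 1) (by rw [map_one]; exact one_ne_zero) (by simp)
  rw [this, map_one, div_one]

theorem resF_mul {x y : E} (hx : wv E x ≤ 1) (hy : wv E y ≤ 1) :
    resF (x * y) = resF x * resF y := by
  obtain ⟨n, d, hd, h⟩ := exists_rep x hx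
  obtain ⟨n', d', hd', h'⟩ := exists_rep y hy
  rw [resF_eq hd h, resF_eq hd' h', resF_eq (n := n * n') (d := d * d')
    (by rw [map_mul]; exact mul_ne_zero hd hd') (by
      rw [cmul, cmul, ← h, ← h']; ring), map_mul, map_mul, div_mul_div_comm]

theorem resF_ne_zero {x : E} (hx : wv E x = 1) : resF x ≠ 0 := by
  obtain ⟨n, d, hd, h⟩ := exists_rep x hx.le
  rw [resF_eq hd h]
  apply div_ne_zero _ hd
  intro h0
  have h1 := wv_int_lt n h0
  rw [← h, map_mul, hx, wv_int d hd, one_mul] at h1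
  exact lt_irrefl _ h1

theorem resF_one_add {x : E} (hx : wv E x < 1) : resF (1 + x) = 1 := by
  obtain ⟨n, d, hd, h⟩ := exists_rep x hx.le
  have hn : rho E n = 0 := by
    by_contra h0
    have h1 := wv_int n h0
    rw [← h, map_mul, wv_int d hd, mul_one] at h1
    exact absurd h1 hx.ne
  rw [resF_eq (n := d + n) (d := d) hd (by rw [cadd, ← h]; ring), map_add, hn, add_zero,
    div_self hd]

variable (E)

/-- the uniformizer `1 - ζ_ℓ` as an integer -/
noncomputable def etaI : 𝓞 E := 1 - (ztI E) ^ 12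

theorem rho_etaI : rho E (etaI E) = 0 := by
  unfold etaI
  rw [map_sub, map_one, map_pow, rho_ztI]
  decide

theorem etaI_ne_zero : etaI E ≠ 0 := by
  unfold etaI
  intro h
  have h1 : (ztI E) ^ 12 = 1 := (sub_eq_zero.1 h).symm
  have h2 := (ztI_spec E).dvd_of_pow_eq_one 12 h1
  norm_num at h2

theorem coe_etaI_ne_zero : ((etaI E : 𝓞 E) : E) ≠ 0 := by
  intro h
  exact etaI_ne_zero E (RingOfIntegers.ext (by rw [h]; rfl))

/-- the uniformizer `1 - ζ_ℓ` -/
noncomputable def eta : Eˣ := Units.mk0 ((etaI E : 𝓞 E) : E) (coe_etaI_ne_zero E)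

theorem coe_eta : ((eta E : Eˣ) : E) = ((etaI E : 𝓞 E) : E) := rfl

theorem coe_eta' : ((eta E : Eˣ) : E) = 1 - zt E ^ 12 := by
  rw [coe_eta]; unfold etaI
  rw [csub, cone, cpow]; rfl

/-- image of the root of unity in the dual numbers -/
noncomputable def kd : DualNumber (ZMod LL) := TrivSqZeroExt.inl 2237 + TrivSqZeroExt.inr 1

theorem eval_cyc_dual :
    (aeval (kd : DualNumber (ZMod LL))) (minpoly ℤ (zt_spec E).integralPowerBasis.gen) = 0 := by
  rw [IsPrimitiveRoot.integralPowerBasis_gen]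
  have h1 : minpoly ℤ (zt_spec E).toInteger = cyclotomic MM ℤ := by
    rw [cyclotomic_eq_minpoly (zt_spec E) (by norm_num), ← RingOfIntegers.minpoly_coe]
    rfl
  have hcom : aeval (kd : DualNumber (ZMod LL)) (cyclotomic MM ℤ) =
      aeval (kd : DualNumber (ZMod LL)) (cyclotomic MM (ZMod LL)) := by
    rw [← map_cyclotomic_int MM (ZMod LL), aeval_def, aeval_def, eval₂_map]
    congr 1
  rw [h1, hcom, show (MM : ℕ) = 12 * LL by norm_num,
    cyclotomic_mul_prime_eq_pow_of_not_dvd (ZMod LL) (n := 12) (p := LL) (by norm_num), map_pow]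
  have h2 : TrivSqZeroExt.fst (aeval (kd : DualNumber (ZMod LL)) (cyclotomic 12 (ZMod LL))) = 0 := by
    have h3 : TrivSqZeroExt.fst (aeval (kd : DualNumber (ZMod LL)) (cyclotomic 12 (ZMod LL))) =
      aeval (2237 : ZMod LL) (cyclotomic 12 (ZMod LL)) := by
      have h4 := (Polynomial.aeval_algHom_apply
        (TrivSqZeroExt.fstHom (ZMod LL) (ZMod LL) (ZMod LL)) kd (cyclotomic 12 (ZMod LL)))
      have h5 : TrivSqZeroExt.fst (kd : DualNumber (ZMod LL)) = 2237 := by
        unfold kd; simp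
      rw [TrivSqZeroExt.fstHom_apply, h5] at h4
      exact h4.symm
    rw [h3]
    exact IsPrimitiveRoot.isRoot_cyclotomic (by norm_num) kappa_spec
  have h5 : (aeval (kd : DualNumber (ZMod LL)) (cyclotomic 12 (ZMod LL))) ^ 2 = 0 := by
    rw [pow_two]
    ext
    · simp [h2]
    · simp [h2]
  rw [show LL - 1 = 2 * 3666 by norm_num, pow_mul, h5, zero_pow (by norm_num)]

/-- the first order neighbourhood of the chosen prime -/
noncomputable def rhoD : 𝓞 E →+* DualNumber (ZMod LL) :=
  ((zt_spec E).integralPowerBasis.lift (kd : DualNumber (ZMod LL)) (eval_cyc_dual E)).toRingHom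

theorem rhoD_ztI : rhoD E (ztI E) = kd := by
  have h := (zt_spec E).integralPowerBasis.lift_gen (kd : DualNumber (ZMod LL)) (eval_cyc_dual E)
  rw [IsPrimitiveRoot.integralPowerBasis_gen] at h
  exact h

theorem fst_rhoD (x : 𝓞 E) : TrivSqZeroExt.fst (rhoD E x) = rho E x := by
  have h : ((TrivSqZeroExt.fstHom ℤ (ZMod LL) (ZMod LL)).comp (rhoD E).toIntAlgHom) =
      (rho E).toIntAlgHom := by
    apply AlgHom.ext_of_adjoin_eq_top (adjoin_ztI E)
    intro y hy
    rw [Set.mem_singleton_iff] at hy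
    subst hy
    change TrivSqZeroExt.fst (rhoD E (ztI E)) = rho E (ztI E)
    rw [rhoD_ztI, rho_ztI]
    unfold kd
    simp
  exact congrArg (fun t : 𝓞 E →ₐ[ℤ] ZMod LL => t x) h

theorem rhoD_sq (x : 𝓞 E) (hx : x ∈ (Wp E).asIdeal ^ 2) : rhoD E x = 0 := by
  rw [pow_two] at hx
  refine Submodule.mul_induction_on hx ?_ ?_
  · intro a ha b hb
    have ha' : TrivSqZeroExt.fst (rhoD E a) = 0 := by rw [fst_rhoD]; exact (mem_Wp a).1 ha
    have hb' : TrivSqZeroExt.fst (rhoD E b) = 0 := by rw [fst_rhoD]; exact (mem_Wp b).1 hb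
    rw [map_mul]
    ext
    · simp [ha']
    · simp [ha', hb']
  · intro a b ha hb
    rw [map_add, ha, hb, add_zero]

theorem ord_eta : ord (wv E) (eta E) = 1 := by
  have h1 : wv E ((etaI E : 𝓞 E) : E) < 1 := wv_int_lt _ (rho_etaI E)
  have h2 : ¬ (wv E ((etaI E : 𝓞 E) : E) ≤ exp (-((2 : ℕ) : ℤ))) := by
    change ¬ ((Wp E).valuation E (algebraMap (𝓞 E) E (etaI E)) ≤ _)
    rw [valuation_of_algebraMap, intValuation_le_pow_iff_mem]
    intro h
    have h3 := rhoD_sq E _ h
    unfold etaI at h3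
    rw [map_sub, map_one, map_pow, rhoD_ztI] at h3
    have h4 := congrArg TrivSqZeroExt.snd h3
    unfold kd at h4
    rw [TrivSqZeroExt.snd_sub, TrivSqZeroExt.snd_pow] at h4
    simp only [TrivSqZeroExt.snd_one, TrivSqZeroExt.fst_add, TrivSqZeroExt.fst_inl,
      TrivSqZeroExt.fst_inr, TrivSqZeroExt.snd_add, TrivSqZeroExt.snd_inl, TrivSqZeroExt.snd_inr,
      TrivSqZeroExt.snd_zero] at h4
    revert h4
    decide
  have h3 : ord (wv E) (eta E) ≠ 0 := by
    intro h
    rw [ord_eq_iff, coe_eta] at h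
    rw [h] at h1
    simp at h1
  have h4 : 0 ≤ ord (wv E) (eta E) := ord_nonneg_of_int (Wp E) (etaI E) (eta E) rfl
  have h5 : ord (wv E) (eta E) < 2 := by
    by_contra h6
    apply h2
    rw [← coe_eta, val_eq, WithZero.exp_le_exp]
    push_cast
    omega
  omega

end loc

end Pool.Agent.TH834
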