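import Mathlib
import Pool.Agent.TH834.Loc
set_option autoImplicit false

/-!
Leading coefficients at the chosen prime above `7333` and the inertia group.
-/

namespace Pool.Agent.TH834

open NumberField IsDedekindDomain HeightOneSpectrum WithZero Pool.Agent.W367.KT Polynomial

section lead

variable {E : Type} [Field E] [NumberField E] [IsCyclotomicExtension {MM} ℚ E]

theorem wv_of_ord {x : Eˣ} (h : ord (wv E) x = 0) : wv E (x : E) = 1 := by
  rw [val_eq, h]; simp

theorem ord_normalize (x : Eˣ) : ord (wv E) (x * eta E ^ (-(ord (wv E) x))) = 0 := by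
  rw [ord_mul, ord_zpow, ord_eta]; ring

/-- the leading coefficient as an element of the field with `7333` elements -/
noncomputable def lcF (x : Eˣ) : ZMod LL := resF ((x * eta E ^ (-(ord (wv E) x)) : Eˣ) : E)

theorem lcF_ne_zero (x : Eˣ) : lcF x ≠ 0 := resF_ne_zero (wv_of_ord (ord_normalize x))

theorem lcF_mul (x y : Eˣ) : lcF (x * y) = lcF x * lcF y := by
  unfold lcF
  rw [← resF_mul (wv_of_ord (ord_normalize x)).le (wv_of_ord (ord_normalize y)).le]
  congr 1
  rw [← Units.val_mul, ord_mul, neg_add, zpow_add]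
  congr 1
  simp only [mul_assoc, mul_left_comm]

theorem lcF_one : lcF (1 : Eˣ) = 1 := by
  have h := lcF_mul (1 : Eˣ) 1
  rw [mul_one] at h
  have h2 := lcF_ne_zero (1 : Eˣ)
  field_simp at h
  exact h.symm

variable (E)

/-- the leading coefficient homomorphism -/
noncomputable def lc : Eˣ →* (ZMod LL)ˣ where
  toFun x := Units.mk0 (lcF x) (lcF_ne_zero x)
  map_one' := Units.ext lcF_one
  map_mul' x y := Units.ext (lcF_mul x y)

variable {E}

theorem coe_lc (x : Eˣ) : ((lc E x : (ZMod LL)ˣ) : ZMod LL) = lcF x := rfl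

theorem lc_of_ord_zero (x : Eˣ) (h : ord (wv E) x = 0) :
    ((lc E x : (ZMod LL)ˣ) : ZMod LL) = resF (x : E) := by
  rw [coe_lc]; unfold lcF
  rw [h, neg_zero, zpow_zero, mul_one]

theorem lc_int (d : 𝓞 E) (hd : rho E d ≠ 0) (x : Eˣ) (hx : (x : E) = d) :
    ((lc E x : (ZMod LL)ˣ) : ZMod LL) = rho E d := by
  have h : ord (wv E) x = 0 := by
    rw [ord_eq_iff, hx, wv_int d hd]; simp
  rw [lc_of_ord_zero x h, hx, resF_int]

theorem lc_eta : lc E (eta E) = 1 := by
  ext
  rw [coe_lc]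
  unfold lcF
  rw [ord_eta, zpow_neg, zpow_one, mul_inv_cancel, Units.val_one]
  have := resF_int (1 : 𝓞 E)
  rw [cone, map_one] at this
  rw [this]; rfl

theorem lc_eq (x y : Eˣ) (n : ℤ) (h : x = eta E ^ n * y) : lc E x = lc E y := by
  rw [h, map_mul, map_zpow, lc_eta, one_zpow, one_mul]

/-- the integer `7333` as a unit of `E` -/
noncomputable def uL : Eˣ := Units.mk0 (LL : E) (Nat.cast_ne_zero.2 (by norm_num))

theorem eta_pow : ∃ r : 𝓞 E, rho E r = 1 ∧ (etaI E) ^ 7332 = - (LL : 𝓞 E) * r := by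
  set s : 𝓞 E := ∑ k ∈ Finset.Ioo 0 LL, (-etaI E) ^ (k - 1) * (1 : 𝓞 E) ^ (LL - k - 1) *
    ((LL.choose k / LL : ℕ) : 𝓞 E) with hs
  have h1 : (-etaI E + 1) ^ LL = (-etaI E) ^ LL + 1 ^ LL + (LL : 𝓞 E) * (-etaI E) * 1 * s :=
    add_pow_prime_eq factLL.out _ _
  have h2 : (-etaI E + 1) ^ LL = 1 := by
    unfold etaI
    rw [neg_sub, sub_add_cancel, ← pow_mul]
    exact (ztI_spec E).pow_eq_one
  have h3 : rho E s = 1 := by
    rw [hs, map_sum, Finset.sum_eq_single 1]
    · rw [map_mul, map_mul, map_pow, map_pow, map_one, one_pow, Nat.sub_self, pow_zero, one_mul,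
        one_mul, map_natCast, Nat.choose_one_right, Nat.div_self (by norm_num), Nat.cast_one]
    · intro k hk hk1
      rw [Finset.mem_Ioo] at hk
      rw [map_mul, map_mul, map_pow, map_neg, rho_etaI, neg_zero,
        zero_pow (by omega), zero_mul, zero_mul]
    · intro h
      exfalso; apply h
      rw [Finset.mem_Ioo]; constructor <;> norm_num
  refine ⟨s, h3, ?_⟩
  rw [h2, one_pow, mul_one] at h1
  have h4 : (-etaI E) ^ LL = -(etaI E ^ 7332 * etaI E) := by
    rw [Odd.neg_pow (by decide), ← pow_succ]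
  rw [h4] at h1
  have h5 : etaI E * (etaI E ^ 7332) = etaI E * (-(LL : 𝓞 E) * s) := by linear_combination h1
  exact mul_left_cancel₀ (etaI_ne_zero E) h5

theorem ord_uL : ord (wv E) (uL : Eˣ) = 7332 := by
  obtain ⟨r, hr, h⟩ := eta_pow (E := E)
  have hr0 : (r : E) ≠ 0 := by
    intro h0
    have : r = 0 := RingOfIntegers.ext (by rw [h0]; rfl)
    rw [this, map_zero] at hr
    exact zero_ne_one hr
  have h1 : eta E ^ 7332 = (-1) * uL * Units.mk0 (r : E) hr0 := by
    ext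
    have h2 := congrArg (fun t : 𝓞 E => (t : E)) h
    push_cast
    rw [coe_eta, ← cpow, h]
    have h7 : ((-(LL : 𝓞 E) * r : 𝓞 E) : E) = -(LL : E) * (r : E) := by
      change algebraMap (𝓞 E) E (-(LL : 𝓞 E) * r) = _
      rw [map_mul, map_neg, map_natCast]
    rw [h7]
    simp [uL]
  have h3 := congrArg (ord (wv E)) h1
  rw [ord_pow, ord_eta, ord_mul, ord_mul, ord_neg, ord_one] at h3
  have h4 : ord (wv E) (Units.mk0 (r : E) hr0) = 0 := by
    rw [ord_eq_iff, Units.val_mk0, wv_int r (by rw [hr]; exact one_ne_zero)]; simp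
  rw [h4] at h3
  push_cast at h3
  linarith

theorem lc_uL : lc E (uL : Eˣ) = -1 := by
  obtain ⟨r, hr, h⟩ := eta_pow (E := E)
  have hr0 : (r : E) ≠ 0 := by
    intro h0
    have : r = 0 := RingOfIntegers.ext (by rw [h0]; rfl)
    rw [this, map_zero] at hr
    exact zero_ne_one hr
  have h1 : eta E ^ 7332 = (-1) * uL * Units.mk0 (r : E) hr0 := by
    ext
    have h2 := congrArg (fun t : 𝓞 E => (t : E)) h
    push_cast
    rw [coe_eta, ← cpow, h]
    have h7 : ((-(LL : 𝓞 E) * r : 𝓞 E) : E) = -(LL : E) * (r : E) := by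
      change algebraMap (𝓞 E) E (-(LL : 𝓞 E) * r) = _
      rw [map_mul, map_neg, map_natCast]
    rw [h7]
    simp [uL]
  have h3 := congrArg (lc E) h1
  rw [map_pow, lc_eta, one_pow, map_mul, map_mul] at h3
  have h4 : lc E (Units.mk0 (r : E) hr0) = 1 := by
    apply Units.ext
    rw [lc_int r (by rw [hr]; exact one_ne_zero) _ rfl, hr]; rfl
  have h5 : lc E (-1 : Eˣ) = -1 := by
    apply Units.ext
    rw [lc_int (-1 : 𝓞 E) (by rw [map_neg, map_one]; decide) _ rfl, map_neg, map_one]; rfl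
  rw [h4, h5, mul_one, neg_one_mul] at h3
  exact (neg_eq_iff_eq_neg.1 h3.symm)

end lead

section gal

variable (E : Type) [Field E] [NumberField E] [IsCyclotomicExtension {MM} ℚ E]

/-- the automorphism raising roots of unity to the power `a` -/
noncomputable def gg (a : (ZMod MM)ˣ) : E ≃ₐ[ℚ] E :=
  (IsCyclotomicExtension.Rat.galEquivZMod MM E).symm a

variable {E}

theorem gg_mul (a b : (ZMod MM)ˣ) : gg E (a * b) = gg E a * gg E b := map_mul _ _ _

theorem gg_one : gg E 1 = 1 := map_one _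

theorem gg_apply {x : E} (hx : x ^ MM = 1) (a : (ZMod MM)ˣ) : gg E a x = x ^ (a : ZMod MM).val := by
  have := IsCyclotomicExtension.Rat.galEquivZMod_apply_of_pow_eq MM E (gg E a) hx
  rw [this]
  unfold gg
  rw [MulEquiv.apply_symm_apply]

theorem gg_zt (a : (ZMod MM)ˣ) : gg E a (zt E) = zt E ^ (a : ZMod MM).val :=
  gg_apply (zt_spec E).pow_eq_one a

theorem gg_ztI (a : (ZMod MM)ˣ) : intEquiv (gg E a) (ztI E) = ztI E ^ (a : ZMod MM).val :=
  RingOfIntegers.ext (gg_zt a)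

theorem exists_gg (g : E ≃ₐ[ℚ] E) : ∃ a, g = gg E a :=
  ⟨IsCyclotomicExtension.Rat.galEquivZMod MM E g, by unfold gg; rw [MulEquiv.symm_apply_apply]⟩

/-- reduction modulo 12 -/
def m12 : (ZMod MM)ˣ →* (ZMod 12)ˣ := ZMod.unitsMap (by norm_num)
/-- reduction modulo 7333 -/
def mL : (ZMod MM)ˣ →* (ZMod LL)ˣ := ZMod.unitsMap (by norm_num)

theorem coe_m12 (a : (ZMod MM)ˣ) : ((m12 a : (ZMod 12)ˣ) : ZMod 12) = ((a : ZMod MM).val : ZMod 12) := by
  unfold m12
  rw [ZMod.unitsMap_val, ZMod.natCast_val]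

theorem coe_mL (a : (ZMod MM)ˣ) : ((mL a : (ZMod LL)ˣ) : ZMod LL) = ((a : ZMod MM).val : ZMod LL) := by
  unfold mL
  rw [ZMod.unitsMap_val, ZMod.natCast_val]

theorem rho_inert (a : (ZMod MM)ˣ) (ha : m12 a = 1) (x : 𝓞 E) :
    rho E (intEquiv (gg E a) x) = rho E x := by
  have h : ((rho E).comp (intEquiv (gg E a) : 𝓞 E →+* 𝓞 E)).toIntAlgHom = (rho E).toIntAlgHom := by
    apply AlgHom.ext_of_adjoin_eq_top (adjoin_ztI E)
    intro y hy
    rw [Set.mem_singleton_iff] at hy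
    subst hy
    change rho E (intEquiv (gg E a) (ztI E)) = rho E (ztI E)
    rw [gg_ztI, map_pow, rho_ztI]
    have h1 : ((a : ZMod MM).val : ZMod 12) = 1 := by rw [← coe_m12, ha]; rfl
    have h2 : (a : ZMod MM).val % 12 = 1 := by
      have := (ZMod.natCast_eq_natCast_iff' (a : ZMod MM).val 1 12).1 (by rw [h1]; rfl)
      simpa using this
    rw [← Nat.div_add_mod (a : ZMod MM).val 12, h2, pow_add, pow_mul, kappa_spec.pow_eq_one,
      one_pow, one_mul, pow_one]
  exact congrArg (fun t : 𝓞 E →ₐ[ℤ] ZMod LL => t x) h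

theorem inert_mem (a : (ZMod MM)ˣ) (ha : m12 a = 1) (x : 𝓞 E) :
    x ∈ (Wp E).asIdeal ↔ intEquiv (gg E a) x ∈ (Wp E).asIdeal := by
  rw [mem_Wp, mem_Wp, rho_inert a ha]

/-- the action on the unit group of the field -/
noncomputable abbrev ug (g : E ≃ₐ[ℚ] E) : Eˣ →* Eˣ := Units.map (g : E →* E)

omit [IsCyclotomicExtension {MM} ℚ E] in
theorem coe_ug (g : E ≃ₐ[ℚ] E) (x : Eˣ) : ((ug g x : Eˣ) : E) = g (x : E) := rfl

omit [IsCyclotomicExtension {MM} ℚ E] in
theorem ug_mul (g h : E ≃ₐ[ℚ] E) (x : Eˣ) : ug (g * h) x = ug g (ug h x) := by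
  ext; rfl

theorem ord_inert (a : (ZMod MM)ˣ) (ha : m12 a = 1) (x : Eˣ) :
    ord (wv E) (ug (gg E a) x) = ord (wv E) x :=
  ord_map (gg E a) (Wp E) (Wp E) (inert_mem a ha) x

theorem resF_inert (a : (ZMod MM)ˣ) (ha : m12 a = 1) (x : E) (hx : wv E x ≤ 1) :
    resF (gg E a x) = resF x := by
  obtain ⟨n, d, hd, h⟩ := exists_rep x hx
  rw [resF_eq hd h, resF_eq (n := intEquiv (gg E a) n) (d := intEquiv (gg E a) d)
    (by rw [rho_inert a ha]; exact hd) (by
      rw [coe_intEquiv, coe_intEquiv, ← map_mul, h]), rho_inert a ha, rho_inert a ha]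

theorem lc_inert_eta (a : (ZMod MM)ˣ) (_ha : m12 a = 1) : lc E (ug (gg E a) (eta E)) = mL a := by
  set n := (a : ZMod MM).val with hn
  set s : 𝓞 E := ∑ i ∈ Finset.range n, (ztI E ^ 12) ^ i with hs
  have hrs : rho E s = (n : ZMod LL) := by
    rw [hs, map_sum]
    have : ∀ i ∈ Finset.range n, rho E ((ztI E ^ 12) ^ i) = 1 := by
      intro i _
      rw [map_pow, map_pow, rho_ztI, kappa_spec.pow_eq_one, one_pow]
    rw [Finset.sum_congr rfl this]
    simp
  have hrs0 : rho E s ≠ 0 := by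
    rw [hrs, hn, ← coe_mL]
    exact (mL a).ne_zero
  have hs0 : (s : E) ≠ 0 := by
    intro h0
    have : s = 0 := RingOfIntegers.ext (by rw [h0]; rfl)
    rw [this, map_zero] at hrs0
    exact hrs0 rfl
  have h1 : ug (gg E a) (eta E) = eta E ^ (1 : ℤ) * Units.mk0 (s : E) hs0 := by
    ext
    rw [coe_ug, coe_eta', map_sub, map_one, map_pow, gg_zt, zpow_one, Units.val_mul,
      Units.val_mk0, coe_eta']
    have h2 : (s : E) = ∑ i ∈ Finset.range n, (zt E ^ 12) ^ i := by
      rw [hs]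
      have : (((∑ i ∈ Finset.range n, (ztI E ^ 12) ^ i : 𝓞 E)) : E) =
        algebraMap (𝓞 E) E (∑ i ∈ Finset.range n, (ztI E ^ 12) ^ i) := rfl
      rw [this, map_sum]
      rfl
    rw [h2, mul_neg_geom_sum, ← pow_mul, ← pow_mul, mul_comm]
  rw [lc_eq _ _ 1 h1]
  apply Units.ext
  rw [lc_int s hrs0 _ rfl, hrs, coe_mL]

/-- the inertia group acts on leading coefficients through the order -/
theorem lc_inert (a : (ZMod MM)ˣ) (ha : m12 a = 1) (x : Eˣ) :
    lc E (ug (gg E a) x) = lc E x * mL a ^ (ord (wv E) x) := by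
  set n := ord (wv E) x with hn
  set y := x * eta E ^ (-n) with hy
  have hx : x = y * eta E ^ n := by rw [hy, mul_assoc, ← zpow_add]; simp
  have hoy : ord (wv E) y = 0 := by rw [hy, hn]; exact ord_normalize x
  have h1 : lc E (ug (gg E a) y) = lc E y := by
    apply Units.ext
    rw [lc_of_ord_zero y hoy, lc_of_ord_zero _ (by rw [ord_inert a ha]; exact hoy), coe_ug,
      resF_inert a ha _ (wv_of_ord hoy).le]
  have h2 : lc E (ug (gg E a) x) = lc E y * mL a ^ n := by
    conv_lhs => rw [hx]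
    rw [map_mul, map_mul, h1, map_zpow, map_zpow, lc_inert_eta a ha]
  have h3 : lc E x = lc E y := by
    conv_lhs => rw [hx]
    rw [map_mul, map_zpow, lc_eta, one_zpow, mul_one]
  rw [h2, h3]

end gal

end Pool.Agent.TH834
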