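import Mathlib
import Pool.Agent.TH834.Lead
set_option autoImplicit false

/-!
The cubic character modulo `7333` and the homomorphism `psi` on `K_2`.
-/

namespace Pool.Agent.TH834

open NumberField IsDedekindDomain HeightOneSpectrum WithZero Pool.Agent.W367.KT Polynomial

/-- a primitive cube root of unity modulo `7333` -/
abbrev w0 : ZMod LL := 4270

theorem w0_mul (n m : ZMod 3) : w0 ^ n.val * w0 ^ m.val = w0 ^ (n + m).val := by
  revert n m; decide

theorem w0_inj (n m : ZMod 3) (h : w0 ^ n.val = w0 ^ m.val) : n = m := by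
  revert n m; decide

theorem exists_lam (x : (ZMod LL)ˣ) : ∃ n : ZMod 3, (x : ZMod LL) ^ 2444 = w0 ^ n.val := by
  have h1 : ((x : ZMod LL) ^ 2444) ^ 3 = 1 := by
    rw [← pow_mul]
    exact ZMod.pow_card_sub_one_eq_one x.ne_zero
  have h2 : ((x : ZMod LL) ^ 2444 - 1) * (((x : ZMod LL) ^ 2444 - w0) *
      ((x : ZMod LL) ^ 2444 - w0 ^ 2)) = 0 := by
    have hw : w0 ^ 2 = - w0 - 1 := by decide
    have hw3 : w0 * w0 ^ 2 = 1 := by decide
    generalize (x : ZMod LL) ^ 2444 = t at h1 ⊢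
    have : (t - 1) * ((t - w0) * (t - w0 ^ 2)) = (t - 1) * (t ^ 2 - (w0 + w0 ^ 2) * t + w0 * w0 ^ 2) := by
      ring
    rw [this, hw3, hw]
    linear_combination h1
  rcases mul_eq_zero.1 h2 with h | h
  · exact ⟨0, by rw [sub_eq_zero.1 h]; rfl⟩
  rcases mul_eq_zero.1 h with h | h
  · exact ⟨1, by rw [sub_eq_zero.1 h]; decide⟩
  · exact ⟨2, by rw [sub_eq_zero.1 h]; decide⟩

/-- the cubic residue symbol with values in `ZMod 3` -/
noncomputable def lam (x : (ZMod LL)ˣ) : ZMod 3 := (exists_lam x).choose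

theorem lam_spec (x : (ZMod LL)ˣ) : (x : ZMod LL) ^ 2444 = w0 ^ (lam x).val :=
  (exists_lam x).choose_spec

theorem lam_eq (x : (ZMod LL)ˣ) (n : ZMod 3) (h : (x : ZMod LL) ^ 2444 = w0 ^ n.val) :
    lam x = n := w0_inj _ _ (by rw [← lam_spec, h])

theorem lam_mul (x y : (ZMod LL)ˣ) : lam (x * y) = lam x + lam y := by
  apply lam_eq
  rw [Units.val_mul, mul_pow, lam_spec, lam_spec, w0_mul]

theorem lam_one : lam 1 = 0 := lam_eq _ _ (by rw [Units.val_one, one_pow]; rfl)

theorem lam_inv (x : (ZMod LL)ˣ) : lam x⁻¹ = - lam x := by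
  have h := lam_mul x x⁻¹
  rw [mul_inv_cancel, lam_one] at h
  linear_combination -h

theorem lam_pow (x : (ZMod LL)ˣ) (n : ℕ) : lam (x ^ n) = n * lam x := by
  induction n with
  | zero => simp [lam_one]
  | succ n ih => rw [pow_succ, lam_mul, ih]; push_cast; ring

theorem lam_zpow (x : (ZMod LL)ˣ) (n : ℤ) : lam (x ^ n) = n * lam x := by
  cases n with
  | ofNat n => simpa using lam_pow x n
  | negSucc n => rw [zpow_negSucc, lam_inv, lam_pow, Int.negSucc_eq]; push_cast; ring

theorem lam_neg_one : lam (-1) = 0 := lam_eq _ _ (by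
  rw [Units.val_neg, Units.val_one, Even.neg_one_pow (by decide)]; rfl)

theorem lam_neg (x : (ZMod LL)ˣ) : lam (-x) = lam x := by
  rw [← neg_one_mul, lam_mul, lam_neg_one, zero_add]

/-- the primitive root `6` modulo `7333` -/
def six : (ZMod LL)ˣ := ⟨6, 6111, by decide, by decide⟩

theorem pow_eval (a n b : ℕ) (h : a ^ n % 7333 = b % 7333) : (a : ZMod LL) ^ n = (b : ZMod LL) := by
  have := (ZMod.natCast_eq_natCast_iff' (a ^ n) b LL).2 h
  rw [← this]; push_cast; rfl

theorem lam_six : lam six = 1 := by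
  apply lam_eq
  have h := pow_eval 6 2444 4270 (by decide +kernel)
  have h6 : (six : ZMod LL) = ((6 : ℕ) : ZMod LL) := rfl
  rw [h6, h]
  rfl

/-- a cube has trivial symbol -/
theorem lam_of_cube (x : (ZMod LL)ˣ) (y : ZMod LL) (h : y ^ 3 = (x : ZMod LL)) : lam x = 0 := by
  apply lam_eq
  have hy : y ≠ 0 := by
    rintro rfl
    rw [zero_pow (by norm_num)] at h
    exact x.ne_zero h.symm
  rw [← h, ← pow_mul, show 3 * 2444 = LL - 1 by norm_num, ZMod.pow_card_sub_one_eq_one hy]
  rfl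

theorem orderOf_six : orderOf six = 7332 := by
  have h6 : (six : ZMod LL) = ((6 : ℕ) : ZMod LL) := rfl
  apply orderOf_eq_of_pow_and_pow_div_prime (by norm_num)
  · apply Units.ext
    rw [Units.val_pow_eq_pow_val, h6, pow_eval 6 7332 1 (by decide +kernel)]
    rfl
  · intro p hp hd
    have hd' : p ∣ 2 * 2 * (3 * (13 * 47)) := by simpa using hd
    have hp' : p = 2 ∨ p = 3 ∨ p = 13 ∨ p = 47 := by
      rcases (Nat.Prime.dvd_mul hp).1 hd' with h | h
      · rcases (Nat.Prime.dvd_mul hp).1 h with h | h <;>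
        exact Or.inl ((Nat.prime_dvd_prime_iff_eq hp Nat.prime_two).1 h)
      rcases (Nat.Prime.dvd_mul hp).1 h with h | h
      · exact Or.inr (Or.inl ((Nat.prime_dvd_prime_iff_eq hp Nat.prime_three).1 h))
      rcases (Nat.Prime.dvd_mul hp).1 h with h | h
      · exact Or.inr (Or.inr (Or.inl ((Nat.prime_dvd_prime_iff_eq hp (by norm_num)).1 h)))
      · exact Or.inr (Or.inr (Or.inr ((Nat.prime_dvd_prime_iff_eq hp (by norm_num)).1 h)))
    have hne : ∀ n b : ℕ, 6 ^ n % 7333 = b % 7333 → ((b : ℕ) : ZMod LL) ≠ 1 → six ^ n ≠ 1 := by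
      intro n b h1 h2 h3
      apply h2
      rw [← pow_eval 6 n b h1, ← h6, ← Units.val_pow_eq_pow_val, h3, Units.val_one]
    rcases hp' with rfl | rfl | rfl | rfl
    · exact hne _ 7332 (by decide +kernel) (by decide)
    · exact hne _ 4270 (by decide +kernel) (by decide)
    · exact hne _ 1219 (by decide +kernel) (by decide)
    · exact hne _ 4682 (by decide +kernel) (by decide)

theorem exists_six_pow (x : (ZMod LL)ˣ) : ∃ n : ℕ, x = six ^ n := by
  have hcard : Nat.card (ZMod LL)ˣ = 7332 := by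
    rw [Nat.card_eq_fintype_card, ZMod.card_units]; norm_num
  have h2 : x ∈ Submonoid.powers six := by
    have h3 := mem_powers_iff_mem_zpowers (x := six) (y := x)
    rw [h3]
    have h1 : Subgroup.zpowers six = ⊤ := by
      apply Subgroup.eq_top_of_card_eq
      rw [Nat.card_zpowers, orderOf_six, hcard]
    rw [h1]; trivial
  obtain ⟨n, hn⟩ := h2
  exact ⟨n, hn.symm⟩

end Pool.Agent.TH834
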