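import Mathlib
import Pool.Agent.TH834.Lam
import Pool.Agent.TH834.Defs
set_option autoImplicit false

/-!
The homomorphism `psi : K_2 (E) → ZMod 3`.
-/

namespace Pool.Agent.TH834

open NumberField IsDedekindDomain HeightOneSpectrum WithZero Pool.Agent.W367.KT Polynomial

section psi

variable {E : Type} [Field E] [NumberField E] [IsCyclotomicExtension {MM} ℚ E]

/-- the cubic character of the leading coefficient -/
noncomputable def cc (x : Eˣ) : ZMod 3 := lam (lc E x)
/-- the order modulo 3 -/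
noncomputable def aa (x : Eˣ) : ZMod 3 := (ord (wv E) x : ZMod 3)

theorem cc_mul (x y : Eˣ) : cc (x * y) = cc x + cc y := by unfold cc; rw [map_mul, lam_mul]
theorem aa_mul (x y : Eˣ) : aa (x * y) = aa x + aa y := by unfold aa; rw [ord_mul]; push_cast; rfl
theorem cc_one : cc (1 : Eˣ) = 0 := by unfold cc; rw [map_one, lam_one]
theorem aa_one : aa (1 : Eˣ) = 0 := by unfold aa; rw [ord_one]; rfl
theorem cc_inv (x : Eˣ) : cc x⁻¹ = - cc x := by unfold cc; rw [map_inv, lam_inv]
theorem aa_inv (x : Eˣ) : aa x⁻¹ = - aa x := by unfold aa; rw [ord_inv]; push_cast; rfl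
theorem cc_pow (x : Eˣ) (n : ℕ) : cc (x ^ n) = n * cc x := by unfold cc; rw [map_pow, lam_pow]
theorem aa_pow (x : Eˣ) (n : ℕ) : aa (x ^ n) = n * aa x := by
  unfold aa; rw [ord_pow]; push_cast; rfl
theorem cc_zpow (x : Eˣ) (n : ℤ) : cc (x ^ n) = n * cc x := by
  unfold cc; rw [map_zpow, lam_zpow]
theorem aa_zpow (x : Eˣ) (n : ℤ) : aa (x ^ n) = n * aa x := by
  unfold aa; rw [ord_zpow]; push_cast; rfl
theorem cc_neg_one : cc (-1 : Eˣ) = 0 := by
  have h : cc (-1 : Eˣ) + cc (-1 : Eˣ) = 0 := by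
    rw [← cc_mul, neg_mul_neg, one_mul, cc_one]
  generalize cc (-1 : Eˣ) = t at h
  revert t; decide
theorem aa_neg_one : aa (-1 : Eˣ) = 0 := by unfold aa; rw [ord_neg, ord_one]; rfl
theorem cc_neg (x : Eˣ) : cc (-x) = cc x := by rw [← neg_one_mul, cc_mul, cc_neg_one, zero_add]

/-- the tame symbol composed with the cubic character -/
noncomputable def phi (x y : Eˣ) : ZMod 3 := aa y * cc x - aa x * cc y

theorem phi_swap (x y : Eˣ) : phi y x = - phi x y := by unfold phi; ring

theorem cc_one_sub (x y : Eˣ) (h : 0 < ord (wv E) x) (hxy : (x : E) + y = 1) :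
    aa y = 0 ∧ cc y = 0 := by
  have hx : wv E (x : E) < 1 := by
    rw [val_eq, ← WithZero.exp_zero, WithZero.exp_lt_exp]; omega
  have hy : (y : E) = 1 + (-x) := by rw [← hxy]; ring
  have hvx : wv E (-(x : E)) < 1 := by rw [Valuation.map_neg]; exact hx
  have hvy : wv E (y : E) = 1 := by
    rw [hy]; exact (wv E).map_one_add_of_lt hvx
  have ho : ord (wv E) y = 0 := by rw [ord_eq_iff, hvy]; simp
  refine ⟨by unfold aa; rw [ho]; rfl, ?_⟩
  have h1 : lc E y = 1 := by
    apply Units.ext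
    rw [lc_of_ord_zero y ho, hy, resF_one_add hvx]; rfl
  unfold cc; rw [h1, lam_one]

theorem phi_steinberg_neg (x y : Eˣ) (h : ord (wv E) x < 0) (hxy : (x : E) + y = 1) :
    phi x y = 0 := by
  -- 1/x + (-y/x)... : x⁻¹ + (-(y * x⁻¹)) = ...
  have hx0 : (x : E) ≠ 0 := x.ne_zero
  have h1 : ((x⁻¹ : Eˣ) : E) + ((-(y * x⁻¹) : Eˣ) : E) = 1 := by
    push_cast
    have : (y : E) = 1 - x := by rw [← hxy]; ring
    rw [this]; field_simp; ring
  have h2 : 0 < ord (wv E) x⁻¹ := by rw [ord_inv]; omega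
  obtain ⟨ha, hc⟩ := cc_one_sub _ _ h2 h1
  have hc' : cc y = cc x := by
    rw [cc_neg, cc_mul, cc_inv] at hc
    linear_combination hc
  have ha' : aa y = aa x := by
    rw [← neg_one_mul, aa_mul, aa_mul, aa_inv, aa_neg_one] at ha
    linear_combination ha
  unfold phi; rw [hc', ha']; ring

theorem phi_steinberg (x y : Eˣ) (hxy : (x : E) + y = 1) : phi x y = 0 := by
  have hyx : (y : E) + x = 1 := by rw [add_comm]; exact hxy
  rcases lt_trichotomy (ord (wv E) x) 0 with h | h | h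
  · exact phi_steinberg_neg x y h hxy
  · rcases lt_trichotomy (ord (wv E) y) 0 with h' | h' | h'
    · have := phi_steinberg_neg y x h' hyx
      rw [phi_swap, neg_eq_zero] at this
      exact this
    · unfold phi aa; rw [h, h']; simp
    · obtain ⟨ha, hc⟩ := cc_one_sub y x h' hyx
      unfold phi; rw [ha, hc]; ring
  · obtain ⟨ha, hc⟩ := cc_one_sub x y h hxy
    unfold phi; rw [ha, hc]; ring

variable (E)

/-- `phi` as a homomorphism on `K_2` -/
noncomputable def phiK : K2 E →+ ZMod 3 :=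
  K2lift (fun x y => phi x y) (fun a b c => by unfold phi; rw [cc_mul, aa_mul]; ring)
    (fun a b c => by unfold phi; rw [cc_mul, aa_mul]; ring) phi_steinberg

variable {E}

theorem phiK_symb (x y : Eˣ) : phiK E (symb x y) = phi x y := rfl

/-- the automorphism `5` modulo 12 and `1` modulo 7333 -/
def d5 : (ZMod MM)ˣ := ⟨29333, 29333, by decide, by decide⟩
/-- the automorphism `7` modulo 12 and `1` modulo 7333 -/
def d7 : (ZMod MM)ˣ := ⟨43999, 43999, by decide, by decide⟩

theorem d5_sq : d5 * d5 = 1 := Units.ext (by decide)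
theorem d7_sq : d7 * d7 = 1 := Units.ext (by decide)
theorem d57_comm : d5 * d7 = d7 * d5 := mul_comm _ _

/-- the action of `(ZMod MM)ˣ` on `K_2 (E)` -/
noncomputable def actK (a : (ZMod MM)ˣ) : K2 E →+ K2 E := K2map (gg E a : E →+* E)

theorem actK_symb (a : (ZMod MM)ˣ) (x y : Eˣ) :
    actK a (symb x y) = symb (ug (gg E a) x) (ug (gg E a) y) := rfl

theorem actK_mul (a b : (ZMod MM)ˣ) (z : K2 E) : actK (a * b) z = actK a (actK b z) := by
  unfold actK
  rw [K2map_comp, gg_mul]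
  rfl

theorem actK_one (z : K2 E) : actK (1 : (ZMod MM)ˣ) z = z := by
  have : actK (1 : (ZMod MM)ˣ) = AddMonoidHom.id (K2 E) := by
    apply K2_hom_ext
    intro a b
    rw [actK_symb, gg_one]
    rfl
  rw [this]; rfl

theorem phiK_inert (a : (ZMod MM)ˣ) (ha : m12 a = 1) (z : K2 E) : phiK E (actK a z) = phiK E z := by
  have : (phiK E).comp (actK a) = phiK E := by
    apply K2_hom_ext
    intro x y
    change phiK E (actK a (symb x y)) = phiK E (symb x y)
    rw [actK_symb, phiK_symb, phiK_symb]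
    unfold phi aa cc
    rw [ord_inert a ha, ord_inert a ha, lc_inert a ha, lc_inert a ha, lam_mul, lam_mul, lam_zpow,
      lam_zpow]
    ring
  exact DFunLike.congr_fun this z

variable (E)

/-- the projection of `phiK` to the quadratic character of conductor 12 -/
noncomputable def psi : K2 E →+ ZMod 3 :=
  phiK E - (phiK E).comp (actK d5) - (phiK E).comp (actK d7) + (phiK E).comp (actK (d5 * d7))

variable {E}

theorem psi_apply (z : K2 E) : psi E z =
    phiK E z - phiK E (actK d5 z) - phiK E (actK d7 z) + phiK E (actK (d5 * d7) z) := rfl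

theorem psi_d5 (z : K2 E) : psi E (actK d5 z) = - psi E z := by
  rw [psi_apply, psi_apply, ← actK_mul, ← actK_mul, ← actK_mul, d5_sq, actK_one,
    ← d57_comm, show d5 * d7 * d5 = d7 * (d5 * d5) by rw [d57_comm, mul_assoc], d5_sq, mul_one]
  ring

theorem psi_d7 (z : K2 E) : psi E (actK d7 z) = - psi E z := by
  rw [psi_apply, psi_apply, ← actK_mul, ← actK_mul, ← actK_mul, d7_sq, actK_one,
    mul_assoc, d7_sq, mul_one]
  ring

theorem psi_inert (a : (ZMod MM)ˣ) (ha : m12 a = 1) (z : K2 E) : psi E (actK a z) = psi E z := by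
  rw [psi_apply, psi_apply, ← actK_mul, ← actK_mul, ← actK_mul, mul_comm d5 a, mul_comm d7 a,
    mul_comm (d5 * d7) a, actK_mul, actK_mul, actK_mul, phiK_inert a ha, phiK_inert a ha,
    phiK_inert a ha, phiK_inert a ha]

theorem m12_d5 : m12 d5 = ZMod.unitOfCoprime 5 (by norm_num) := by
  apply Units.ext
  rw [coe_m12]; decide
theorem m12_d7 : m12 d7 = ZMod.unitOfCoprime 7 (by norm_num) := by
  apply Units.ext
  rw [coe_m12]; decide
theorem mL_d5 : mL d5 = 1 := by
  apply Units.ext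
  rw [coe_mL]; decide
theorem mL_d7 : mL d7 = 1 := by
  apply Units.ext
  rw [coe_mL]; decide

/-- every class is a product of `1, d5, d7, d5 * d7` and an element of the inertia group -/
theorem exists_decomp (a : (ZMod MM)ˣ) : ∃ h : (ZMod MM)ˣ, m12 h = 1 ∧
    (a = h ∨ a = d5 * h ∨ a = d7 * h ∨ a = d5 * d7 * h) := by
  have h12 : ∀ u : (ZMod 12)ˣ, u = 1 ∨ u = ZMod.unitOfCoprime 5 (by norm_num) ∨
      u = ZMod.unitOfCoprime 7 (by norm_num) ∨
      u = ZMod.unitOfCoprime 5 (by norm_num) * ZMod.unitOfCoprime 7 (by norm_num) := by decide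
  have hs5 : ∀ b : (ZMod MM)ˣ, d5 * (d5 * b) = b := fun b => by rw [← mul_assoc, d5_sq, one_mul]
  have hs7 : ∀ b : (ZMod MM)ˣ, d7 * (d7 * b) = b := fun b => by rw [← mul_assoc, d7_sq, one_mul]
  have e5 : m12 d5 * m12 d5 = 1 := by rw [← map_mul, d5_sq, map_one]
  have e7 : m12 d7 * m12 d7 = 1 := by rw [← map_mul, d7_sq, map_one]
  rcases h12 (m12 a) with h | h | h | h
  · exact ⟨a, h, Or.inl rfl⟩
  · refine ⟨d5 * a, ?_, Or.inr (Or.inl (hs5 a).symm)⟩
    rw [map_mul, h, ← m12_d5, e5]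
  · refine ⟨d7 * a, ?_, Or.inr (Or.inr (Or.inl (hs7 a).symm))⟩
    rw [map_mul, h, ← m12_d7, e7]
  · refine ⟨d7 * (d5 * a), ?_, Or.inr (Or.inr (Or.inr ?_))⟩
    · rw [map_mul, map_mul, h, ← m12_d5, ← m12_d7, ← mul_assoc (m12 d5), e5, one_mul, e7]
    · rw [mul_assoc, hs7, hs5]

end psi

end Pool.Agent.TH834
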