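import Mathlib
import Pool.Agent.TH834.Psi
set_option autoImplicit false

/-!
`S`-units and the valuations at the primes above 2, 3 and 7333.
-/

namespace Pool.Agent.TH834

open NumberField IsDedekindDomain HeightOneSpectrum WithZero Pool.Agent.W367.KT Polynomial

section su

variable {E : Type} [Field E] [NumberField E] [IsCyclotomicExtension {MM} ℚ E]

omit [IsCyclotomicExtension {MM} ℚ E] in
/-- the pullback of a prime under an automorphism -/
theorem exists_pull (g : E ≃ₐ[ℚ] E) (Q : HeightOneSpectrum (𝓞 E)) :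
    ∃ P : HeightOneSpectrum (𝓞 E), ∀ x : 𝓞 E, x ∈ P.asIdeal ↔ intEquiv g x ∈ Q.asIdeal := by
  refine ⟨⟨Q.asIdeal.comap (intEquiv g : 𝓞 E →+* 𝓞 E), Ideal.comap_isPrime _ _, ?_⟩, fun x => Iff.rfl⟩
  intro h
  apply Q.ne_bot
  rw [eq_bot_iff]
  intro y hy
  obtain ⟨x, rfl⟩ := (intEquiv g).surjective y
  have : x ∈ Q.asIdeal.comap (intEquiv g : 𝓞 E →+* 𝓞 E) := hy
  rw [h, Ideal.mem_bot] at this
  rw [this, map_zero]
  exact Submodule.zero_mem _

theorem exists_gal_Wp (P : HeightOneSpectrum (𝓞 E)) (h : (LL : 𝓞 E) ∈ P.asIdeal) :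
    ∃ a : (ZMod MM)ˣ, ∀ x : 𝓞 E, x ∈ (Wp E).asIdeal ↔ intEquiv (gg E a) x ∈ P.asIdeal := by
  have key : ∀ Q : HeightOneSpectrum (𝓞 E), (LL : 𝓞 E) ∈ Q.asIdeal →
      Q.asIdeal.under ℤ = Ideal.span {(LL : ℤ)} := by
    intro Q hQ
    have hmax : (Ideal.span {(LL : ℤ)}).IsMaximal :=
      (Ideal.span_singleton_prime (by norm_num)).2
        (Nat.prime_iff_prime_int.1 factLL.out) |>.isMaximal (by simp)
    symm
    apply hmax.eq_of_le
    · exact Ideal.IsPrime.ne_top (Ideal.comap_isPrime _ _)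
    · rw [Ideal.span_singleton_le_iff_mem, Ideal.mem_comap]
      simpa using hQ
  have hgal : IsGalois ℚ E := IsCyclotomicExtension.isGalois {MM} ℚ E
  have l1 : (Wp E).asIdeal.LiesOver (Ideal.span {(LL : ℤ)}) := ⟨(key _ LL_mem_Wp).symm⟩
  have l2 : P.asIdeal.LiesOver (Ideal.span {(LL : ℤ)}) := ⟨(key _ h).symm⟩
  obtain ⟨g, hg⟩ := Ideal.exists_smul_eq_of_isGaloisGroup (Ideal.span {(LL : ℤ)})
    (Wp E).asIdeal P.asIdeal (E ≃ₐ[ℚ] E)
  obtain ⟨a, rfl⟩ := exists_gg g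
  refine ⟨a, fun x => ?_⟩
  rw [← hg, Ideal.mem_pointwise_smul_iff_inv_smul_mem]
  have : (gg E a)⁻¹ • (intEquiv (gg E a) x) = x := by
    rw [inv_smul_eq_iff]
    rfl
  rw [this]

/-- `S`-units: the valuations away from `MM` vanish -/
def SU (x : Eˣ) : Prop :=
  ∀ P : HeightOneSpectrum (𝓞 E), (MM : 𝓞 E) ∉ P.asIdeal → ord (P.valuation E) x = 0

omit [IsCyclotomicExtension {MM} ℚ E] in
theorem SU.mul {x y : Eˣ} (hx : SU x) (hy : SU y) : SU (x * y) := fun P hP => by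
  rw [ord_mul, hx P hP, hy P hP, add_zero]

omit [IsCyclotomicExtension {MM} ℚ E] in
theorem SU.inv {x : Eˣ} (hx : SU x) : SU x⁻¹ := fun P hP => by
  rw [ord_inv, hx P hP, neg_zero]

omit [IsCyclotomicExtension {MM} ℚ E] in
theorem SU.ug {x : Eˣ} (hx : SU x) (g : E ≃ₐ[ℚ] E) : SU (ug g x) := fun Q hQ => by
  obtain ⟨P, hP⟩ := exists_pull g Q
  rw [ord_map g P Q hP]
  apply hx
  intro h
  apply hQ
  have := (hP _).1 h
  rwa [map_natCast] at this

variable (E)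

theorem ztI_pow_half : ztI E ^ 43998 = -1 := by
  have h2 : (ztI E ^ 43998 - 1) * (ztI E ^ 43998 + 1) = 0 := by
    have : (ztI E ^ 43998) ^ 2 = 1 := by
      rw [← pow_mul]; exact (ztI_spec E).pow_eq_one
    linear_combination this
  rcases mul_eq_zero.1 h2 with h3 | h3
  · exfalso
    have := (ztI_spec E).dvd_of_pow_eq_one 43998 (sub_eq_zero.1 h3)
    norm_num at this
  · exact eq_neg_of_add_eq_zero_left h3

/-- the cube root of unity -/
noncomputable def omI : 𝓞 E := ztI E ^ 29332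

theorem omI_eq : omI E ^ 2 + omI E + 1 = 0 := by
  have h2 : (omI E - 1) * (omI E ^ 2 + omI E + 1) = 0 := by
    have : omI E ^ 3 = 1 := by
      unfold omI
      rw [← pow_mul]; exact (ztI_spec E).pow_eq_one
    linear_combination this
  rcases mul_eq_zero.1 h2 with h3 | h3
  · exfalso
    have := (ztI_spec E).dvd_of_pow_eq_one 29332 (sub_eq_zero.1 h3)
    norm_num at this
  · exact h3

variable {E}

theorem frob_two (P : HeightOneSpectrum (𝓞 E)) (h : (2 : 𝓞 E) ∈ P.asIdeal) :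
    intEquiv (gg E d7) (ztI E) - ztI E ^ (2 ^ 0) ∈ P.asIdeal := by
  rw [gg_ztI]
  have h2 : (d7 : ZMod MM).val = 43998 + 1 := rfl
  rw [h2, pow_succ, ztI_pow_half, pow_zero, pow_one]
  have : (-1 : 𝓞 E) * ztI E - ztI E = 2 * (- ztI E) := by ring
  rw [this]
  exact Ideal.mul_mem_right _ _ h

theorem om_sub_mem (P : HeightOneSpectrum (𝓞 E)) (h : (3 : 𝓞 E) ∈ P.asIdeal) :
    omI E - 1 ∈ P.asIdeal := by
  have h1 : (omI E - 1) ^ 2 ∈ P.asIdeal := by
    have : (omI E - 1) ^ 2 = 3 * (- omI E) := by linear_combination omI_eq E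
    rw [this]
    exact Ideal.mul_mem_right _ _ h
  exact P.isPrime.mem_of_pow_mem _ h1

theorem frob_three (P : HeightOneSpectrum (𝓞 E)) (h : (3 : 𝓞 E) ∈ P.asIdeal) :
    intEquiv (gg E d5) (ztI E) - ztI E ^ (3 ^ 0) ∈ P.asIdeal := by
  rw [gg_ztI]
  have h2 : (d5 : ZMod MM).val = 29332 + 1 := rfl
  rw [h2, pow_succ, pow_zero, pow_one]
  have : ztI E ^ 29332 * ztI E - ztI E = (omI E - 1) * (ztI E) := by unfold omI; ring
  rw [this]
  exact Ideal.mul_mem_right _ _ (om_sub_mem P h)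

/-- the class that is `7` modulo 12 and `27` modulo 7333 -/
def e7 : (ZMod MM)ˣ := ⟨29359, 38023, by decide, by decide⟩

theorem frob_three' (P : HeightOneSpectrum (𝓞 E)) (h : (3 : 𝓞 E) ∈ P.asIdeal) :
    intEquiv (gg E e7) (ztI E) - ztI E ^ (3 ^ 3) ∈ P.asIdeal := by
  rw [gg_ztI]
  have h2 : (e7 : ZMod MM).val = 29332 + 27 := rfl
  rw [h2, pow_add]
  have : ztI E ^ 29332 * ztI E ^ 27 - ztI E ^ (3 ^ 3) = (omI E - 1) * (ztI E ^ 27) := by
    unfold omI; ring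
  rw [this]
  exact Ideal.mul_mem_right _ _ (om_sub_mem P h)

/-- the generator of the inertia group: `1` modulo 12 and `6` modulo 7333 -/
def sg : (ZMod MM)ˣ := ⟨51337, 79441, by decide, by decide⟩

theorem root_sub_mem (P : HeightOneSpectrum (𝓞 E)) (h : (LL : 𝓞 E) ∈ P.asIdeal) (x : 𝓞 E)
    (hx : x ^ LL = 1) : x - 1 ∈ P.asIdeal := by
  have hc : CharP (𝓞 E ⧸ P.asIdeal) LL := by
    rw [CharP.charP_iff_prime_eq_zero factLL.out]
    have := Ideal.Quotient.eq_zero_iff_mem.2 h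
    rw [map_natCast] at this
    exact this
  rw [← Ideal.Quotient.eq_zero_iff_mem, map_sub, map_one]
  have h1 : (Ideal.Quotient.mk P.asIdeal x - 1) ^ LL = 0 := by
    rw [sub_pow_char, one_pow, ← map_pow, hx, map_one, sub_self]
  have : P.asIdeal.IsPrime := P.isPrime
  exact pow_eq_zero_iff (by norm_num) |>.1 h1

theorem frob_LL (P : HeightOneSpectrum (𝓞 E)) (h : (LL : 𝓞 E) ∈ P.asIdeal) :
    intEquiv (gg E sg) (ztI E) - ztI E ^ (LL ^ 0) ∈ P.asIdeal := by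
  rw [gg_ztI]
  have h2 : (sg : ZMod MM).val = 51336 + 1 := rfl
  rw [h2, pow_succ, pow_zero, pow_one]
  have : ztI E ^ 51336 * ztI E - ztI E = (ztI E ^ 51336 - 1) * (ztI E) := by ring
  rw [this]
  apply Ideal.mul_mem_right
  apply root_sub_mem P h
  rw [← pow_mul, show 51336 * LL = MM * 4278 by norm_num, pow_mul, (ztI_spec E).pow_eq_one, one_pow]

theorem ord_two (P : HeightOneSpectrum (𝓞 E)) (h : (2 : 𝓞 E) ∈ P.asIdeal) (x : Eˣ) :
    ord (P.valuation E) (ug (gg E d7) x) = ord (P.valuation E) x :=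
  ord_frob P 2 0 Nat.prime_two (by exact_mod_cast h) _ (frob_two P h) x

theorem ord_three (P : HeightOneSpectrum (𝓞 E)) (h : (3 : 𝓞 E) ∈ P.asIdeal) (x : Eˣ) :
    ord (P.valuation E) (ug (gg E d5) x) = ord (P.valuation E) x :=
  ord_frob P 3 0 Nat.prime_three (by exact_mod_cast h) _ (frob_three P h) x

theorem ord_three' (P : HeightOneSpectrum (𝓞 E)) (h : (3 : 𝓞 E) ∈ P.asIdeal) (x : Eˣ) :
    ord (P.valuation E) (ug (gg E e7) x) = ord (P.valuation E) x :=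
  ord_frob P 3 3 Nat.prime_three (by exact_mod_cast h) _ (frob_three' P h) x

theorem ord_sg (P : HeightOneSpectrum (𝓞 E)) (h : (LL : 𝓞 E) ∈ P.asIdeal) (x : Eˣ) :
    ord (P.valuation E) (ug (gg E sg) x) = ord (P.valuation E) x :=
  ord_frob P LL 0 factLL.out h _ (frob_LL P h) x

theorem prime_cases (P : HeightOneSpectrum (𝓞 E)) (h : (MM : 𝓞 E) ∈ P.asIdeal) :
    (2 : 𝓞 E) ∈ P.asIdeal ∨ (3 : 𝓞 E) ∈ P.asIdeal ∨ (LL : 𝓞 E) ∈ P.asIdeal := by
  have h1 : (2 : 𝓞 E) * (2 * (3 * (LL : 𝓞 E))) ∈ P.asIdeal := by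
    have : (2 : 𝓞 E) * (2 * (3 * (LL : 𝓞 E))) = (MM : 𝓞 E) := by norm_num
    rw [this]; exact h
  rcases P.isPrime.mem_or_mem h1 with h2 | h2
  · exact Or.inl h2
  rcases P.isPrime.mem_or_mem h2 with h2 | h2
  · exact Or.inl h2
  rcases P.isPrime.mem_or_mem h2 with h2 | h2
  · exact Or.inr (Or.inl h2)
  · exact Or.inr (Or.inr h2)

theorem m12_sg : m12 sg = 1 := by
  apply Units.ext
  rw [coe_m12]; decide
theorem mL_sg : mL sg = six := by
  apply Units.ext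
  rw [coe_mL]; decide

/-- the classes modulo 12 and modulo 7333 determine the class -/
theorem eq_one_of_m12_mL (a : (ZMod MM)ˣ) (h1 : m12 a = 1) (h2 : mL a = 1) : a = 1 := by
  have e1 : (a : ZMod MM).val % 12 = 1 := by
    have h : ((a : ZMod MM).val : ZMod 12) = ((1 : ℕ) : ZMod 12) := by rw [← coe_m12, h1]; rfl
    simpa using (ZMod.natCast_eq_natCast_iff' _ _ 12).1 h
  have e2 : (a : ZMod MM).val % 7333 = 1 := by
    have h : ((a : ZMod MM).val : ZMod LL) = ((1 : ℕ) : ZMod LL) := by rw [← coe_mL, h2]; rfl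
    simpa using (ZMod.natCast_eq_natCast_iff' _ _ LL).1 h
  have e3 : (a : ZMod MM).val < 87996 := ZMod.val_lt _
  apply Units.ext
  have e4 : (a : ZMod MM).val = 1 := by omega
  rw [Units.val_one, ← ZMod.natCast_zmod_val (a : ZMod MM), e4, Nat.cast_one]

/-- the inertia group is generated by `sg` -/
theorem exists_sg_pow (a : (ZMod MM)ˣ) (h1 : m12 a = 1) : ∃ n : ℕ, a = sg ^ n := by
  obtain ⟨n, hn⟩ := exists_six_pow (mL a)
  refine ⟨n, ?_⟩
  rw [← mul_inv_eq_one]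
  apply eq_one_of_m12_mL
  · rw [map_mul, map_inv, map_pow, m12_sg, h1, one_pow, inv_one, mul_one]
  · rw [map_mul, map_inv, map_pow, mL_sg, hn, mul_inv_cancel]

end su

end Pool.Agent.TH834
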