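import Mathlib
import Pool.Agent.TH834.SU
set_option autoImplicit false

/-!
Units whose conjugates all have absolute value one.
-/

namespace Pool.Agent.TH834

open NumberField IsDedekindDomain HeightOneSpectrum WithZero Pool.Agent.W367.KT Polynomial

section tor

variable {E : Type} [Field E] [NumberField E] [IsCyclotomicExtension {MM} ℚ E]

/-- elements with trivial valuations -/
def IU (x : Eˣ) : Prop := ∀ P : HeightOneSpectrum (𝓞 E), ord (P.valuation E) x = 0

omit [IsCyclotomicExtension {MM} ℚ E] in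
theorem IU.mul {x y : Eˣ} (hx : IU x) (hy : IU y) : IU (x * y) := fun P => by
  rw [ord_mul, hx P, hy P, add_zero]

omit [IsCyclotomicExtension {MM} ℚ E] in
theorem IU.inv {x : Eˣ} (hx : IU x) : IU x⁻¹ := fun P => by
  rw [ord_inv, hx P, neg_zero]

omit [IsCyclotomicExtension {MM} ℚ E] in
theorem IU.pow {x : Eˣ} (hx : IU x) (n : ℕ) : IU (x ^ n) := fun P => by
  rw [ord_pow, hx P, mul_zero]

omit [IsCyclotomicExtension {MM} ℚ E] in
theorem IU.zpow {x : Eˣ} (hx : IU x) (n : ℤ) : IU (x ^ n) := fun P => by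
  rw [ord_zpow, hx P, mul_zero]

omit [IsCyclotomicExtension {MM} ℚ E] in
theorem IU.one : IU (1 : Eˣ) := fun _ => ord_one _

omit [IsCyclotomicExtension {MM} ℚ E] in
theorem IU.neg {x : Eˣ} (hx : IU x) : IU (-x) := fun P => by
  rw [ord_neg, hx P]

omit [IsCyclotomicExtension {MM} ℚ E] in
theorem IU.ug {x : Eˣ} (hx : IU x) (g : E ≃ₐ[ℚ] E) : IU (ug g x) := fun Q => by
  obtain ⟨P, hP⟩ := exists_pull g Q
  rw [ord_map g P Q hP, hx P]

omit [IsCyclotomicExtension {MM} ℚ E] in
theorem IU.exists_unit {x : Eˣ} (hx : IU x) : ∃ u : (𝓞 E)ˣ, ((u : 𝓞 E) : E) = x :=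
  exists_unit_of_ord_eq_zero x hx

omit [IsCyclotomicExtension {MM} ℚ E] in
theorem IU.isIntegral {x : Eˣ} (hx : IU x) : IsIntegral ℤ (x : E) := by
  obtain ⟨u, hu⟩ := hx.exists_unit
  rw [← hu]; exact (u : 𝓞 E).isIntegral_coe

theorem algHom_ext_zt {f f' : E →ₐ[ℚ] ℂ} (h : f (zt E) = f' (zt E)) : f = f' := by
  apply ((zt_spec E).powerBasis ℚ).algHom_ext
  rw [IsPrimitiveRoot.powerBasis_gen]
  exact h

theorem val_neg_one : ((-1 : (ZMod MM)ˣ) : ZMod MM).val = 87995 := by decide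

theorem conj_embedding (φ : E →+* ℂ) (x : E) : φ (gg E (-1) x) = starRingEnd ℂ (φ x) := by
  let f : E →ₐ[ℚ] ℂ := (φ.comp (gg E (-1) : E →+* E)).toRatAlgHom
  let f' : E →ₐ[ℚ] ℂ := ((starRingEnd ℂ).comp φ).toRatAlgHom
  have h : f = f' := by
    apply algHom_ext_zt
    change φ (gg E (-1) (zt E)) = starRingEnd ℂ (φ (zt E))
    have h1 : (φ (zt E)) ^ MM = 1 := by
      rw [← map_pow, (zt_spec E).pow_eq_one, map_one]
    have h2 : ‖φ (zt E)‖ = 1 := Complex.norm_eq_one_of_pow_eq_one h1 (by norm_num)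
    rw [gg_zt, val_neg_one, map_pow, ← Complex.inv_eq_conj h2]
    apply eq_inv_of_mul_eq_one_left
    rw [← pow_succ]
    exact h1
  exact congrArg (fun t : E →ₐ[ℚ] ℂ => t x) h

/-- a unit inverted by complex conjugation is a root of unity -/
theorem pow_MM_of_conj_inv {x : Eˣ} (hx : IU x) (h : ug (gg E (-1)) x = x⁻¹) : x ^ MM = 1 := by
  obtain ⟨u, hu⟩ := hx.exists_unit
  have h1 : ∀ φ : E →+* ℂ, ‖φ (x : E)‖ = 1 := by
    intro φ
    have h2 := conj_embedding φ (x : E)
    rw [← coe_ug, h] at h2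
    have h3 : φ (x : E) * starRingEnd ℂ (φ (x : E)) = 1 := by
      rw [← h2, ← map_mul, ← Units.val_mul, mul_inv_cancel, Units.val_one, map_one]
    rw [Complex.mul_conj, Complex.normSq_eq_norm_sq] at h3
    have h4 : ‖φ (x : E)‖ ^ 2 = 1 := by exact_mod_cast h3
    nlinarith [norm_nonneg (φ (x : E))]
  have h2 : u ∈ Units.torsion E := by
    obtain ⟨n, hn, hx⟩ := Embeddings.pow_eq_one_of_norm_eq_one E ℂ hx.isIntegral h1
    rw [Units.torsion, CommGroup.mem_torsion, isOfFinOrder_iff_pow_eq_one]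
    refine ⟨n, hn, ?_⟩
    apply Units.ext
    apply RingOfIntegers.ext
    rw [Units.val_pow_eq_pow_val, cpow, hu, hx]; rfl
  have h3 : Units.torsionOrder E = MM := by
    rw [IsCyclotomicExtension.Rat.torsionOrder_eq (n := MM), if_pos (by decide)]
  have h4 : (⟨u, h2⟩ : Units.torsion E) ^ MM = 1 := by
    rw [← h3]
    exact pow_card_eq_one'
  have h5 : u ^ MM = 1 := congrArg Subtype.val h4
  apply Units.ext
  rw [Units.val_pow_eq_pow_val, ← hu, ← cpow, ← Units.val_pow_eq_pow_val, h5]; rfl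

end tor

section action

variable {E : Type} [Field E] [NumberField E] [IsCyclotomicExtension {MM} ℚ E]

/-- action of a class on the unit group of `E` -/
noncomputable abbrev act (a : (ZMod MM)ˣ) : Eˣ →* Eˣ := ug (gg E a)

theorem act_mul (a b : (ZMod MM)ˣ) (x : Eˣ) : act (a * b) x = act a (act b x) := by
  unfold act; rw [gg_mul, ug_mul]

theorem act_one (x : Eˣ) : act 1 x = x := by
  unfold act; rw [gg_one]; ext; rfl

theorem act_comm (a b : (ZMod MM)ˣ) (x : Eˣ) : act a (act b x) = act b (act a x) := by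
  rw [← act_mul, ← act_mul, mul_comm]

theorem act_pow_fix (a : (ZMod MM)ˣ) (x : Eˣ) (h : act a x = x) (n : ℕ) : act (a ^ n) x = x := by
  induction n with
  | zero => rw [pow_zero, act_one]
  | succ n ih => rw [pow_succ, act_mul, h, ih]

theorem act_root (a : (ZMod MM)ˣ) (x : Eˣ) (h : x ^ MM = 1) : act a x = x ^ (a : ZMod MM).val := by
  apply Units.ext
  rw [coe_ug, gg_apply (by rw [← Units.val_pow_eq_pow_val, h, Units.val_one]),
    Units.val_pow_eq_pow_val]

/-- the inertia elements with trivial cubic symbol fix the elements fixed by `sg ^ 3` -/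
theorem act_fix (x : Eˣ) (ht : act (sg ^ 3) x = x) (a : (ZMod MM)ˣ) (h1 : m12 a = 1)
    (h2 : lam (mL a) = 0) : act a x = x := by
  obtain ⟨n, rfl⟩ := exists_sg_pow a h1
  rw [map_pow, mL_sg, lam_pow, lam_six, mul_one] at h2
  obtain ⟨j, rfl⟩ := (ZMod.natCast_eq_zero_iff n 3).1 h2
  rw [pow_mul]
  exact act_pow_fix _ _ ht j

theorem act_neg_one (x : Eˣ) (ht : act (sg ^ 3) x = x) :
    act (-1) x = act d5 (act d7 x) := by
  have h : (-1 : (ZMod MM)ˣ) = d5 * d7 * (d5 * d7 * (-1)) := by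
    have : d5 * d7 * (d5 * d7) = 1 := by
      rw [mul_mul_mul_comm, d5_sq, d7_sq, one_mul]
    rw [← mul_assoc, this, one_mul]
  rw [h, act_mul, act_fix x ht (d5 * d7 * (-1)), act_mul]
  · apply Units.ext
    rw [coe_m12]
    decide
  · have : mL (d5 * d7 * (-1)) = -1 := by
      apply Units.ext
      rw [coe_mL]
      decide
    rw [this, lam_neg_one]

theorem act_e7 (x : Eˣ) (ht : act (sg ^ 3) x = x) : act e7 x = act d7 x := by
  have h : e7 = d7 * (d7 * e7) := by rw [← mul_assoc, d7_sq, one_mul]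
  rw [h, act_mul, act_fix x ht (d7 * e7)]
  · apply Units.ext
    rw [coe_m12]
    decide
  · apply lam_of_cube _ 3
    rw [coe_mL]
    decide

end action

end Pool.Agent.TH834
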