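import Mathlib
import Pool.Agent.TH834.Tor
set_option autoImplicit false

/-!
The `S`-units of the field on which the group acts through the character of conductor 4.
-/

namespace Pool.Agent.TH834

open NumberField IsDedekindDomain HeightOneSpectrum WithZero Pool.Agent.W367.KT Polynomial

section aw

variable {E : Type} [Field E] [NumberField E] [IsCyclotomicExtension {MM} ℚ E]

/-- the valuations away from 7333 vanish -/
def AW (x : Eˣ) : Prop :=
  ∀ P : HeightOneSpectrum (𝓞 E), (LL : 𝓞 E) ∉ P.asIdeal → ord (P.valuation E) x = 0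

omit [IsCyclotomicExtension {MM} ℚ E] in
theorem AW.mul {x y : Eˣ} (hx : AW x) (hy : AW y) : AW (x * y) := fun P hP => by
  rw [ord_mul, hx P hP, hy P hP, add_zero]

omit [IsCyclotomicExtension {MM} ℚ E] in
theorem AW.inv {x : Eˣ} (hx : AW x) : AW x⁻¹ := fun P hP => by
  rw [ord_inv, hx P hP, neg_zero]

omit [IsCyclotomicExtension {MM} ℚ E] in
theorem AW.pow {x : Eˣ} (hx : AW x) (n : ℕ) : AW (x ^ n) := fun P hP => by
  rw [ord_pow, hx P hP, mul_zero]

omit [IsCyclotomicExtension {MM} ℚ E] in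
theorem AW.zpow {x : Eˣ} (hx : AW x) (n : ℤ) : AW (x ^ n) := fun P hP => by
  rw [ord_zpow, hx P hP, mul_zero]

omit [IsCyclotomicExtension {MM} ℚ E] in
theorem AW.ug {x : Eˣ} (hx : AW x) (g : E ≃ₐ[ℚ] E) : AW (ug g x) := fun Q hQ => by
  obtain ⟨P, hP⟩ := exists_pull g Q
  rw [ord_map g P Q hP]
  apply hx
  intro h
  apply hQ
  have := (hP _).1 h
  rwa [map_natCast] at this

omit [IsCyclotomicExtension {MM} ℚ E] in
theorem IU.aw {x : Eˣ} (hx : IU x) : AW x := fun P _ => hx P

/-- the quotient `σ y / y` is a unit -/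
theorem IU_quot {y : Eˣ} (hy : AW y) : IU (act sg y * y⁻¹) := fun P => by
  by_cases h : (LL : 𝓞 E) ∈ P.asIdeal
  · rw [ord_mul, ord_inv, ord_sg P h]; ring
  · rw [ord_mul, ord_inv, hy.ug _ P h, hy P h]; ring

theorem cc_quot (y : Eˣ) : cc (act sg y * y⁻¹) = aa y := by
  rw [cc_mul, cc_inv]
  unfold cc aa
  rw [lc_inert sg m12_sg, lam_mul, lam_zpow, mL_sg, lam_six]
  ring

theorem exists_ord_of_fixed (z : Eˣ) (h : act sg z = z) : ∃ t : ℤ, ord (wv E) z = 7332 * t := by
  have h1 := lc_inert sg m12_sg z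
  rw [h, mL_sg] at h1
  have h2 : six ^ (ord (wv E) z) = 1 := by
    have := mul_left_cancel (a := lc E z) (b := six ^ (ord (wv E) z)) (c := 1) (by
      rw [← h1, mul_one])
    exact this
  have h3 := orderOf_dvd_iff_zpow_eq_one.2 h2
  rw [orderOf_six] at h3
  exact h3

/-- symmetric elements without zeros or poles away from 7333 and at the chosen prime are units -/
theorem IU_of_sym {T : Eˣ} (h1 : AW T) (h2 : ord (wv E) T = 0)
    (h5 : act d5 T = T ∨ act d5 T = T⁻¹) (h7 : act d7 T = T ∨ act d7 T = T⁻¹)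
    (hs : act sg T = T) : IU T := fun P => by
  by_cases h : (LL : 𝓞 E) ∈ P.asIdeal
  · obtain ⟨a, ha⟩ := exists_gal_Wp P h
    have hinv : ∀ b : (ZMod MM)ˣ, ∀ S : Eˣ, (act b T = T ∨ act b T = T⁻¹) → (S = T ∨ S = T⁻¹) →
        (act b S = T ∨ act b S = T⁻¹) := by
      intro b S hb hS
      rcases hS with rfl | rfl
      · exact hb
      · rw [map_inv]
        rcases hb with hb | hb
        · right; rw [hb]
        · left; rw [hb, inv_inv]
    have key : ∀ b : (ZMod MM)ˣ, act b T = T ∨ act b T = T⁻¹ := by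
      intro b
      obtain ⟨c, hc, hb⟩ := exists_decomp b
      obtain ⟨n, rfl⟩ := exists_sg_pow c hc
      have h0 := act_pow_fix sg T hs n
      rcases hb with rfl | rfl | rfl | rfl
      · exact Or.inl h0
      · rw [act_mul, h0]; exact h5
      · rw [act_mul, h0]; exact h7
      · rw [act_mul, h0, act_mul]
        exact hinv _ _ h5 h7
    have h3 : ord (P.valuation E) (act a (act a⁻¹ T)) = ord (wv E) (act a⁻¹ T) :=
      ord_map (gg E a) (Wp E) P ha _
    rw [← act_mul, mul_inv_cancel, act_one] at h3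
    rw [h3]
    rcases key a⁻¹ with h4 | h4
    · rw [h4, h2]
    · rw [h4, ord_inv, h2, neg_zero]
  · exact h1 P h

end aw

section alpha

variable (E : Type) [Field E] [NumberField E] [IsCyclotomicExtension {MM} ℚ E]

/-- the square root of `-1` -/
noncomputable def iI : 𝓞 E := ztI E ^ 21999

theorem iI_sq : iI E ^ 2 = -1 := by
  unfold iI
  rw [← pow_mul]; exact ztI_pow_half E

theorem rho_iI : rho E (iI E) = 2909 := by
  unfold iI
  rw [map_pow, rho_ztI]
  exact pow_eval 2237 21999 2909 (by decide +kernel)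

theorem coe_iI : ((iI E : 𝓞 E) : E) = zt E ^ 21999 := by
  unfold iI; rw [cpow, coe_ztI]

theorem coe_iI_sq : (zt E ^ 21999) ^ 2 = -1 := by
  rw [← coe_iI, ← cpow, iI_sq]
  change algebraMap (𝓞 E) E (-1) = -1
  rw [map_neg, map_one]

variable {E}

theorem gg_iI_d5 : gg E d5 (zt E ^ 21999) = zt E ^ 21999 := by
  rw [map_pow, gg_zt]
  have h2 : (d5 : ZMod MM).val = 29332 + 1 := rfl
  rw [h2, ← pow_mul, show (29332 + 1) * 21999 = MM * 7333 + 21999 by norm_num, pow_add, pow_mul,
    (zt_spec E).pow_eq_one, one_pow, one_mul]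

theorem gg_iI_sg : gg E sg (zt E ^ 21999) = zt E ^ 21999 := by
  rw [map_pow, gg_zt]
  have h2 : (sg : ZMod MM).val = 51336 + 1 := rfl
  rw [h2, ← pow_mul, show (51336 + 1) * 21999 = MM * 12834 + 21999 by norm_num, pow_add, pow_mul,
    (zt_spec E).pow_eq_one, one_pow, one_mul]

theorem gg_iI_d7 : gg E d7 (zt E ^ 21999) = - zt E ^ 21999 := by
  rw [map_pow, gg_zt]
  have h2 : (d7 : ZMod MM).val = 43998 + 1 := rfl
  rw [h2, ← pow_mul, show (43998 + 1) * 21999 = MM * 10999 + (43998 + 21999) by norm_num, pow_add,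
    pow_mul, (zt_spec E).pow_eq_one, one_pow, one_mul, pow_add,
    show 43998 = 21999 * 2 by norm_num, pow_mul, coe_iI_sq]
  ring

variable (E)

theorem al_ne : (58 : E) + 63 * zt E ^ 21999 ≠ 0 := by
  intro h
  have h1 : ((58 : E) + 63 * zt E ^ 21999) * (58 - 63 * zt E ^ 21999) = 7333 := by
    linear_combination (-3969) * coe_iI_sq E
  rw [h, zero_mul] at h1
  norm_num at h1

theorem alb_ne : (58 : E) - 63 * zt E ^ 21999 ≠ 0 := by
  intro h
  have h1 : ((58 : E) + 63 * zt E ^ 21999) * (58 - 63 * zt E ^ 21999) = 7333 := by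
    linear_combination (-3969) * coe_iI_sq E
  rw [h, mul_zero] at h1
  norm_num at h1

/-- the element `58 + 63 i` of norm 7333 -/
noncomputable def al : Eˣ := Units.mk0 _ (al_ne E)
/-- the element `58 - 63 i` of norm 7333 -/
noncomputable def alb : Eˣ := Units.mk0 _ (alb_ne E)

theorem al_mul_alb : al E * alb E = uL := by
  apply Units.ext
  rw [Units.val_mul]
  change ((58 : E) + 63 * zt E ^ 21999) * (58 - 63 * zt E ^ 21999) = ((7333 : ℕ) : E)
  push_cast
  linear_combination (-3969) * coe_iI_sq E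

theorem coe_al : ((58 + 63 * iI E : 𝓞 E) : E) = (al E : E) := by
  change _ = (58 : E) + 63 * zt E ^ 21999
  rw [← coe_iI]
  change algebraMap (𝓞 E) E (58 + 63 * iI E) = 58 + 63 * algebraMap (𝓞 E) E (iI E)
  simp only [map_add, map_mul, map_ofNat]

theorem coe_alb : ((58 - 63 * iI E : 𝓞 E) : E) = (alb E : E) := by
  change _ = (58 : E) - 63 * zt E ^ 21999
  rw [← coe_iI]
  change algebraMap (𝓞 E) E (58 - 63 * iI E) = 58 - 63 * algebraMap (𝓞 E) E (iI E)
  simp only [map_sub, map_mul, map_ofNat]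

theorem rho_alb : rho E (58 - 63 * iI E) = 116 := by
  rw [map_sub, map_mul, rho_iI, map_ofNat, map_ofNat]; decide

variable {E}

omit [IsCyclotomicExtension {MM} ℚ E] in
theorem ord_uL_away (P : HeightOneSpectrum (𝓞 E)) (h : (LL : 𝓞 E) ∉ P.asIdeal) :
    ord (P.valuation E) (uL : Eˣ) = 0 :=
  ord_eq_zero_of_not_mem P (LL : 𝓞 E) _ (by rw [map_natCast]; rfl) h

theorem AW_al : AW (al E) := fun P h => by
  have h1 := ord_nonneg_of_int P _ _ (coe_al E)
  have h2 := ord_nonneg_of_int P _ _ (coe_alb E)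
  have h3 := congrArg (ord (P.valuation E)) (al_mul_alb E)
  rw [ord_mul, ord_uL_away P h] at h3
  omega

theorem AW_alb : AW (alb E) := fun P h => by
  have h1 := ord_nonneg_of_int P _ _ (coe_al E)
  have h2 := ord_nonneg_of_int P _ _ (coe_alb E)
  have h3 := congrArg (ord (P.valuation E)) (al_mul_alb E)
  rw [ord_mul, ord_uL_away P h] at h3
  omega

theorem ord_alb : ord (wv E) (alb E) = 0 := by
  apply ord_eq_zero_of_not_mem (Wp E) _ _ (coe_alb E)
  rw [mem_Wp, rho_alb]
  decide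

theorem ord_al : ord (wv E) (al E) = 7332 := by
  have h3 := congrArg (ord (wv E)) (al_mul_alb E)
  rw [ord_mul, ord_uL, ord_alb, add_zero] at h3
  exact h3

theorem cc_alb : cc (alb E) = 0 := by
  unfold cc
  apply lam_of_cube _ 202
  rw [lc_int _ (by rw [rho_alb]; decide) _ (coe_alb E).symm, rho_alb]
  decide

theorem cc_uL : cc (uL : Eˣ) = 0 := by
  unfold cc
  rw [lc_uL, lam_neg_one]

theorem cc_al : cc (al E) = 0 := by
  have h3 := congrArg cc (al_mul_alb E)
  rw [cc_mul, cc_uL, cc_alb, add_zero] at h3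
  exact h3

theorem act_d5_al : act d5 (al E) = al E := by
  apply Units.ext
  rw [coe_ug]
  change gg E d5 (58 + 63 * zt E ^ 21999) = 58 + 63 * zt E ^ 21999
  rw [map_add, map_mul, gg_iI_d5, map_ofNat, map_ofNat]

theorem act_d5_alb : act d5 (alb E) = alb E := by
  apply Units.ext
  rw [coe_ug]
  change gg E d5 (58 - 63 * zt E ^ 21999) = 58 - 63 * zt E ^ 21999
  rw [map_sub, map_mul, gg_iI_d5, map_ofNat, map_ofNat]

theorem act_sg_al : act sg (al E) = al E := by
  apply Units.ext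
  rw [coe_ug]
  change gg E sg (58 + 63 * zt E ^ 21999) = 58 + 63 * zt E ^ 21999
  rw [map_add, map_mul, gg_iI_sg, map_ofNat, map_ofNat]

theorem act_sg_alb : act sg (alb E) = alb E := by
  apply Units.ext
  rw [coe_ug]
  change gg E sg (58 - 63 * zt E ^ 21999) = 58 - 63 * zt E ^ 21999
  rw [map_sub, map_mul, gg_iI_sg, map_ofNat, map_ofNat]

theorem act_d7_al : act d7 (al E) = alb E := by
  apply Units.ext
  rw [coe_ug]
  change gg E d7 (58 + 63 * zt E ^ 21999) = 58 - 63 * zt E ^ 21999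
  rw [map_add, map_mul, gg_iI_d7, map_ofNat, map_ofNat]; ring

theorem act_d7_alb : act d7 (alb E) = al E := by
  apply Units.ext
  rw [coe_ug]
  change gg E d7 (58 - 63 * zt E ^ 21999) = 58 + 63 * zt E ^ 21999
  rw [map_sub, map_mul, gg_iI_d7, map_ofNat, map_ofNat]; ring

end alpha

section t4

variable {E : Type} [Field E] [NumberField E] [IsCyclotomicExtension {MM} ℚ E]

theorem t4_AW (y : Eˣ) (hS : SU y) (h7 : act d7 y = y⁻¹) (ht : act (sg ^ 3) y = y) : AW y := by
  intro P hP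
  by_cases hM : (MM : 𝓞 E) ∈ P.asIdeal
  · rcases prime_cases P hM with h | h | h
    · have h1 := ord_two P h y
      rw [h7, ord_inv] at h1
      omega
    · have h1 := ord_three' P h y
      rw [act_e7 y ht, h7, ord_inv] at h1
      omega
    · exact absurd h hP
  · exact hS P hM

theorem cc_of_pow_eq_one (x : Eˣ) (n : ℕ) (hn : (n : ZMod 3) ≠ 0) (h : x ^ n = 1) : cc x = 0 := by
  have h1 := cc_pow x n
  rw [h, cc_one] at h1
  rcases mul_eq_zero.1 h1.symm with h2 | h2
  · exact absurd h2 hn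
  · exact h2

theorem t4_tors (x : Eˣ) (hI : IU x) (h5 : act d5 x = x) (h7 : act d7 x = x⁻¹)
    (ht : act (sg ^ 3) x = x) : x ^ 29332 = 1 := by
  have h1 : x ^ MM = 1 := by
    apply pow_MM_of_conj_inv hI
    change act (-1) x = x⁻¹
    rw [act_neg_one x ht, h7, map_inv, h5]
  have h2 := act_root d5 x h1
  rw [h5] at h2
  have h3 : (d5 : ZMod MM).val = 29332 + 1 := rfl
  rw [h3, pow_succ] at h2
  exact mul_right_cancel (b := x) (by rw [one_mul]; exact h2.symm)

theorem t4 (y : Eˣ) (hS : SU y) (h5 : act d5 y = y) (h7 : act d7 y = y⁻¹)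
    (ht : act (sg ^ 3) y = y) : aa y = 0 ∧ cc y = 0 := by
  have hA : AW y := t4_AW y hS h7 ht
  set v := act sg y * y⁻¹ with hv
  have hv1 : IU v := IU_quot hA
  have hv2 : v ^ 29332 = 1 := by
    apply t4_tors v hv1
    · rw [hv, map_mul, map_inv, act_comm, h5]
    · rw [hv, map_mul, map_inv, act_comm, h7, map_inv, inv_inv, mul_inv_rev, inv_inv, mul_comm]
    · rw [hv, map_mul, map_inv, act_comm, ht]
  have hv3 : cc v = 0 := cc_of_pow_eq_one v _ (by decide) hv2
  have hay : aa y = 0 := by rw [← hv3, hv, cc_quot]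
  refine ⟨hay, ?_⟩
  set Y := y ^ 29332 with hY
  have hYs : act sg Y = Y := by
    have : act sg y = v * y := by rw [hv]; group
    rw [hY, map_pow, this, mul_pow, hv2, one_mul]
  obtain ⟨t, ht'⟩ := exists_ord_of_fixed Y hYs
  set T := Y * (alb E / al E) ^ t with hT
  have hYA : AW Y := hA.pow _
  have hTA : AW T := hYA.mul (AW.zpow (by rw [div_eq_mul_inv]; exact AW_alb.mul AW_al.inv) t)
  have hTo : ord (wv E) T = 0 := by
    rw [hT, ord_mul, ord_zpow, div_eq_mul_inv, ord_mul, ord_inv, ord_al, ord_alb, ht']; ring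
  have hT5 : act d5 T = T := by
    rw [hT, map_mul, map_zpow, _root_.map_div, act_d5_al, act_d5_alb, hY, map_pow, h5]
  have hT7 : act d7 T = T⁻¹ := by
    rw [hT, map_mul, map_zpow, _root_.map_div, act_d7_al, act_d7_alb, hY, map_pow, h7, mul_inv,
      inv_pow, ← inv_zpow, inv_div]
  have hTs : act sg T = T := by
    rw [hT, map_mul, map_zpow, _root_.map_div, act_sg_al, act_sg_alb, hYs]
  have hTI : IU T := IU_of_sym hTA hTo (Or.inl hT5) (Or.inr hT7) hTs
  have hT1 : T ^ 29332 = 1 := t4_tors T hTI hT5 hT7 (act_pow_fix _ _ hTs 3)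
  have hcT : cc T = 0 := cc_of_pow_eq_one T _ (by decide) hT1
  rw [hT, cc_mul, cc_zpow, div_eq_mul_inv, cc_mul, cc_inv, cc_al, cc_alb, hY, cc_pow] at hcT
  have h1 : ((29332 : ℕ) : ZMod 3) = 1 := by decide
  rw [h1] at hcT
  linear_combination hcT

end t4

end Pool.Agent.TH834
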