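import Mathlib
import Pool.Agent.TH834.T4
set_option autoImplicit false

/-!
Cubic Gauss sums for the prime 7333.
-/

namespace Pool.Agent.TH834

open NumberField IsDedekindDomain HeightOneSpectrum WithZero Pool.Agent.W367.KT

section chi

variable {R : Type} [CommRing R] [IsDomain R]

omit [IsDomain R] in
theorem pow_val_add (w : Rˣ) (hw : w ^ 3 = 1) (n m : ZMod 3) :
    w ^ (n + m).val = w ^ n.val * w ^ m.val := by
  rw [← pow_add, ZMod.val_add, ← Nat.div_add_mod (n.val + m.val) 3, pow_add, pow_mul, hw, one_pow,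
    one_mul, Nat.mul_add_mod, Nat.mod_mod]

/-- the cubic character modulo 7333 with values in `R` -/
noncomputable def chi (w : Rˣ) (hw : w ^ 3 = 1) : MulChar (ZMod LL) R :=
  MulChar.ofUnitHom (MonoidHom.mk' (fun x => w ^ (lam x).val) (fun a b => by
    rw [lam_mul]; exact pow_val_add w hw _ _))

omit [IsDomain R] in
theorem chi_coe (w : Rˣ) (hw : w ^ 3 = 1) (x : (ZMod LL)ˣ) :
    chi w hw (x : ZMod LL) = (w : R) ^ (lam x).val := by
  unfold chi
  rw [MulChar.ofUnitHom_coe]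
  simp

omit [IsDomain R] in
theorem chi_mul_self (w : Rˣ) (hw : w ^ 3 = 1) : chi w hw * chi w hw = (chi w hw)⁻¹ := by
  rw [eq_inv_iff_mul_eq_one]
  ext x
  rw [MulChar.mul_apply, MulChar.mul_apply, chi_coe, ← pow_add, ← pow_add, MulChar.one_apply_coe]
  have : (lam x).val + (lam x).val + (lam x).val = 3 * (lam x).val := by ring
  rw [this, pow_mul, ← Units.val_pow_eq_pow_val, hw, Units.val_one, one_pow]

omit [IsDomain R] in
theorem chi_inv (w : Rˣ) (hw : w ^ 3 = 1) (hw' : w⁻¹ ^ 3 = 1) : (chi w hw)⁻¹ = chi w⁻¹ hw' := by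
  rw [inv_eq_iff_mul_eq_one]
  ext x
  rw [MulChar.mul_apply, chi_coe, chi_coe, MulChar.one_apply_coe, ← mul_pow, Units.mul_inv,
    one_pow]

omit [IsDomain R] in
theorem chi_ne_one (w : Rˣ) (hw : w ^ 3 = 1) (h : (w : R) ≠ 1) : chi w hw ≠ 1 := by
  intro h1
  have h2 := congrArg (fun t : MulChar (ZMod LL) R => t (six : ZMod LL)) h1
  simp only [MulChar.one_apply_coe] at h2
  rw [chi_coe, lam_six, show (1 : ZMod 3).val = 1 from rfl, pow_one] at h2
  exact h h2

omit [IsDomain R] in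
theorem chi_neg_one (w : Rˣ) (hw : w ^ 3 = 1) : chi w hw (-1) = 1 := by
  have := chi_coe w hw (-1)
  rw [lam_neg_one] at this
  simpa using this

omit [IsDomain R] in
theorem chi_cube (w : Rˣ) (hw : w ^ 3 = 1) : chi w hw ^ 3 = 1 := by
  rw [pow_succ, pow_two, chi_mul_self, inv_mul_cancel]

omit [IsDomain R] in
theorem map_chi (f : R →+* R) (w : Rˣ) (hw : w ^ 3 = 1) (w' : Rˣ) (hw' : w' ^ 3 = 1)
    (h : f w = w') (x : ZMod LL) : f (chi w hw x) = chi w' hw' x := by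
  by_cases hx : IsUnit x
  · obtain ⟨u, rfl⟩ := hx
    rw [chi_coe, chi_coe, map_pow, h]
  · rw [MulChar.map_nonunit _ hx, MulChar.map_nonunit _ hx, map_zero]

end chi

section gauss

variable (E : Type) [Field E] [NumberField E] [IsCyclotomicExtension {MM} ℚ E]

theorem ztI_LL : (ztI E ^ 12) ^ LL = 1 := by
  rw [← pow_mul]; exact (ztI_spec E).pow_eq_one

theorem ztI_LL_prim : IsPrimitiveRoot (ztI E ^ 12) LL :=
  (ztI_spec E).pow (by norm_num) (by norm_num)

/-- the additive character modulo 7333 -/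
noncomputable def ps : AddChar (ZMod LL) (𝓞 E) := AddChar.zmodChar LL (ztI_LL E)

theorem ps_prim : (ps E).IsPrimitive := AddChar.zmodChar_primitive_of_primitive_root LL (ztI_LL_prim E)

theorem ps_apply (x : ZMod LL) : ps E x = (ztI E ^ 12) ^ x.val := AddChar.zmodChar_apply _ _

/-- the cube root of unity as a unit -/
noncomputable def omU : (𝓞 E)ˣ where
  val := omI E
  inv := omI E ^ 2
  val_inv := by linear_combination (omI E - 1) * omI_eq E
  inv_val := by linear_combination (omI E - 1) * omI_eq E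

theorem omU_cube : omU E ^ 3 = 1 := by
  apply Units.ext
  change omI E ^ 3 = 1
  linear_combination (omI E - 1) * omI_eq E

theorem omU_inv_cube : (omU E)⁻¹ ^ 3 = 1 := by rw [inv_pow, omU_cube, inv_one]

theorem omI_ne_one : omI E ≠ 1 := by
  intro h
  have := omI_eq E
  rw [h] at this
  norm_num at this

theorem omI_prim : IsPrimitiveRoot (omI E) 3 :=
  (ztI_spec E).pow (by norm_num) (by norm_num)

variable {E}

theorem int_d5_om : intEquiv (gg E d5) (omI E) = omI E ^ 2 := by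
  unfold omI
  rw [map_pow, gg_ztI]
  have h2 : (d5 : ZMod MM).val = 29333 := rfl
  rw [h2, ← pow_mul, ← pow_mul, show 29333 * 29332 = MM * 9777 + 29332 * 2 by norm_num, pow_add,
    pow_mul, (ztI_spec E).pow_eq_one, one_pow, one_mul]

theorem int_d7_om : intEquiv (gg E d7) (omI E) = omI E := by
  unfold omI
  rw [map_pow, gg_ztI]
  have h2 : (d7 : ZMod MM).val = 43999 := rfl
  rw [h2, ← pow_mul, show 43999 * 29332 = MM * 14666 + 29332 by norm_num, pow_add,
    pow_mul, (ztI_spec E).pow_eq_one, one_pow, one_mul]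

theorem int_sg_om : intEquiv (gg E sg) (omI E) = omI E := by
  unfold omI
  rw [map_pow, gg_ztI]
  have h2 : (sg : ZMod MM).val = 51337 := rfl
  rw [h2, ← pow_mul, show 51337 * 29332 = MM * 17112 + 29332 by norm_num, pow_add,
    pow_mul, (ztI_spec E).pow_eq_one, one_pow, one_mul]

theorem int_d5_z : intEquiv (gg E d5) (ztI E ^ 12) = ztI E ^ 12 := by
  rw [map_pow, gg_ztI]
  have h2 : (d5 : ZMod MM).val = 29333 := rfl
  rw [h2, ← pow_mul, show 29333 * 12 = MM * 4 + 12 by norm_num, pow_add,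
    pow_mul, (ztI_spec E).pow_eq_one, one_pow, one_mul]

theorem int_d7_z : intEquiv (gg E d7) (ztI E ^ 12) = ztI E ^ 12 := by
  rw [map_pow, gg_ztI]
  have h2 : (d7 : ZMod MM).val = 43999 := rfl
  rw [h2, ← pow_mul, show 43999 * 12 = MM * 6 + 12 by norm_num, pow_add,
    pow_mul, (ztI_spec E).pow_eq_one, one_pow, one_mul]

theorem int_sg_z : intEquiv (gg E sg) (ztI E ^ 12) = (ztI E ^ 12) ^ 6 := by
  rw [map_pow, gg_ztI]
  have h2 : (sg : ZMod MM).val = 51337 := rfl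
  rw [h2, ← pow_mul, ← pow_mul, show 51337 * 12 = MM * 7 + 12 * 6 by norm_num, pow_add,
    pow_mul, (ztI_spec E).pow_eq_one, one_pow, one_mul]

theorem map_gauss (f : 𝓞 E →+* 𝓞 E) (w : (𝓞 E)ˣ) (hw : w ^ 3 = 1) (w' : (𝓞 E)ˣ) (hw' : w' ^ 3 = 1)
    (h : f w = w') (hz : f (ztI E ^ 12) = ztI E ^ 12) :
    f (gaussSum (chi w hw) (ps E)) = gaussSum (chi w' hw') (ps E) := by
  unfold gaussSum
  rw [map_sum]
  apply Finset.sum_congr rfl
  intro x _
  rw [map_mul, map_chi f w hw w' hw' h, ps_apply, map_pow, hz]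

theorem map_gauss_sg (w : (𝓞 E)ˣ) (hw : w ^ 3 = 1)
    (h : intEquiv (gg E sg) (w : 𝓞 E) = w) :
    intEquiv (gg E sg) (gaussSum (chi w hw) (ps E)) = (w : 𝓞 E) ^ 2 * gaussSum (chi w hw) (ps E) := by
  have h1 : intEquiv (gg E sg) (gaussSum (chi w hw) (ps E)) =
      gaussSum (chi w hw) ((ps E).mulShift (six : ZMod LL)) := by
    unfold gaussSum
    rw [map_sum]
    apply Finset.sum_congr rfl
    intro x _
    rw [map_mul]
    congr 1
    · exact map_chi (intEquiv (gg E sg) : 𝓞 E →+* 𝓞 E) w hw w hw h x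
    · rw [ps_apply, map_pow, int_sg_z, AddChar.mulShift_apply]
      have h3 : (six : ZMod LL) * x = ((6 * x.val : ℕ) : ZMod LL) := by
        push_cast
        rw [ZMod.natCast_zmod_val]; rfl
      rw [h3]
      unfold ps
      rw [AddChar.zmodChar_apply', pow_mul]
  rw [h1, gaussSum_mulShift_eq, chi_inv w hw (by rw [inv_pow, hw, inv_one]), chi_coe, lam_six]
  congr 1
  have h4 : w⁻¹ = w ^ 2 := by
    rw [inv_eq_iff_mul_eq_one, ← pow_succ']; exact hw
  rw [h4, show (1 : ZMod 3).val = 1 from rfl, pow_one]; rfl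

theorem adjoin_om (z : 𝓞 E) (hz : z ∈ Algebra.adjoin ℤ {omI E}) :
    ∃ x y : ℤ, z = (x : 𝓞 E) + (y : 𝓞 E) * omI E := by
  refine Algebra.adjoin_induction (p := fun z _ => ∃ x y : ℤ, z = (x : 𝓞 E) + (y : 𝓞 E) * omI E)
    ?_ ?_ ?_ ?_ hz
  · intro x hx
    rw [Set.mem_singleton_iff] at hx
    exact ⟨0, 1, by rw [hx]; push_cast; ring⟩
  · intro r
    exact ⟨r, 0, by simp⟩
  · rintro x y _ _ ⟨a, b, rfl⟩ ⟨c, d, rfl⟩
    exact ⟨a + c, b + d, by push_cast; ring⟩
  · rintro x y _ _ ⟨a, b, rfl⟩ ⟨c, d, rfl⟩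
    refine ⟨a * c - b * d, a * d + b * c - b * d, ?_⟩
    push_cast
    linear_combination (b * d : 𝓞 E) * omI_eq E

theorem int_solve (y c : ℤ) (h : 3 * y ^ 2 - 2 * y - 3 * y * c + c + 3 * c ^ 2 = 2444) :
    (y = -30 ∧ c = -4) ∨ (y = -26 ∧ c = 4) := by
  have key : ∀ y ∈ Finset.Icc (-33 : ℤ) 33, ∀ c ∈ Finset.Icc (-33 : ℤ) 33,
      3 * y ^ 2 - 2 * y - 3 * y * c + c + 3 * c ^ 2 = 2444 →
      (y = -30 ∧ c = -4) ∨ (y = -26 ∧ c = 4) := by decide +kernel
  apply key _ _ _ _ h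
  · rw [Finset.mem_Icc]
    constructor <;> nlinarith [sq_nonneg (6 * c - (3 * y - 1)), sq_nonneg (3 * y - 1)]
  · rw [Finset.mem_Icc]
    constructor <;> nlinarith [sq_nonneg (2 * (3 * y - 1) - 3 * c), sq_nonneg c]

variable (E)

theorem exists_gauss : ∃ (g g' w : 𝓞 E), w ^ 2 + w + 1 = 0 ∧ g * g' = 7333 ∧
    g ^ 2 = (-91 - 12 * omI E) * g' ∧ g' ^ 2 = (-79 + 12 * omI E) * g ∧
    intEquiv (gg E sg) w = w ∧
    intEquiv (gg E sg) g = w * g ∧ intEquiv (gg E sg) g' = w ^ 2 * g' ∧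
    intEquiv (gg E d7) g = g ∧ intEquiv (gg E d7) g' = g' ∧
    intEquiv (gg E d5) g = g' ∧ intEquiv (gg E d5) g' = g := by
  set χ := chi (omU E) (omU_cube E) with hχ
  set χ' := chi (omU E)⁻¹ (omU_inv_cube E) with hχ'
  have hinv : χ⁻¹ = χ' := chi_inv _ _ _
  set g := gaussSum χ (ps E) with hg
  set g' := gaussSum χ' (ps E) with hg'
  have hval : ((omU E : (𝓞 E)ˣ) : 𝓞 E) = omI E := rfl
  have hval' : (((omU E)⁻¹ : (𝓞 E)ˣ) : 𝓞 E) = omI E ^ 2 := rfl
  have hom3 : omI E ^ 3 = 1 := by linear_combination (omI E - 1) * omI_eq E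
  have hχ1 : χ ≠ 1 := chi_ne_one _ _ (omI_ne_one E)
  have R1 : g * g' = 7333 := by
    have h1 := gaussSum_mul_gaussSum_eq_card hχ1 (ps_prim E)
    rw [hinv] at h1
    have h2 := mul_gaussSum_inv_eq_gaussSum χ' (ps E)
    rw [hχ', chi_neg_one, one_mul] at h2
    rw [hg, hg', ← h2, h1, ZMod.card]
    norm_num
  have R2 : g ^ 2 = jacobiSum χ χ * g' := by
    have h1 := jacobiSum_mul_nontrivial (χ := χ) (φ := χ)
      (by rw [hχ, chi_mul_self, ← hχ, hinv]
          intro h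
          rw [← hinv, inv_eq_one] at h
          exact hχ1 h) (ps E)
    have h3 : χ * χ = χ' := by rw [hχ, chi_mul_self, ← hχ, hinv]
    rw [h3] at h1
    rw [pow_two, ← h1, mul_comm]
  have hd5 : intEquiv (gg E d5) g = g' :=
    map_gauss (intEquiv (gg E d5) : 𝓞 E →+* 𝓞 E) _ _ _ _ (by
      rw [hval, hval']; exact int_d5_om) int_d5_z
  have hd5' : intEquiv (gg E d5) g' = g :=
    map_gauss (intEquiv (gg E d5) : 𝓞 E →+* 𝓞 E) _ _ _ _ (by
      rw [hval, hval', map_pow]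
      change intEquiv (gg E d5) (omI E) ^ 2 = omI E
      rw [int_d5_om]; linear_combination omI E * hom3) int_d5_z
  have hd7 : intEquiv (gg E d7) g = g :=
    map_gauss (intEquiv (gg E d7) : 𝓞 E →+* 𝓞 E) _ _ _ _ (by
      rw [hval]; exact int_d7_om) int_d7_z
  have hd7' : intEquiv (gg E d7) g' = g' :=
    map_gauss (intEquiv (gg E d7) : 𝓞 E →+* 𝓞 E) _ _ _ _ (by
      rw [hval', map_pow]
      change intEquiv (gg E d7) (omI E) ^ 2 = omI E ^ 2
      rw [int_d7_om]) int_d7_z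
  have hsg : intEquiv (gg E sg) g = omI E ^ 2 * g := map_gauss_sg _ _ int_sg_om
  have hsg' : intEquiv (gg E sg) g' = omI E * g' := by
    have h1 := map_gauss_sg (omU E)⁻¹ (omU_inv_cube E) (by
      rw [hval', map_pow, int_sg_om])
    rw [hval'] at h1
    rw [hg', h1]
    linear_combination omI E * gaussSum (chi (omU E)⁻¹ (omU_inv_cube E)) (ps E) * hom3
  obtain ⟨z, hz, hJ⟩ := exists_jacobiSum_eq_neg_one_add (n := 3) (by norm_num) (chi_cube _ _)
    (chi_cube _ _) (by rw [ZMod.card]; norm_num) (omI_prim E) (χ := χ) (ψ := χ)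
  obtain ⟨x, y, rfl⟩ := adjoin_om z hz
  have hJ2 : jacobiSum χ χ = ((3 * y - 1 : ℤ) : 𝓞 E) + ((3 * (y - x) : ℤ) : 𝓞 E) * omI E := by
    rw [hJ]; push_cast
    linear_combination (3 * (x : 𝓞 E) * 0 + ((x : 𝓞 E) + y * omI E) - 3 * y) * omI_eq E
  have R2' : g' ^ 2 = (((3 * y - 1 : ℤ) : 𝓞 E) + ((3 * (y - x) : ℤ) : 𝓞 E) * omI E ^ 2) * g := by
    have h1 := congrArg (intEquiv (gg E d5)) R2
    rw [map_pow, map_mul, hd5, hd5', hJ2, map_add, map_mul, int_d5_om, map_intCast, map_intCast] at h1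
    exact h1
  rw [hJ2] at R2
  have h7 : (7333 : 𝓞 E) ≠ 0 := by norm_num
  have hJJ : (((3 * y - 1 : ℤ) : 𝓞 E) + ((3 * (y - x) : ℤ) : 𝓞 E) * omI E) *
      (((3 * y - 1 : ℤ) : 𝓞 E) + ((3 * (y - x) : ℤ) : 𝓞 E) * omI E ^ 2) = 7333 := by
    apply mul_right_cancel₀ h7
    have : (7333 : 𝓞 E) * 7333 = g ^ 2 * g' ^ 2 := by rw [← mul_pow, R1]; norm_num
    rw [this, R2, R2', ← R1]; ring
  have hint : 3 * y ^ 2 - 2 * y - 3 * y * (y - x) + (y - x) + 3 * (y - x) ^ 2 = 2444 := by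
    have h1 : ((3 * (3 * y ^ 2 - 2 * y - 3 * y * (y - x) + (y - x) + 3 * (y - x) ^ 2) + 1 : ℤ) : 𝓞 E)
        = ((7333 : ℤ) : 𝓞 E) := by
      push_cast
      push_cast at hJJ
      have hom4 : omI E ^ 2 = - omI E - 1 := by linear_combination omI_eq E
      linear_combination hJJ - (((3 * (y : 𝓞 E) - 1) * (3 * (y - x))) ) * omI_eq E
        - (3 * ((y : 𝓞 E) - x)) ^ 2 * hom3
    have h2 := Int.cast_injective h1
    omega
  rcases int_solve y (y - x) hint with ⟨h1, h2⟩ | ⟨h1, h2⟩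
  · rw [h2, h1] at R2 R2'
    refine ⟨g, g', omI E ^ 2, ?_, R1, ?_, ?_, ?_, hsg, ?_, hd7, hd7', hd5, hd5'⟩
    · linear_combination (omI E ^ 2 - omI E + 1) * omI_eq E
    · rw [R2]; push_cast; ring
    · rw [R2']; push_cast; linear_combination (-12 * g) * omI_eq E
    · rw [map_pow, int_sg_om]
    · rw [hsg']; linear_combination (- omI E * g') * hom3
  · rw [h2, h1] at R2 R2'
    refine ⟨g', g, omI E, omI_eq E, by rw [mul_comm]; exact R1, ?_, ?_, int_sg_om, hsg', hsg, hd7',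
      hd7, hd5', hd5⟩
    · rw [R2']; push_cast; linear_combination (12 * g) * omI_eq E
    · rw [R2]; push_cast; ring

end gauss

end Pool.Agent.TH834
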