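import Mathlib
import Pool.Agent.TH834.Gauss
set_option autoImplicit false

/-!
An explicit unit of the field of degree 6 and conductor `12 * 7333`.
-/

namespace Pool.Agent.TH834

open NumberField IsDedekindDomain HeightOneSpectrum WithZero Pool.Agent.W367.KT Polynomial

section s

variable (E : Type) [Field E] [NumberField E] [IsCyclotomicExtension {MM} ℚ E]

/-- a primitive twelfth root of unity -/
noncomputable def kI : 𝓞 E := ztI E ^ 7333

/-- the square root of 3 -/
noncomputable def sI : 𝓞 E := kI E - kI E ^ 5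

theorem kI_six : kI E ^ 6 + 1 = 0 := by
  unfold kI
  rw [← pow_mul, ztI_pow_half]; ring

theorem om_eq_kI : omI E = kI E ^ 4 := by
  unfold kI omI
  rw [← pow_mul]

theorem kI_four : kI E ^ 4 - kI E ^ 2 + 1 = 0 := by
  have h := omI_eq E
  rw [om_eq_kI] at h
  linear_combination h - kI E ^ 2 * kI_six E

theorem sI_sq : sI E ^ 2 = 3 := by
  unfold sI
  linear_combination (kI E ^ 4 - 2) * kI_six E - kI_four E

variable {E}

theorem int_d5_k : intEquiv (gg E d5) (kI E) = kI E ^ 5 := by
  unfold kI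
  rw [map_pow, gg_ztI]
  have h2 : (d5 : ZMod MM).val = 29333 := rfl
  rw [h2, ← pow_mul, ← pow_mul, show 29333 * 7333 = MM * 2444 + 7333 * 5 by norm_num, pow_add,
    pow_mul, (ztI_spec E).pow_eq_one, one_pow, one_mul]

theorem int_d7_k : intEquiv (gg E d7) (kI E) = kI E ^ 7 := by
  unfold kI
  rw [map_pow, gg_ztI]
  have h2 : (d7 : ZMod MM).val = 43999 := rfl
  rw [h2, ← pow_mul, ← pow_mul, show 43999 * 7333 = MM * 3666 + 7333 * 7 by norm_num, pow_add,
    pow_mul, (ztI_spec E).pow_eq_one, one_pow, one_mul]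

theorem int_sg_k : intEquiv (gg E sg) (kI E) = kI E := by
  unfold kI
  rw [map_pow, gg_ztI]
  have h2 : (sg : ZMod MM).val = 51337 := rfl
  rw [h2, ← pow_mul, show 51337 * 7333 = MM * 4278 + 7333 by norm_num, pow_add,
    pow_mul, (ztI_spec E).pow_eq_one, one_pow, one_mul]

theorem int_d5_s : intEquiv (gg E d5) (sI E) = - sI E := by
  unfold sI
  rw [map_sub, map_pow, int_d5_k]
  linear_combination (- kI E ^ 19 + kI E ^ 13 - kI E ^ 7 + kI E) * kI_six E

theorem int_d7_s : intEquiv (gg E d7) (sI E) = - sI E := by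
  unfold sI
  rw [map_sub, map_pow, int_d7_k]
  linear_combination (kI E - kI E ^ 29 + kI E ^ 23 - kI E ^ 17 + kI E ^ 11 - kI E ^ 5) * kI_six E

theorem int_sg_s : intEquiv (gg E sg) (sI E) = sI E := by
  unfold sI
  rw [map_sub, map_pow, int_sg_k]

theorem rho_kI : rho E (kI E) = 2237 := by
  unfold kI
  rw [map_pow, rho_ztI]
  exact pow_eval 2237 7333 2237 (by decide +kernel)

theorem rho_sI : rho E (sI E) = 1565 := by
  unfold sI
  rw [map_sub, map_pow, rho_kI]
  decide

variable (E)

/-- elements of `ℤ[ω, √3]` -/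
noncomputable def q4 (a b c d : ℤ) : 𝓞 E := a + b * omI E + c * sI E + d * (omI E * sI E)

variable {E}

theorem q4_mul (a b c d a' b' c' d' : ℤ) : q4 E a b c d * q4 E a' b' c' d' =
    q4 E (a * a' - b * b' + 3 * (c * c' - d * d'))
      (a * b' + b * a' - b * b' + 3 * (c * d' + d * c' - d * d'))
      (a * c' - b * d' + c * a' - d * b')
      (a * d' + b * c' - b * d' + c * b' + d * a' - d * b') := by
  unfold q4
  push_cast
  have h1 := omI_eq E
  have h2 := sI_sq E
  linear_combination ((b * b' : 𝓞 E) + d * d' * sI E ^ 2 + (b * d' + d * b') * sI E) * h1 +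
    ((c * c' : 𝓞 E) + (c * d' + d * c') * omI E - d * d' * omI E - d * d') * h2

theorem q4_add (a b c d a' b' c' d' : ℤ) : q4 E a b c d + q4 E a' b' c' d' =
    q4 E (a + a') (b + b') (c + c') (d + d') := by
  unfold q4; push_cast; ring

theorem q4_neg (a b c d : ℤ) : - q4 E a b c d = q4 E (-a) (-b) (-c) (-d) := by
  unfold q4; push_cast; ring

theorem q4_sub (a b c d a' b' c' d' : ℤ) : q4 E a b c d - q4 E a' b' c' d' =
    q4 E (a - a') (b - b') (c - c') (d - d') := by
  unfold q4; push_cast; ring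

theorem d5_q4 (a b c d : ℤ) : intEquiv (gg E d5) (q4 E a b c d) = q4 E (a - b) (-b) (d - c) d := by
  unfold q4
  simp only [map_add, map_mul, map_intCast, int_d5_om, int_d5_s]
  push_cast
  linear_combination (b - d * sI E) * omI_eq E

theorem d7_q4 (a b c d : ℤ) : intEquiv (gg E d7) (q4 E a b c d) = q4 E a b (-c) (-d) := by
  unfold q4
  simp only [map_add, map_mul, map_intCast, int_d7_om, int_d7_s]
  push_cast
  ring

theorem sg_q4 (a b c d : ℤ) : intEquiv (gg E sg) (q4 E a b c d) = q4 E a b c d := by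
  unfold q4
  simp only [map_add, map_mul, map_intCast, int_sg_om, int_sg_s]

end s

section u

variable (E : Type) [Field E] [NumberField E] [IsCyclotomicExtension {MM} ℚ E]

/-- the constant coefficient -/
noncomputable abbrev cX : 𝓞 E := q4 E 1968367033014 0 1123569937921 0
/-- the conjugate of the constant coefficient -/
noncomputable abbrev cXt : 𝓞 E := q4 E 1968367033014 0 (-1123569937921) 0
/-- the coefficient of the first Gauss sum -/
noncomputable abbrev cY : 𝓞 E := q4 E (-1196946912) (-23366069304) (-544437202) (-13497440664)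
/-- the coefficient of the second Gauss sum -/
noncomputable abbrev cZ : 𝓞 E := q4 E 22169122392 23366069304 12953003462 13497440664
/-- the conjugate of the coefficient of the first Gauss sum -/
noncomputable abbrev cYt : 𝓞 E := q4 E (-1196946912) (-23366069304) 544437202 13497440664
/-- the conjugate of the coefficient of the second Gauss sum -/
noncomputable abbrev cZt : 𝓞 E := q4 E 22169122392 23366069304 (-12953003462) (-13497440664)
/-- the Jacobi sum -/
noncomputable abbrev cP : 𝓞 E := q4 E (-91) (-12) 0 0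
/-- the conjugate Jacobi sum -/
noncomputable abbrev cPb : 𝓞 E := q4 E (-79) 12 0 0
/-- the prime 7333 -/
noncomputable abbrev cL : 𝓞 E := q4 E 7333 0 0 0
/-- the unit `2 + √3` -/
noncomputable abbrev epI : 𝓞 E := q4 E 2 0 1 0

theorem id_norm : cX E ^ 3 + cL E * cP E * cY E ^ 3 + cL E * cPb E * cZ E ^ 3 -
    q4 E 3 0 0 0 * cL E * cX E * (cY E * cZ E) = q4 E 27 0 0 0 * epI E := by
  simp only [pow_succ, pow_zero, one_mul, q4_mul, q4_add, q4_sub]
  norm_num

theorem id_sq : cX E * cX E - cL E * (cY E * cZ E) = q4 E 3 0 0 0 * (cXt E * epI E) := by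
  simp only [q4_mul, q4_add, q4_sub]
  norm_num

theorem id_one : cX E * cXt E + cL E * (cY E * cZt E + cZ E * cYt E) = q4 E 9 0 0 0 := by
  simp only [q4_mul, q4_add, q4_sub]
  norm_num

theorem id_two : cX E * cYt E + cY E * cXt E + cPb E * (cZ E * cZt E) = q4 E 0 0 0 0 := by
  simp only [q4_mul, q4_add, q4_sub]
  norm_num

theorem id_three : cX E * cZt E + cZ E * cXt E + cP E * (cY E * cYt E) = q4 E 0 0 0 0 := by
  simp only [q4_mul, q4_add, q4_sub]
  norm_num

theorem q4_int (n : ℤ) : q4 E n 0 0 0 = (n : 𝓞 E) := by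
  unfold q4; push_cast; ring

theorem q4_ep : epI E = 2 + sI E := by
  unfold epI q4; push_cast; ring

theorem root_eq (g g' : 𝓞 E) (h1 : g * g' = 7333) (h2 : g ^ 2 = cP E * g')
    (h3 : g' ^ 2 = cPb E * g) :
    (cX E + cY E * g + cZ E * g') ^ 3 - 3 * cX E * (cX E + cY E * g + cZ E * g') ^ 2 +
      9 * (cXt E * epI E) * (cX E + cY E * g + cZ E * g') - 27 * epI E = 0 := by
  have e3 : q4 E 3 0 0 0 = 3 := by rw [q4_int]; norm_num
  have e27 : q4 E 27 0 0 0 = 27 := by rw [q4_int]; norm_num
  have eL : cL E = 7333 := by rw [cL, q4_int]; norm_num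
  have hN := id_norm E
  have hS := id_sq E
  rw [e3, e27, eL] at hN
  rw [e3, eL] at hS
  generalize cX E = X at *
  generalize cY E = Y at *
  generalize cZ E = Z at *
  generalize cP E = P at *
  generalize cPb E = Pb at *
  generalize cXt E * epI E = B at *
  generalize epI E = C at *
  have g3 : g ^ 3 = 7333 * P := by rw [pow_succ, h2, mul_assoc, mul_comm g', h1]; ring
  have g3' : g' ^ 3 = 7333 * Pb := by rw [pow_succ, h3, mul_assoc, h1]; ring
  linear_combination hN - 3 * (X + Y * g + Z * g') * hS + Y ^ 3 * g3 + Z ^ 3 * g3' +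
    (3 * Y * Z * (Y * g + Z * g')) * h1

theorem norm_eq (g g' w : 𝓞 E) (hw : w ^ 2 + w + 1 = 0) (h1 : g * g' = 7333)
    (h2 : g ^ 2 = cP E * g') (h3 : g' ^ 2 = cPb E * g) :
    (cX E + cY E * g + cZ E * g') * (cX E + cY E * (w * g) + cZ E * (w ^ 2 * g')) *
      (cX E + cY E * (w ^ 2 * g) + cZ E * (w * g')) = 27 * epI E := by
  have e3 : q4 E 3 0 0 0 = 3 := by rw [q4_int]; norm_num
  have e27 : q4 E 27 0 0 0 = 27 := by rw [q4_int]; norm_num
  have eL : cL E = 7333 := by rw [cL, q4_int]; norm_num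
  have hN := id_norm E
  rw [e3, e27, eL] at hN
  have w3 : w ^ 3 = 1 := by linear_combination (w - 1) * hw
  have g3 : g ^ 3 = 7333 * cP E := by rw [pow_succ, h2, mul_assoc, mul_comm g', h1]; ring
  have g3' : g' ^ 3 = 7333 * cPb E := by rw [pow_succ, h3, mul_assoc, h1]; ring
  have key : (cX E + cY E * g + cZ E * g') * (cX E + cY E * (w * g) + cZ E * (w ^ 2 * g')) *
      (cX E + cY E * (w ^ 2 * g) + cZ E * (w * g')) = cX E ^ 3 + (cY E * g) ^ 3 + (cZ E * g') ^ 3 -
      3 * cX E * (cY E * g) * (cZ E * g') := by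
    have key' : ∀ X A B : 𝓞 E, (X + A + B) * (X + w * A + w ^ 2 * B) * (X + w ^ 2 * A + w * B) =
        X ^ 3 + A ^ 3 + B ^ 3 - 3 * X * A * B := by
      intro X A B
      linear_combination (X + A + B) * (X * (A + B) + (w - 1) * (A ^ 2 + B ^ 2) +
        (w ^ 2 - w + 1) * A * B) * hw
    rw [← key']
    ring
  rw [key, ← hN]
  linear_combination cY E ^ 3 * g3 + cZ E ^ 3 * g3' - 3 * cX E * cY E * cZ E * h1

theorem conj_eq (g g' : 𝓞 E) (h1 : g * g' = 7333) (h2 : g ^ 2 = cP E * g')
    (h3 : g' ^ 2 = cPb E * g) :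
    (cX E + cY E * g + cZ E * g') * (cXt E + cYt E * g + cZt E * g') = 9 := by
  have e0 : q4 E 0 0 0 0 = 0 := by rw [q4_int]; norm_num
  have e9 : q4 E 9 0 0 0 = 9 := by rw [q4_int]; norm_num
  have eL : cL E = 7333 := by rw [cL, q4_int]; norm_num
  have i1 := id_one E
  have i2 := id_two E
  have i3 := id_three E
  rw [e9, eL] at i1
  rw [e0] at i2 i3
  linear_combination i1 + g * i2 + g' * i3 + (cY E * cZt E + cZ E * cYt E) * h1 +
    cY E * cYt E * h2 + cZ E * cZt E * h3

theorem coe_ext {x y : 𝓞 E} (h : (x : E) = y) : x = y := RingOfIntegers.ext h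

/-- an element of the ring of integers one third of the given one -/
theorem exists_third (U a b c : 𝓞 E)
    (h : U ^ 3 - 3 * a * U ^ 2 + 9 * b * U - 27 * c = 0) : ∃ u : 𝓞 E, 3 * u = U := by
  have h1 : IsIntegral (𝓞 E) ((U : E) / 3) := by
    refine ⟨X ^ 3 - C a * X ^ 2 + C b * X - C c, by monicity!, ?_⟩
    have h2 := congrArg (algebraMap (𝓞 E) E) h
    simp only [map_add, map_sub, map_mul, map_pow, map_zero, map_ofNat] at h2
    simp only [eval₂_sub, eval₂_add, eval₂_mul, eval₂_C, eval₂_pow, eval₂_X]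
    change ((algebraMap (𝓞 E) E U) / 3) ^ 3 - _ * ((algebraMap (𝓞 E) E U) / 3) ^ 2 +
      _ * ((algebraMap (𝓞 E) E U) / 3) - _ = 0
    linear_combination (1 / 27) * h2
  have h2 : IsIntegral ℤ ((U : E) / 3) := isIntegral_trans (R := ℤ) (A := 𝓞 E) _ h1
  obtain ⟨u, hu⟩ : ∃ u : 𝓞 E, (u : E) = (U : E) / 3 := ⟨⟨(U : E) / 3, h2⟩, rfl⟩
  refine ⟨u, ?_⟩
  apply RingOfIntegers.ext
  rw [cmul, hu]
  change algebraMap (𝓞 E) E 3 * ((U : E) / 3) = U
  rw [map_ofNat]
  field_simp

theorem exists_u : ∃ u : Eˣ, IU u ∧ act d5 u = u⁻¹ ∧ act d7 u = u⁻¹ ∧ act (sg ^ 3) u = u ∧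
    ((u * act sg u * act sg (act sg u) : Eˣ) : E) = 2 + ((sI E : 𝓞 E) : E) ∧ cc u = 0 := by
  obtain ⟨g, g', w, hw, h1, h2, h3, sw, sg1, sg2, s7, s7', s5, s5'⟩ := exists_gauss E
  have eP : (-91 - 12 * omI E : 𝓞 E) = cP E := by unfold cP q4; push_cast; ring
  have ePb : (-79 + 12 * omI E : 𝓞 E) = cPb E := by unfold cPb q4; push_cast; ring
  rw [eP] at h2
  rw [ePb] at h3
  obtain ⟨u, hu⟩ := exists_third E _ _ _ _ (root_eq E g g' h1 h2 h3)
  have three : (3 : 𝓞 E) ≠ 0 := by norm_num
  have w3 : w ^ 3 = 1 := by linear_combination (w - 1) * hw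
  -- action of the generators
  have a7 : 3 * intEquiv (gg E d7) u = cXt E + cYt E * g + cZt E * g' := by
    have := congrArg (intEquiv (gg E d7)) hu
    rw [map_mul, map_ofNat, map_add, map_add, map_mul, map_mul, s7, s7', cX, cY, cZ, d7_q4, d7_q4,
      d7_q4] at this
    rw [this]; norm_num
  have a5 : 3 * intEquiv (gg E d5) u = cXt E + cYt E * g + cZt E * g' := by
    have := congrArg (intEquiv (gg E d5)) hu
    rw [map_mul, map_ofNat, map_add, map_add, map_mul, map_mul, s5, s5', cX, cY, cZ, d5_q4, d5_q4,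
      d5_q4] at this
    rw [this, cXt, cYt, cZt]; norm_num
    ring
  have as1 : 3 * intEquiv (gg E sg) u = cX E + cY E * (w * g) + cZ E * (w ^ 2 * g') := by
    have := congrArg (intEquiv (gg E sg)) hu
    rw [map_mul, map_ofNat, map_add, map_add, map_mul, map_mul, sg1, sg2, cX, cY, cZ, sg_q4, sg_q4,
      sg_q4] at this
    exact this
  have as2 : 3 * intEquiv (gg E sg) (intEquiv (gg E sg) u) =
      cX E + cY E * (w ^ 2 * g) + cZ E * (w * g') := by
    have := congrArg (intEquiv (gg E sg)) as1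
    rw [map_mul, map_ofNat, map_add, map_add, map_mul, map_mul, map_mul, map_mul, map_pow, sw,
      sg1, sg2, cX, cY, cZ, sg_q4, sg_q4, sg_q4] at this
    rw [this]
    linear_combination (cZ E * g' * w) * w3
  have as3 : intEquiv (gg E sg) (intEquiv (gg E sg) (intEquiv (gg E sg) u)) = u := by
    apply mul_left_cancel₀ three
    have := congrArg (intEquiv (gg E sg)) as2
    rw [map_mul, map_ofNat, map_add, map_add, map_mul, map_mul, map_mul, map_mul, map_pow, sw,
      sg1, sg2, cX, cY, cZ, sg_q4, sg_q4, sg_q4] at this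
    rw [this, hu]
    linear_combination (cY E * g + cZ E * g') * w3
  -- inverse
  have hinv : u * intEquiv (gg E d7) u = 1 := by
    have h9 : (9 : 𝓞 E) ≠ 0 := by norm_num
    apply mul_left_cancel₀ h9
    have := conj_eq E g g' h1 h2 h3
    rw [← hu, ← a7] at this
    linear_combination this
  have h57 : intEquiv (gg E d5) u = intEquiv (gg E d7) u :=
    mul_left_cancel₀ three (a5.trans a7.symm)
  have hnorm : u * intEquiv (gg E sg) u * intEquiv (gg E sg) (intEquiv (gg E sg) u) = epI E := by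
    have h27 : (27 : 𝓞 E) ≠ 0 := by norm_num
    apply mul_left_cancel₀ h27
    have := norm_eq E g g' w hw h1 h2 h3
    rw [← hu, ← as1, ← as2] at this
    linear_combination this
  have hrho : rho E u = 293 := by
    have hg0 : rho E g = 0 ∧ rho E g' = 0 := by
      have r1 := congrArg (rho E) h1
      have r2 := congrArg (rho E) h2
      have r3 := congrArg (rho E) h3
      rw [map_mul, map_ofNat] at r1
      rw [map_pow, map_mul] at r2 r3
      have r0 : (OfNat.ofNat 7333 : ZMod LL) = 0 := by decide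
      rw [r0] at r1
      rcases mul_eq_zero.1 r1 with h | h
      · rw [h, mul_zero] at r3
        exact ⟨h, pow_eq_zero_iff (by norm_num) |>.1 r3⟩
      · rw [h, mul_zero] at r2
        exact ⟨pow_eq_zero_iff (by norm_num) |>.1 r2, h⟩
    have r := congrArg (rho E) hu
    rw [map_mul, map_ofNat, map_add, map_add, map_mul, map_mul, hg0.1, hg0.2, mul_zero, mul_zero,
      add_zero, add_zero] at r
    have rX : rho E (cX E) = 879 := by
      unfold cX q4
      simp only [map_add, map_mul, map_intCast, rho_sI]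
      have z0 : ((0 : ℤ) : ZMod LL) = 0 := Int.cast_zero
      rw [z0, zero_mul, zero_mul, add_zero, add_zero]
      have i1 : ((1968367033014 : ℤ) : ZMod LL) = 3643 := by decide
      have i2 : ((1123569937921 : ℤ) : ZMod LL) = 270 := by decide
      rw [i1, i2]; decide
    rw [rX] at r
    have : (OfNat.ofNat 3 : ZMod LL) * 293 = 879 := by decide
    rw [← this] at r
    exact mul_left_cancel₀ (by decide) r
  have hu0 : (u : E) ≠ 0 := by
    intro h
    have : u = 0 := RingOfIntegers.ext (by rw [h]; rfl)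
    rw [this, zero_mul] at hinv
    exact zero_ne_one hinv
  refine ⟨Units.mk0 (u : E) hu0, ?_, ?_, ?_, ?_, ?_, ?_⟩
  · intro P
    exact ord_unit P ⟨u, intEquiv (gg E d7) u, hinv, by rw [mul_comm]; exact hinv⟩ _ rfl
  · rw [eq_inv_iff_mul_eq_one]
    apply Units.ext
    have := congrArg (fun t : 𝓞 E => (t : E)) hinv
    rw [← h57] at this
    simp only [cmul, coe_intEquiv, cone] at this
    rw [Units.val_mul, coe_ug, Units.val_mk0, mul_comm, this]; rfl
  · rw [eq_inv_iff_mul_eq_one]
    apply Units.ext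
    have := congrArg (fun t : 𝓞 E => (t : E)) hinv
    simp only [cmul, coe_intEquiv, cone] at this
    rw [Units.val_mul, coe_ug, Units.val_mk0, mul_comm, this]; rfl
  · rw [pow_succ, pow_two, act_mul, act_mul]
    apply Units.ext
    have := congrArg (fun t : 𝓞 E => (t : E)) as3
    simp only [coe_intEquiv] at this
    exact this
  · have := congrArg (fun t : 𝓞 E => (t : E)) hnorm
    simp only [cmul, coe_intEquiv] at this
    rw [Units.val_mul, Units.val_mul, coe_ug, coe_ug, coe_ug, Units.val_mk0, this, q4_ep, cadd]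
    rfl
  · unfold cc
    apply lam_of_cube _ 680
    rw [lc_int u (by rw [hrho]; decide) _ rfl, hrho]
    decide

end u

end Pool.Agent.TH834
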