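import Mathlib
import Pool.Agent.TH834.ExU
set_option autoImplicit false

/-!
The units on which the group acts through the character of conductor 12.
-/

namespace Pool.Agent.TH834

open NumberField IsDedekindDomain HeightOneSpectrum WithZero Pool.Agent.W367.KT Polynomial

section rank

variable {E : Type} [Field E] [NumberField E] [IsCyclotomicExtension {MM} ℚ E]

/-- the units of the second type -/
structure V (x : Eˣ) : Prop where
  iu : IU x
  h5 : act d5 x = x⁻¹
  h7 : act d7 x = x⁻¹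
  ht : act (sg ^ 3) x = x

theorem V.mul {x y : Eˣ} (hx : V x) (hy : V y) : V (x * y) where
  iu := hx.iu.mul hy.iu
  h5 := by rw [map_mul, hx.h5, hy.h5, mul_inv]
  h7 := by rw [map_mul, hx.h7, hy.h7, mul_inv]
  ht := by rw [map_mul, hx.ht, hy.ht]

theorem V.inv {x : Eˣ} (hx : V x) : V x⁻¹ where
  iu := hx.iu.inv
  h5 := by rw [map_inv, hx.h5]
  h7 := by rw [map_inv, hx.h7]
  ht := by rw [map_inv, hx.ht]

theorem V.zpow {x : Eˣ} (hx : V x) (n : ℤ) : V (x ^ n) where
  iu := hx.iu.zpow n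
  h5 := by rw [map_zpow, hx.h5, inv_zpow]
  h7 := by rw [map_zpow, hx.h7, inv_zpow]
  ht := by rw [map_zpow, hx.ht]

theorem V.pow {x : Eˣ} (hx : V x) (n : ℕ) : V (x ^ n) := by
  have := hx.zpow n
  rwa [zpow_natCast] at this

theorem V.one : V (1 : Eˣ) where
  iu := IU.one
  h5 := by rw [map_one, inv_one]
  h7 := by rw [map_one, inv_one]
  ht := by rw [map_one]

omit [IsCyclotomicExtension {MM} ℚ E] in
theorem ug_neg (g : E ≃ₐ[ℚ] E) (x : Eˣ) : ug g (-x) = - ug g x := by
  apply Units.ext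
  rw [coe_ug, Units.val_neg, map_neg, Units.val_neg, coe_ug]

theorem V.neg {x : Eˣ} (hx : V x) : V (-x) where
  iu := hx.iu.neg
  h5 := by
    change ug _ _ = _
    rw [ug_neg]
    change - act d5 x = _
    rw [hx.h5, inv_neg]
  h7 := by
    change ug _ _ = _
    rw [ug_neg]
    change - act d7 x = _
    rw [hx.h7, inv_neg]
  ht := by
    change ug _ _ = _
    rw [ug_neg]
    change - act (sg ^ 3) x = _
    rw [hx.ht]

theorem V.sg {x : Eˣ} (hx : V x) : V (act sg x) where
  iu := hx.iu.ug _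
  h5 := by rw [act_comm, hx.h5, map_inv]
  h7 := by rw [act_comm, hx.h7, map_inv]
  ht := by rw [act_comm, hx.ht]

theorem V.act_neg_one {x : Eˣ} (hx : V x) : act (-1) x = x := by
  rw [Pool.Agent.TH834.act_neg_one x hx.ht, hx.h7, map_inv, hx.h5, inv_inv]

/-- torsion elements of the second type are `1` or `-1` -/
theorem V.sq_of_torsion {x : Eˣ} (hx : V x) (n : ℕ) (hn : n ≠ 0) (h : x ^ n = 1) : x ^ 2 = 1 := by
  obtain ⟨φ⟩ : Nonempty (E →+* ℂ) := inferInstance
  have h1 := conj_embedding φ (x : E)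
  rw [← coe_ug] at h1
  change φ ((act (-1) x : Eˣ) : E) = _ at h1
  rw [hx.act_neg_one] at h1
  have h2 : (φ (x : E)) ^ n = 1 := by
    rw [← map_pow, ← Units.val_pow_eq_pow_val, h, Units.val_one, map_one]
  have h3 : ‖φ (x : E)‖ = 1 := Complex.norm_eq_one_of_pow_eq_one h2 hn
  have h4 : φ (x : E) * starRingEnd ℂ (φ (x : E)) = 1 := by
    rw [Complex.mul_conj, Complex.normSq_eq_norm_sq, h3]; simp
  rw [← h1] at h4
  apply Units.ext
  apply φ.injective
  rw [Units.val_pow_eq_pow_val, map_pow, pow_two, h4, Units.val_one, map_one]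

theorem V.eq_of_torsion {x : Eˣ} (hx : V x) (n : ℕ) (hn : n ≠ 0) (h : x ^ n = 1) :
    x = 1 ∨ x = -1 := by
  have h2 := hx.sq_of_torsion n hn h
  have h3 : (x : E) * (x : E) = 1 := by
    rw [← pow_two, ← Units.val_pow_eq_pow_val, h2, Units.val_one]
  rcases mul_self_eq_one_iff.1 h3 with h | h
  · left; exact Units.ext h
  · right; exact Units.ext h

end rank

section dep

variable {E : Type} [Field E] [NumberField E]

open NumberField.Units NumberField.Units.dirichletUnitTheorem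

theorem exists_dep (u : Fin 4 → (𝓞 E)ˣ) (A : (Fin 3 → ℝ) →ₗ[ℝ] logSpace E)
    (c : Fin 4 → (Fin 3 → ℝ))
    (h : ∀ i, logEmbedding E (Additive.ofMul (u i)) = A (c i)) :
    ∃ m : Fin 4 → ℤ, m ≠ 0 ∧ (∏ i, u i ^ m i) ∈ torsion E := by
  classical
  have h₂ : DiscreteTopology
      (Submodule.span ℤ (Set.range fun i ↦ (logEmbedding E) (Additive.ofMul (u i)))) := by
    rw [← SetLike.isDiscrete_iff_discreteTopology]
    refine (inferInstance : DiscreteTopology (unitLattice E)).isDiscrete.mono ?_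
    rw [SetLike.coe_subset_coe, Submodule.span_le]
    rintro _ ⟨i, rfl⟩
    exact ⟨Additive.ofMul (u i), Submodule.mem_top, rfl⟩
  have h3 := Real.finrank_eq_int_finrank_of_discrete h₂
  have h4 : Set.finrank ℝ (Set.range fun i ↦ (logEmbedding E) (Additive.ofMul (u i))) ≤ 3 := by
    have h5 : Submodule.span ℝ (Set.range fun i ↦ (logEmbedding E) (Additive.ofMul (u i))) ≤
        LinearMap.range A := by
      rw [Submodule.span_le]
      rintro _ ⟨i, rfl⟩
      exact ⟨c i, (h i).symm⟩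
    unfold Set.finrank
    refine (Submodule.finrank_mono h5).trans ?_
    refine (LinearMap.finrank_range_le A).trans ?_
    simp
  have h6 : ¬ LinearIndependent ℤ (fun i ↦ (logEmbedding E) (Additive.ofMul (u i))) := by
    intro hli
    have h7 := finrank_span_eq_card hli
    have h8 : Set.finrank ℤ (Set.range fun i ↦ (logEmbedding E) (Additive.ofMul (u i))) = 4 := by
      unfold Set.finrank
      rw [h7]; simp
    omega
  rw [Fintype.not_linearIndependent_iff] at h6
  obtain ⟨m, hm, i, hi⟩ := h6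
  refine ⟨m, fun h0 => hi (by rw [h0]; rfl), ?_⟩
  rw [← logEmbedding_eq_zero_iff]
  rw [ofMul_prod, map_sum, ← hm]
  apply Finset.sum_congr rfl
  intro j _
  rw [ofMul_zpow, map_zsmul]

end dep

section place

variable {E : Type} [Field E] [NumberField E] [IsCyclotomicExtension {MM} ℚ E]

theorem exists_embed (φ φ0 : E →+* ℂ) : ∃ a : (ZMod MM)ˣ, ∀ x, φ x = φ0 (gg E a x) := by
  have h0 : IsPrimitiveRoot (φ0 (zt E)) MM := (zt_spec E).map_of_injective φ0.injective
  have h1 : IsPrimitiveRoot (φ (zt E)) MM := (zt_spec E).map_of_injective φ.injective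
  obtain ⟨i, hi, hc, h⟩ := h0.isPrimitiveRoot_iff.1 h1
  refine ⟨ZMod.unitOfCoprime i hc, fun x => ?_⟩
  let f : E →ₐ[ℚ] ℂ := φ.toRatAlgHom
  let f' : E →ₐ[ℚ] ℂ := (φ0.comp (gg E (ZMod.unitOfCoprime i hc) : E →+* E)).toRatAlgHom
  have hff : f = f' := by
    apply algHom_ext_zt
    change φ (zt E) = φ0 (gg E (ZMod.unitOfCoprime i hc) (zt E))
    rw [gg_zt, ZMod.coe_unitOfCoprime, ZMod.val_natCast_of_lt hi, map_pow, h]
  exact congrArg (fun t : E →ₐ[ℚ] ℂ => t x) hff

theorem act_pow_mod {x : Eˣ} (hx : act (sg ^ 3) x = x) (n : ℕ) :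
    act (sg ^ n) x = act (sg ^ (n % 3)) x := by
  conv_lhs => rw [← Nat.div_add_mod n 3]
  rw [add_comm, pow_add, pow_mul, act_mul, act_pow_fix _ _ hx]

variable (E)

/-- a fixed complex embedding -/
noncomputable def emb0 : E →+* ℂ := Classical.choice (inferInstance : Nonempty (E →+* ℂ))

variable {E}

theorem place_V (w : InfinitePlace E) : ∃ (j : Fin 3) (e : ℝ), ∀ x : Eˣ, V x →
    Real.log (w (x : E)) = e * Real.log ‖emb0 E ((act (sg ^ (j : ℕ)) x : Eˣ) : E)‖ := by
  obtain ⟨a, ha⟩ := exists_embed w.embedding (emb0 E)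
  obtain ⟨h, hh, hcase⟩ := exists_decomp a
  obtain ⟨n, rfl⟩ := exists_sg_pow h hh
  have hw : ∀ x : Eˣ, w (x : E) = ‖emb0 E ((act a x : Eˣ) : E)‖ := by
    intro x
    rw [← InfinitePlace.norm_embedding_eq w, ha]; rfl
  have hj : n % 3 < 3 := Nat.mod_lt _ (by norm_num)
  have hlog : ∀ y : Eˣ, Real.log ‖emb0 E ((y⁻¹ : Eˣ) : E)‖ = - Real.log ‖emb0 E (y : E)‖ := by
    intro y
    rw [Units.val_inv_eq_inv_val, map_inv₀, norm_inv, Real.log_inv]
  rcases hcase with rfl | rfl | rfl | rfl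
  · refine ⟨⟨n % 3, hj⟩, 1, fun x hx => ?_⟩
    rw [hw, act_pow_mod hx.ht, one_mul]
  · refine ⟨⟨n % 3, hj⟩, -1, fun x hx => ?_⟩
    rw [hw, mul_comm, act_mul, hx.h5, map_inv, act_pow_mod hx.ht, hlog, neg_one_mul]
  · refine ⟨⟨n % 3, hj⟩, -1, fun x hx => ?_⟩
    rw [hw, mul_comm, act_mul, hx.h7, map_inv, act_pow_mod hx.ht, hlog, neg_one_mul]
  · refine ⟨⟨n % 3, hj⟩, 1, fun x hx => ?_⟩
    rw [hw, mul_comm, act_mul, act_mul d5, hx.h7, map_inv, hx.h5, inv_inv, act_pow_mod hx.ht,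
      one_mul]

open NumberField.Units NumberField.Units.dirichletUnitTheorem in
/-- four units of the second type are multiplicatively dependent -/
theorem V_dep (x : Fin 4 → Eˣ) (hx : ∀ i, V (x i)) :
    ∃ m : Fin 4 → ℤ, m ≠ 0 ∧ (∏ i, x i ^ m i) ^ 2 = 1 := by
  choose u hu using fun i => (hx i).iu.exists_unit
  choose j e hje using fun w : InfinitePlace E => place_V w
  let A : (Fin 3 → ℝ) →ₗ[ℝ] logSpace E :=
    LinearMap.pi (fun w => (((w.1.mult : ℝ) * e w.1)) • LinearMap.proj (j w.1))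
  let c : Fin 4 → (Fin 3 → ℝ) :=
    fun i k => Real.log ‖emb0 E ((act (sg ^ (k : ℕ)) (x i) : Eˣ) : E)‖
  obtain ⟨m, hm, ht⟩ := exists_dep u A c (by
    intro i
    ext w
    rw [logEmbedding_component]
    have h1 := hje w.1 (x i) (hx i)
    rw [← hu i] at h1
    change (w.1.mult : ℝ) * Real.log (w.1 ((u i : 𝓞 E) : E)) = _
    rw [h1]
    simp only [A, c, LinearMap.pi_apply, LinearMap.smul_apply, LinearMap.proj_apply, smul_eq_mul]
    ring)
  refine ⟨m, hm, ?_⟩
  have hV : V (∏ i, x i ^ m i) := by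
    rw [Fin.prod_univ_four]
    exact ((((hx 0).zpow _).mul ((hx 1).zpow _)).mul ((hx 2).zpow _)).mul ((hx 3).zpow _)
  rw [torsion, CommGroup.mem_torsion, isOfFinOrder_iff_pow_eq_one] at ht
  obtain ⟨n, hn, h⟩ := ht
  apply hV.sq_of_torsion n hn.ne'
  -- transfer
  let f : (𝓞 E)ˣ →* Eˣ := Units.map (algebraMap (𝓞 E) E : 𝓞 E →* E)
  have hf : ∀ i, f (u i) = x i := fun i => Units.ext (hu i)
  have h2 := congrArg f h
  rw [map_pow, map_prod, map_one] at h2
  simp only [map_zpow, hf] at h2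
  exact h2

end place

end Pool.Agent.TH834
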