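import Mathlib
import Pool.Agent.TH834.Rank
set_option autoImplicit false

/-!
The units of the second type are generated, up to index prime to 3, by the conjugates of the
explicit unit.
-/

namespace Pool.Agent.TH834

open NumberField IsDedekindDomain HeightOneSpectrum WithZero Pool.Agent.W367.KT Polynomial

section uprime

variable {E : Type} [Field E] [NumberField E] [IsCyclotomicExtension {MM} ℚ E]

/-- the properties of the explicit unit -/
structure GoodU (u : Eˣ) : Prop where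
  v : V u
  n : ((u * act sg u * act sg (act sg u) : Eˣ) : E) = 2 + ((sI E : 𝓞 E) : E)
  c : cc u = 0

variable (E) in
theorem exists_goodU : ∃ u : Eˣ, GoodU u := by
  obtain ⟨u, h1, h2, h3, h4, h5, h6⟩ := exists_u E
  exact ⟨u, ⟨h1, h2, h3, h4⟩, h5, h6⟩

/-- the relative norm -/
noncomputable def nm (x : Eˣ) : Eˣ := x * act sg x * act sg (act sg x)

theorem nm_mul (x y : Eˣ) : nm (x * y) = nm x * nm y := by
  unfold nm
  simp only [map_mul]
  simp only [mul_assoc, mul_left_comm]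

theorem nm_zpow (x : Eˣ) (n : ℤ) : nm (x ^ n) = nm x ^ n := by
  unfold nm
  simp only [map_zpow, mul_zpow]

theorem act_sg3 {x : Eˣ} (hx : act (sg ^ 3) x = x) : act sg (act sg (act sg x)) = x := by
  rw [← act_mul, ← act_mul, ← pow_three', hx]

theorem nm_sg {x : Eˣ} (hx : act (sg ^ 3) x = x) : nm (act sg x) = nm x := by
  unfold nm
  rw [act_sg3 hx, mul_comm, ← mul_assoc]

theorem sg_nm {x : Eˣ} (hx : act (sg ^ 3) x = x) : act sg (nm x) = nm x := by
  conv_rhs => rw [← nm_sg hx]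
  unfold nm
  rw [map_mul, map_mul]

theorem V.nm {x : Eˣ} (hx : V x) : V (nm x) := (hx.mul hx.sg).mul hx.sg.sg

theorem coe_sI_sq : ((sI E : 𝓞 E) : E) ^ 2 = 3 := by
  rw [← cpow, sI_sq]
  exact map_ofNat (algebraMap (𝓞 E) E) 3

theorem GoodU.inv_ep {u : Eˣ} (hu : GoodU u) :
    (((nm u)⁻¹ : Eˣ) : E) = 2 - ((sI E : 𝓞 E) : E) := by
  rw [Units.val_inv_eq_inv_val]
  apply inv_eq_of_mul_eq_one_right
  change ((u * act sg u * act sg (act sg u) : Eˣ) : E) * _ = 1
  rw [hu.n]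
  linear_combination (-1) * coe_sI_sq (E := E)

theorem GoodU.not_fin {u : Eˣ} (hu : GoodU u) (n : ℕ) (hn : n ≠ 0) : (nm u) ^ n ≠ 1 := by
  intro h
  obtain ⟨φ⟩ : Nonempty (E →+* ℂ) := inferInstance
  have h2 : (φ ((nm u : Eˣ) : E)) ^ n = 1 := by
    rw [← map_pow, ← Units.val_pow_eq_pow_val, h, Units.val_one, map_one]
  have h3 : ‖φ ((nm u : Eˣ) : E)‖ = 1 := Complex.norm_eq_one_of_pow_eq_one h2 hn
  have h4 : (φ ((nm u : Eˣ) : E))⁻¹ = 4 - φ ((nm u : Eˣ) : E) := by
    rw [← map_inv₀, ← Units.val_inv_eq_inv_val, hu.inv_ep]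
    have : ((nm u : Eˣ) : E) = 2 + ((sI E : 𝓞 E) : E) := hu.n
    rw [this, map_sub, map_add, map_ofNat]; ring
  rw [Complex.inv_eq_conj h3] at h4
  have h5 := congrArg Complex.re h4
  rw [Complex.conj_re, Complex.sub_re] at h5
  have h6 : (4 : ℂ).re = 4 := rfl
  rw [h6] at h5
  have h7 := Complex.abs_re_le_norm (φ ((nm u : Eˣ) : E))
  rw [h3] at h7
  have h8 := (abs_le.1 h7).2
  linarith

theorem GoodU.zpow_ne {u : Eˣ} (hu : GoodU u) (n : ℤ) (h : ((nm u) ^ n) ^ 2 = 1) : n = 0 := by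
  by_contra hn
  have h1 : IsOfFinOrder (nm u) := by
    rw [isOfFinOrder_iff_zpow_eq_one]
    refine ⟨n * 2, by omega, ?_⟩
    rw [zpow_mul]; exact h
  rw [isOfFinOrder_iff_pow_eq_one] at h1
  obtain ⟨m, hm, h2⟩ := h1
  exact hu.not_fin m hm.ne' h2

theorem cube_aux (t : ℤ) : t ^ 3 - 3 * t ≠ 4 := by
  intro h
  have h1 : ((t ^ 3 - 3 * t : ℤ) : ZMod 9) = ((4 : ℤ) : ZMod 9) := by rw [h]
  push_cast at h1
  generalize (t : ZMod 9) = s at h1
  revert s; decide

/-- the norm of the unit is not a cube of a unit of the second type -/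
theorem GoodU.not_cube {u : Eˣ} (hu : GoodU u) (w : Eˣ) (hw : V w) (h : nm u = w ^ 3) : False := by
  have hr : V (act sg w * w⁻¹) := hw.sg.mul hw.inv
  have hr3 : (act sg w * w⁻¹) ^ 3 = 1 := by
    rw [mul_pow, inv_pow, ← map_pow, ← h, sg_nm hu.v.ht, mul_inv_cancel]
  have hr2 := hr.sq_of_torsion 3 (by norm_num) hr3
  have hr1 : act sg w * w⁻¹ = 1 := by
    rw [pow_succ, hr2, one_mul] at hr3; exact hr3
  have hs : act sg w = w := by
    rw [mul_inv_eq_one] at hr1; exact hr1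
  obtain ⟨x, hx⟩ := hw.iu.exists_unit
  have hx' : (((x⁻¹ : (𝓞 E)ˣ) : 𝓞 E) : E) = ((w⁻¹ : Eˣ) : E) := by
    rw [Units.val_inv_eq_inv_val]
    symm
    apply inv_eq_of_mul_eq_one_right
    rw [← hx, ← cmul, Units.mul_inv]; rfl
  set t : 𝓞 E := (x : 𝓞 E) + ((x⁻¹ : (𝓞 E)ˣ) : 𝓞 E) with ht
  have ht' : (t : E) = (w : E) + ((w⁻¹ : Eˣ) : E) := by rw [ht, cadd, hx, hx']
  have hfix : ∀ f : E ≃ₐ[ℚ] E, f (t : E) = t := by
    intro f
    obtain ⟨a, rfl⟩ := exists_gg f
    obtain ⟨b, hb, hcase⟩ := exists_decomp a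
    obtain ⟨n, rfl⟩ := exists_sg_pow b hb
    have h0 := act_pow_fix sg w hs n
    have key : act a w = w ∨ act a w = w⁻¹ := by
      rcases hcase with rfl | rfl | rfl | rfl
      · exact Or.inl h0
      · right; rw [act_mul, h0, hw.h5]
      · right; rw [act_mul, h0, hw.h7]
      · left; rw [act_mul, h0, act_mul, hw.h7, map_inv, hw.h5, inv_inv]
    rw [ht', map_add]
    change ((act a w : Eˣ) : E) + ((act a w⁻¹ : Eˣ) : E) = _
    rw [map_inv]
    rcases key with h | h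
    · rw [h]
    · rw [h, inv_inv, add_comm]
  have hgal : IsGalois ℚ E := IsCyclotomicExtension.isGalois {MM} ℚ E
  obtain ⟨q, hq⟩ := (IsGalois.mem_range_algebraMap_iff_fixed (F := ℚ) (t : E)).2 hfix
  have hqi : IsIntegral ℤ q := by
    rw [← isIntegral_algebraMap_iff (B := E) (algebraMap ℚ E).injective, hq]
    exact t.isIntegral_coe
  obtain ⟨z, hz⟩ := IsIntegrallyClosed.isIntegral_iff.1 hqi
  have htz : (t : E) = (z : E) := by
    rw [← hq, ← hz]; simp
  have h4 : (t : E) ^ 3 - 3 * t = 4 := by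
    have e1 : (w : E) * ((w⁻¹ : Eˣ) : E) = 1 := by rw [← Units.val_mul, mul_inv_cancel]; rfl
    have e2 : (w : E) ^ 3 = 2 + ((sI E : 𝓞 E) : E) := by
      rw [← Units.val_pow_eq_pow_val, ← h]; exact hu.n
    have e3 : (((w⁻¹ : Eˣ) : E)) ^ 3 = 2 - ((sI E : 𝓞 E) : E) := by
      rw [← hu.inv_ep, h, ← Units.val_pow_eq_pow_val, inv_pow]
    rw [ht']
    generalize (w : E) = a at *
    generalize ((w⁻¹ : Eˣ) : E) = b at *
    linear_combination e2 + e3 + 3 * (a + b) * e1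
  rw [htz] at h4
  apply cube_aux z
  exact_mod_cast h4

/-- cubes of units of the second type -/
def CubeV (x : Eˣ) : Prop := ∃ w : Eˣ, V w ∧ x = w ^ 3

theorem CubeV.mul {x y : Eˣ} (hx : CubeV x) (hy : CubeV y) : CubeV (x * y) := by
  obtain ⟨a, ha, rfl⟩ := hx
  obtain ⟨b, hb, rfl⟩ := hy
  exact ⟨a * b, ha.mul hb, (mul_pow a b 3).symm⟩

theorem CubeV.inv {x : Eˣ} (hx : CubeV x) : CubeV x⁻¹ := by
  obtain ⟨a, ha, rfl⟩ := hx
  exact ⟨a⁻¹, ha.inv, (inv_pow a 3).symm⟩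

theorem CubeV.sg {x : Eˣ} (hx : CubeV x) : CubeV (act sg x) := by
  obtain ⟨a, ha, rfl⟩ := hx
  exact ⟨_, ha.sg, map_pow _ a 3⟩

theorem CubeV.of_zpow {x : Eˣ} (hx : V x) (n : ℤ) (hn : 3 ∣ n) : CubeV (x ^ n) := by
  obtain ⟨k, rfl⟩ := hn
  refine ⟨x ^ k, hx.zpow k, ?_⟩
  rw [mul_comm, zpow_mul]; rfl

theorem GoodU.three_dvd {u : Eˣ} (hu : GoodU u) (n : ℤ) (h : CubeV ((nm u) ^ n)) : 3 ∣ n := by
  by_contra hn
  have h3 : ¬ CubeV (nm u) := by
    rintro ⟨w, hw, h⟩
    exact hu.not_cube w hw h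
  have hc : n % 3 = 1 ∨ n % 3 = 2 := by omega
  rcases hc with hc | hc
  · apply h3
    have h4 : nm u = (nm u) ^ n * (nm u) ^ (1 - n) := by
      rw [← zpow_add, add_sub_cancel, zpow_one]
    rw [h4]
    exact h.mul (CubeV.of_zpow hu.v.nm _ (by omega))
  · apply h3
    have h4 : nm u = ((nm u) ^ n)⁻¹ * (nm u) ^ (1 + n) := by
      rw [← zpow_neg, ← zpow_add, show -n + (1 + n) = 1 by ring, zpow_one]
    rw [h4]
    exact h.inv.mul (CubeV.of_zpow hu.v.nm _ (by omega))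

/-- the monomial in the conjugates -/
noncomputable def mon (u : Eˣ) (a b c : ℤ) : Eˣ := u ^ a * act sg u ^ b * act sg (act sg u) ^ c

theorem mon_mul (u : Eˣ) (a b c a' b' c' : ℤ) :
    mon u a b c * mon u a' b' c' = mon u (a + a') (b + b') (c + c') := by
  unfold mon
  rw [zpow_add, zpow_add, zpow_add]
  simp only [mul_assoc, mul_left_comm]

theorem mon_zpow (u : Eˣ) (a b c n : ℤ) : mon u a b c ^ n = mon u (a * n) (b * n) (c * n) := by
  unfold mon
  rw [mul_zpow, mul_zpow, zpow_mul, zpow_mul, zpow_mul]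

theorem mon_inv (u : Eˣ) (a b c : ℤ) : (mon u a b c)⁻¹ = mon u (-a) (-b) (-c) := by
  rw [← zpow_neg_one, mon_zpow]; congr 1 <;> ring

theorem sg_mon {u : Eˣ} (hu : act (sg ^ 3) u = u) (a b c : ℤ) :
    act sg (mon u a b c) = mon u c a b := by
  unfold mon
  rw [map_mul, map_mul, map_zpow, map_zpow, map_zpow, act_sg3 hu]
  rw [mul_comm, ← mul_assoc]

theorem mon_diag (u : Eˣ) (a : ℤ) : mon u a a a = nm u ^ a := by
  unfold mon nm
  rw [mul_zpow, mul_zpow]

theorem V.mon {u : Eˣ} (hu : V u) (a b c : ℤ) : V (mon u a b c) :=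
  ((hu.zpow a).mul (hu.sg.zpow b)).mul (hu.sg.sg.zpow c)

theorem CubeV.mon {u : Eˣ} (hu : V u) (a b c : ℤ) (ha : 3 ∣ a) (hb : 3 ∣ b) (hc : 3 ∣ c) :
    CubeV (mon u a b c) :=
  ((CubeV.of_zpow hu a ha).mul (CubeV.of_zpow hu.sg b hb)).mul (CubeV.of_zpow hu.sg.sg c hc)

/-- a monomial is a cube only if all exponents are divisible by 3 -/
theorem GoodU.mon_cube {u : Eˣ} (hu : GoodU u) (a b c : ℤ) (h : CubeV (mon u a b c)) :
    3 ∣ a ∧ 3 ∣ b ∧ 3 ∣ c := by
  have ht := hu.v.ht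
  have h1 := h.sg
  have h2 := h1.sg
  rw [sg_mon ht] at h1
  rw [sg_mon ht, sg_mon ht] at h2
  have hS : 3 ∣ a + c + b := by
    apply hu.three_dvd
    rw [← mon_diag]
    have h3 := (h.mul h1).mul h2
    rw [mon_mul, mon_mul] at h3
    convert h3 using 2 <;> ring
  have h4 : CubeV (mon u (c - a) (a - b) (b - c)) := by
    have h3 := h1.mul h.inv
    rw [mon_inv, mon_mul] at h3
    exact h3
  have h5 : 3 ∣ c - a := by
    apply hu.three_dvd
    rw [← mon_diag]
    have h6 := h4.mul (CubeV.mon hu.v 0 (c - a - (a - b)) (c - a - (b - c)) (by norm_num)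
      (by omega) (by omega))
    rw [mon_mul] at h6
    convert h6 using 2 <;> ring
  have h6 : 3 ∣ a := by
    apply hu.three_dvd
    rw [← mon_diag]
    have h7 := h.mul (CubeV.mon hu.v 0 (a - b) (a - c) (by norm_num) (by omega) (by omega))
    rw [mon_mul] at h7
    convert h7 using 2 <;> ring
  exact ⟨h6, by omega, by omega⟩

theorem descent {u : Eˣ} (hu : GoodU u) {v : Eˣ} (hv : V v) (N : ℕ) : ∀ m a b c : ℤ,
    m.natAbs + a.natAbs + b.natAbs + c.natAbs ≤ N → (m ≠ 0 ∨ a ≠ 0 ∨ b ≠ 0 ∨ c ≠ 0) →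
    (v ^ m * mon u a b c) ^ 2 = 1 →
    ∃ m a b c : ℤ, ¬ (3 ∣ m) ∧ (v ^ m * mon u a b c) ^ 2 = 1 := by
  induction N with
  | zero =>
    intro m a b c h1 h2 _
    exfalso
    omega
  | succ N ih =>
    intro m a b c h1 h2 h3
    by_cases hm : 3 ∣ m
    · have hV : V (v ^ m * mon u a b c) := (hv.zpow m).mul (hu.v.mon a b c)
      have hcube : CubeV (mon u a b c) := by
        have hr := hV.eq_of_torsion 2 (by norm_num) h3
        have h4 : CubeV (v ^ m) := CubeV.of_zpow hv m hm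
        have h5 : CubeV (v ^ m * mon u a b c) := by
          rcases hr with hr | hr
          · exact ⟨1, V.one, by rw [hr, one_pow]⟩
          · exact ⟨-1, V.one.neg, by rw [hr, Odd.neg_one_pow (by decide)]⟩
        have h6 := h4.inv.mul h5
        rw [inv_mul_cancel_left] at h6
        exact h6
      obtain ⟨ha, hb, hc⟩ := hu.mon_cube a b c hcube
      obtain ⟨m', rfl⟩ := hm
      obtain ⟨a', rfl⟩ := ha
      obtain ⟨b', rfl⟩ := hb
      obtain ⟨c', rfl⟩ := hc
      apply ih m' a' b' c'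
      · omega
      · omega
      · have hV' : V (v ^ m' * mon u a' b' c') := (hv.zpow m').mul (hu.v.mon a' b' c')
        apply hV'.sq_of_torsion 6 (by norm_num)
        have : v ^ (3 * m') * mon u (3 * a') (3 * b') (3 * c') =
            (v ^ m' * mon u a' b' c') ^ 3 := by
          rw [mul_pow, ← zpow_natCast (v ^ m'), ← zpow_mul, ← zpow_natCast (mon u a' b' c'),
            mon_zpow]
          congr 1
          · congr 1; push_cast; ring
          · congr 1 <;> push_cast <;> ring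
        rw [this, ← pow_mul] at h3
        exact h3
    · exact ⟨m, a, b, c, hm, h3⟩

/-- every unit of the second type is, up to an exponent prime to 3, a monomial -/
theorem GoodU.generates {u : Eˣ} (hu : GoodU u) {v : Eˣ} (hv : V v) :
    ∃ m a b c : ℤ, ¬ (3 ∣ m) ∧ (v ^ m * mon u a b c) ^ 2 = 1 := by
  obtain ⟨n, hn, h⟩ := V_dep ![v, u, act sg u, act sg (act sg u)] (by
    intro i
    fin_cases i
    · exact hv
    · exact hu.v
    · exact hu.v.sg
    · exact hu.v.sg.sg)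
  rw [Fin.prod_univ_four] at h
  apply descent hu hv _ (n 0) (n 1) (n 2) (n 3) le_rfl
  · by_contra h0
    push Not at h0
    apply hn
    ext i
    fin_cases i
    · exact h0.1
    · exact h0.2.1
    · exact h0.2.2.1
    · exact h0.2.2.2
  · have : v ^ n 0 * mon u (n 1) (n 2) (n 3) =
        (![v, u, act sg u, act sg (act sg u)] 0) ^ n 0 * (![v, u, act sg u, act sg (act sg u)] 1) ^ n 1 *
        (![v, u, act sg u, act sg (act sg u)] 2) ^ n 2 *
        (![v, u, act sg u, act sg (act sg u)] 3) ^ n 3 := by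
      unfold mon
      simp [mul_assoc]
    rw [this]; exact h

end uprime

end Pool.Agent.TH834
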