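import Mathlib
import Pool.Agent.TH834.UPrime
set_option autoImplicit false

/-!
The `S`-units of the field on which the group acts through the character of conductor 12, and the
vanishing of `psi` on all symbols of `S`-units.
-/

namespace Pool.Agent.TH834

open NumberField IsDedekindDomain HeightOneSpectrum WithZero Pool.Agent.W367.KT

section gamma

variable (E : Type) [Field E] [NumberField E] [IsCyclotomicExtension {MM} ℚ E]

theorem ga_mul_gb_aux : ((89 : E) + 14 * ((sI E : 𝓞 E) : E)) * (89 - 14 * ((sI E : 𝓞 E) : E)) =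
    7333 := by
  linear_combination (-196) * coe_sI_sq (E := E)

theorem ga_ne : (89 : E) + 14 * ((sI E : 𝓞 E) : E) ≠ 0 := by
  intro h
  have h1 := ga_mul_gb_aux E
  rw [h, zero_mul] at h1
  norm_num at h1

theorem gb_ne : (89 : E) - 14 * ((sI E : 𝓞 E) : E) ≠ 0 := by
  intro h
  have h1 := ga_mul_gb_aux E
  rw [h, mul_zero] at h1
  norm_num at h1

/-- the element `89 + 14 √3` of norm 7333 -/
noncomputable def ga : Eˣ := Units.mk0 _ (ga_ne E)
/-- the element `89 - 14 √3` of norm 7333 -/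
noncomputable def gb : Eˣ := Units.mk0 _ (gb_ne E)

theorem ga_mul_gb : ga E * gb E = uL := by
  apply Units.ext
  rw [Units.val_mul]
  change ((89 : E) + 14 * ((sI E : 𝓞 E) : E)) * (89 - 14 * ((sI E : 𝓞 E) : E)) = ((7333 : ℕ) : E)
  push_cast
  exact ga_mul_gb_aux E

theorem coe_ga : ((89 + 14 * sI E : 𝓞 E) : E) = (ga E : E) := by
  change algebraMap (𝓞 E) E (89 + 14 * sI E) = 89 + 14 * algebraMap (𝓞 E) E (sI E)
  simp only [map_add, map_mul, map_ofNat]

theorem coe_gb : ((89 - 14 * sI E : 𝓞 E) : E) = (gb E : E) := by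
  change algebraMap (𝓞 E) E (89 - 14 * sI E) = 89 - 14 * algebraMap (𝓞 E) E (sI E)
  simp only [map_sub, map_mul, map_ofNat]

theorem rho_gb : rho E (89 - 14 * sI E) = 178 := by
  rw [map_sub, map_mul, rho_sI, map_ofNat, map_ofNat]; decide

variable {E}

theorem AW_ga : AW (ga E) := fun P h => by
  have h1 := ord_nonneg_of_int P _ _ (coe_ga E)
  have h2 := ord_nonneg_of_int P _ _ (coe_gb E)
  have h3 := congrArg (ord (P.valuation E)) (ga_mul_gb E)
  rw [ord_mul, ord_uL_away P h] at h3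
  omega

theorem AW_gb : AW (gb E) := fun P h => by
  have h1 := ord_nonneg_of_int P _ _ (coe_ga E)
  have h2 := ord_nonneg_of_int P _ _ (coe_gb E)
  have h3 := congrArg (ord (P.valuation E)) (ga_mul_gb E)
  rw [ord_mul, ord_uL_away P h] at h3
  omega

theorem ord_gb : ord (wv E) (gb E) = 0 := by
  apply ord_eq_zero_of_not_mem (Wp E) _ _ (coe_gb E)
  rw [mem_Wp, rho_gb]
  decide

theorem ord_ga : ord (wv E) (ga E) = 7332 := by
  have h3 := congrArg (ord (wv E)) (ga_mul_gb E)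
  rw [ord_mul, ord_uL, ord_gb, add_zero] at h3
  exact h3

theorem cc_gb : cc (gb E) = 0 := by
  unfold cc
  apply lam_of_cube _ 3024
  rw [lc_int _ (by rw [rho_gb]; decide) _ (coe_gb E).symm, rho_gb]
  decide

theorem cc_ga : cc (ga E) = 0 := by
  have h3 := congrArg cc (ga_mul_gb E)
  rw [cc_mul, cc_uL, cc_gb, add_zero] at h3
  exact h3

theorem gg_d5_s : gg E d5 ((sI E : 𝓞 E) : E) = - ((sI E : 𝓞 E) : E) := by
  rw [← coe_intEquiv, int_d5_s]
  exact map_neg (algebraMap (𝓞 E) E) _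

theorem gg_d7_s : gg E d7 ((sI E : 𝓞 E) : E) = - ((sI E : 𝓞 E) : E) := by
  rw [← coe_intEquiv, int_d7_s]
  exact map_neg (algebraMap (𝓞 E) E) _

theorem gg_sg_s : gg E sg ((sI E : 𝓞 E) : E) = ((sI E : 𝓞 E) : E) := by
  rw [← coe_intEquiv, int_sg_s]

theorem act_d5_ga : act d5 (ga E) = gb E := by
  apply Units.ext
  rw [coe_ug]
  change gg E d5 (89 + 14 * ((sI E : 𝓞 E) : E)) = 89 - 14 * ((sI E : 𝓞 E) : E)
  rw [map_add, map_mul, gg_d5_s, map_ofNat, map_ofNat]; ring

theorem act_d5_gb : act d5 (gb E) = ga E := by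
  apply Units.ext
  rw [coe_ug]
  change gg E d5 (89 - 14 * ((sI E : 𝓞 E) : E)) = 89 + 14 * ((sI E : 𝓞 E) : E)
  rw [map_sub, map_mul, gg_d5_s, map_ofNat, map_ofNat]; ring

theorem act_d7_ga : act d7 (ga E) = gb E := by
  apply Units.ext
  rw [coe_ug]
  change gg E d7 (89 + 14 * ((sI E : 𝓞 E) : E)) = 89 - 14 * ((sI E : 𝓞 E) : E)
  rw [map_add, map_mul, gg_d7_s, map_ofNat, map_ofNat]; ring

theorem act_d7_gb : act d7 (gb E) = ga E := by
  apply Units.ext
  rw [coe_ug]
  change gg E d7 (89 - 14 * ((sI E : 𝓞 E) : E)) = 89 + 14 * ((sI E : 𝓞 E) : E)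
  rw [map_sub, map_mul, gg_d7_s, map_ofNat, map_ofNat]; ring

theorem act_sg_ga : act sg (ga E) = ga E := by
  apply Units.ext
  rw [coe_ug]
  change gg E sg (89 + 14 * ((sI E : 𝓞 E) : E)) = 89 + 14 * ((sI E : 𝓞 E) : E)
  rw [map_add, map_mul, gg_sg_s, map_ofNat, map_ofNat]

theorem act_sg_gb : act sg (gb E) = gb E := by
  apply Units.ext
  rw [coe_ug]
  change gg E sg (89 - 14 * ((sI E : 𝓞 E) : E)) = 89 - 14 * ((sI E : 𝓞 E) : E)
  rw [map_sub, map_mul, gg_sg_s, map_ofNat, map_ofNat]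

end gamma

section t12

variable {E : Type} [Field E] [NumberField E] [IsCyclotomicExtension {MM} ℚ E]

theorem cc_sg (x : Eˣ) : cc (act sg x) = cc x + aa x := by
  unfold cc aa
  rw [lc_inert sg m12_sg, lam_mul, lam_zpow, mL_sg, lam_six, mul_one]

theorem aa_sg (x : Eˣ) : aa (act sg x) = aa x := by
  unfold aa
  rw [ord_inert sg m12_sg]

theorem aa_of_IU {x : Eˣ} (h : IU x) : aa x = 0 := by
  unfold aa
  rw [h (Wp E)]; rfl

theorem GoodU.cc_mon {u : Eˣ} (hu : GoodU u) (a b c : ℤ) : cc (mon u a b c) = 0 := by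
  unfold mon
  rw [cc_mul, cc_mul, cc_zpow, cc_zpow, cc_zpow, cc_sg (act sg u), cc_sg u, aa_sg, hu.c,
    aa_of_IU hu.v.iu]
  ring

theorem zmod3_ne (m : ℤ) (hm : ¬ (3 ∣ m)) : (m : ZMod 3) ≠ 0 := by
  intro h
  exact hm ((ZMod.intCast_zmod_eq_zero_iff_dvd m 3).1 h)

theorem zmod3_two (x : ZMod 3) (h : 2 * x = 0) : x = 0 := by
  revert x; decide

/-- the cubic symbols of all units of the second type vanish -/
theorem cc_V {v : Eˣ} (hv : V v) : cc v = 0 := by
  obtain ⟨u, hu⟩ := exists_goodU E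
  obtain ⟨m, a, b, c, hm, h⟩ := hu.generates hv
  have h1 := congrArg cc h
  rw [cc_pow, cc_mul, hu.cc_mon, cc_one, cc_zpow, add_zero] at h1
  have h2 := zmod3_two _ h1
  rcases mul_eq_zero.1 h2 with h3 | h3
  · exact absurd h3 (zmod3_ne m hm)
  · exact h3

omit [NumberField E] [IsCyclotomicExtension {MM} ℚ E] in
theorem cancel3 (p q y : Eˣ) : p * y⁻¹ * (q * p⁻¹) * (y * q⁻¹) = 1 := by
  apply Units.ext
  push_cast
  field_simp

theorem t12_AW (y : Eˣ) (hS : SU y) (h5 : act d5 y = y⁻¹) (h7 : act d7 y = y⁻¹) : AW y := by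
  intro P hP
  by_cases hM : (MM : 𝓞 E) ∈ P.asIdeal
  · rcases prime_cases P hM with h | h | h
    · have h1 := ord_two P h y
      rw [h7, ord_inv] at h1
      omega
    · have h1 := ord_three P h y
      rw [h5, ord_inv] at h1
      omega
    · exact absurd h hP
  · exact hS P hM

theorem t12 (y : Eˣ) (hS : SU y) (h5 : act d5 y = y⁻¹) (h7 : act d7 y = y⁻¹)
    (ht : act (sg ^ 3) y = y) : aa y = 0 ∧ cc y = 0 := by
  have hA : AW y := t12_AW y hS h5 h7
  obtain ⟨u, hu⟩ := exists_goodU E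
  set v := act sg y * y⁻¹ with hv
  have hvV : V v := by
    refine ⟨IU_quot hA, ?_, ?_, ?_⟩
    · rw [hv, map_mul, map_inv, act_comm, h5, map_inv, inv_inv, mul_inv_rev, inv_inv, mul_comm]
    · rw [hv, map_mul, map_inv, act_comm, h7, map_inv, inv_inv, mul_inv_rev, inv_inv, mul_comm]
    · rw [hv, map_mul, map_inv, act_comm, ht]
  have hay : aa y = 0 := by rw [← cc_V hvV, hv, cc_quot]
  refine ⟨hay, ?_⟩
  obtain ⟨m, a, b, c, hm, h⟩ := hu.generates hvV
  have hvk : v ^ (2 * m) = mon u (-(2 * a)) (-(2 * b)) (-(2 * c)) := by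
    rw [← mon_inv, eq_inv_iff_mul_eq_one, mul_comm 2 m, zpow_mul, mul_comm 2 a, mul_comm 2 b,
      mul_comm 2 c, ← mon_zpow, ← mul_zpow]
    exact h
  have hnv : nm v = 1 := by
    unfold nm
    rw [hv, map_mul, map_inv, map_mul, map_inv, act_sg3 ht]
    exact cancel3 _ _ _
  have hsum : a + b + c = 0 := by
    have h1 := congrArg nm hvk
    rw [nm_zpow, hnv, one_zpow] at h1
    have h2 : nm (mon u (-(2 * a)) (-(2 * b)) (-(2 * c))) = nm u ^ (-(2 * (a + b + c))) := by
      unfold mon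
      rw [nm_mul, nm_mul, nm_zpow, nm_zpow, nm_zpow, nm_sg hu.v.sg.ht, nm_sg hu.v.ht, ← zpow_add,
        ← zpow_add]
      congr 1; ring
    rw [h2] at h1
    have h3 := hu.zpow_ne _ (by rw [← h1, one_pow])
    omega
  obtain ⟨Y, hY⟩ : ∃ Y : Eˣ, Y = mon u (2 * a) (-(2 * c)) 0 := ⟨_, rfl⟩
  have hYV : V Y := by rw [hY]; exact hu.v.mon _ _ _
  have hsY : act sg Y * Y⁻¹ = v ^ (2 * m) := by
    rw [hvk, hY, sg_mon hu.v.ht, mon_inv, mon_mul]
    congr 1 <;> omega
  obtain ⟨z, hz⟩ : ∃ z : Eˣ, z = y ^ (2 * m) * Y⁻¹ := ⟨_, rfl⟩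
  have hzs : act sg z = z := by
    have h1 : act sg y = v * y := by rw [hv]; group
    have h2 : act sg Y = v ^ (2 * m) * Y := by rw [← hsY]; group
    rw [hz, map_mul, map_inv, map_zpow, h1, h2, mul_zpow, mul_inv]
    rw [mul_mul_mul_comm, mul_inv_cancel, one_mul]
  obtain ⟨t, ht'⟩ := exists_ord_of_fixed z hzs
  obtain ⟨T, hT⟩ : ∃ T : Eˣ, T = z * (gb E / ga E) ^ t := ⟨_, rfl⟩
  have hz5 : act d5 z = z⁻¹ := by
    rw [hz, map_mul, map_zpow, map_inv, h5, hYV.h5, mul_inv, inv_zpow, inv_inv]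
  have hz7 : act d7 z = z⁻¹ := by
    rw [hz, map_mul, map_zpow, map_inv, h7, hYV.h7, mul_inv, inv_zpow, inv_inv]
  have hTA : AW T := by
    rw [hT, hz]
    exact ((hA.zpow _).mul hYV.iu.inv.aw).mul
      (AW.zpow (by rw [div_eq_mul_inv]; exact AW_gb.mul AW_ga.inv) t)
  have hTo : ord (wv E) T = 0 := by
    rw [hT, ord_mul, ord_zpow, div_eq_mul_inv, ord_mul, ord_inv, ord_ga, ord_gb, ht']; ring
  have hT5 : act d5 T = T⁻¹ := by
    rw [hT, map_mul, map_zpow, _root_.map_div, act_d5_ga, act_d5_gb, hz5, mul_inv, ← inv_zpow,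
      inv_div]
  have hT7 : act d7 T = T⁻¹ := by
    rw [hT, map_mul, map_zpow, _root_.map_div, act_d7_ga, act_d7_gb, hz7, mul_inv, ← inv_zpow,
      inv_div]
  have hTs : act sg T = T := by
    rw [hT, map_mul, map_zpow, _root_.map_div, act_sg_ga, act_sg_gb, hzs]
  have hTV : V T := ⟨IU_of_sym hTA hTo (Or.inr hT5) (Or.inr hT7) hTs, hT5, hT7,
    act_pow_fix _ _ hTs 3⟩
  have hcT := cc_V hTV
  have hcY := cc_V hYV
  rw [hT, cc_mul, cc_zpow, div_eq_mul_inv, cc_mul, cc_inv, cc_ga, cc_gb, hz, cc_mul, cc_zpow,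
    cc_inv, hcY] at hcT
  have h1 : ((2 * m : ℤ) : ZMod 3) * cc y = 0 := by linear_combination hcT
  rcases mul_eq_zero.1 h1 with h2 | h2
  · exact absurd h2 (zmod3_ne _ (by omega))
  · exact h2

end t12

section core

variable {E : Type} [Field E] [NumberField E] [IsCyclotomicExtension {MM} ℚ E]

/-- the product of the conjugates under `sg ^ 3` -/
noncomputable def avg (x : Eˣ) : Eˣ := ∏ i ∈ Finset.range 2444, act ((sg ^ 3) ^ i) x

theorem sg_order : (sg ^ 3) ^ 2444 = 1 := by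
  rw [← pow_mul]
  apply eq_one_of_m12_mL
  · rw [map_pow, m12_sg, one_pow]
  · rw [map_pow, mL_sg, show 3 * 2444 = orderOf six by rw [orderOf_six], pow_orderOf_eq_one]

theorem act_avg (a : (ZMod MM)ˣ) (x : Eˣ) : act a (avg x) = avg (act a x) := by
  unfold avg
  rw [map_prod]
  apply Finset.prod_congr rfl
  intro i _
  rw [act_comm]

theorem tau_avg (x : Eˣ) : act (sg ^ 3) (avg x) = avg x := by
  unfold avg
  rw [map_prod]
  have h : ∀ i, act (sg ^ 3) (act ((sg ^ 3) ^ i) x) = act ((sg ^ 3) ^ (i + 1)) x := by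
    intro i
    rw [← act_mul, ← pow_succ']
  simp only [h]
  have h1 := Finset.prod_range_succ' (fun i => act ((sg ^ 3) ^ i) x) 2444
  have h2 := Finset.prod_range_succ (fun i => act ((sg ^ 3) ^ i) x) 2444
  rw [h1] at h2
  simp only [sg_order, pow_zero] at h2
  exact mul_right_cancel h2

theorem SU_prod {ι : Type} (s : Finset ι) (f : ι → Eˣ) (h : ∀ i, SU (f i)) :
    SU (∏ i ∈ s, f i) := by
  classical
  induction s using Finset.induction_on with
  | empty => rw [Finset.prod_empty]; exact fun P _ => ord_one _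
  | insert a s ha ih => rw [Finset.prod_insert ha]; exact (h a).mul ih

theorem cc_prod {ι : Type} (s : Finset ι) (f : ι → Eˣ) :
    cc (∏ i ∈ s, f i) = ∑ i ∈ s, cc (f i) := by
  classical
  induction s using Finset.induction_on with
  | empty => rw [Finset.prod_empty, Finset.sum_empty, cc_one]
  | insert a s ha ih => rw [Finset.prod_insert ha, Finset.sum_insert ha, cc_mul, ih]

theorem aa_prod {ι : Type} (s : Finset ι) (f : ι → Eˣ) :
    aa (∏ i ∈ s, f i) = ∑ i ∈ s, aa (f i) := by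
  classical
  induction s using Finset.induction_on with
  | empty => rw [Finset.prod_empty, Finset.sum_empty, aa_one]
  | insert a s ha ih => rw [Finset.prod_insert ha, Finset.sum_insert ha, aa_mul, ih]

theorem cc_avg (x : Eˣ) : cc (avg x) = 2 * cc x := by
  unfold avg
  rw [cc_prod]
  have h : ∀ i ∈ Finset.range 2444, cc (act ((sg ^ 3) ^ i) x) = cc x := by
    intro i _
    unfold cc
    rw [lc_inert _ (by rw [map_pow, map_pow, m12_sg, one_pow, one_pow]), lam_mul, lam_zpow,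
      map_pow, map_pow, mL_sg, lam_pow, lam_pow, lam_six]
    have : ((3 : ℕ) : ZMod 3) = 0 := by decide
    rw [this]; ring
  rw [Finset.sum_congr rfl h, Finset.sum_const, Finset.card_range, nsmul_eq_mul]
  congr 1

theorem aa_avg (x : Eˣ) : aa (avg x) = 2 * aa x := by
  unfold avg
  rw [aa_prod]
  have h : ∀ i ∈ Finset.range 2444, aa (act ((sg ^ 3) ^ i) x) = aa x := by
    intro i _
    unfold aa
    rw [ord_inert _ (by rw [map_pow, map_pow, m12_sg, one_pow, one_pow])]
  rw [Finset.sum_congr rfl h, Finset.sum_const, Finset.card_range, nsmul_eq_mul]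
  congr 1

theorem avg_inv (x : Eˣ) : avg x⁻¹ = (avg x)⁻¹ := by
  unfold avg
  simp only [map_inv, Finset.prod_inv_distrib]

theorem SU_avg {x : Eˣ} (h : SU x) : SU (avg x) := SU_prod _ _ (fun _ => h.ug _)

theorem core_neg (z : Eˣ) (hS : SU z) (h7 : act d7 z = z⁻¹) : aa z = 0 ∧ cc z = 0 := by
  have hdd : act d5 (act d5 z) = z := by rw [← act_mul, d5_sq, act_one]
  have hS5 : SU (act d5 z) := hS.ug _
  have key1 : aa (z * act d5 z) = 0 ∧ cc (z * act d5 z) = 0 := by
    have h := t4 (avg (z * act d5 z)) (SU_avg (hS.mul hS5))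
      (by rw [act_avg, map_mul, hdd, mul_comm])
      (by rw [act_avg, ← avg_inv, map_mul, act_comm d7 d5, h7, map_inv, mul_inv]) (tau_avg _)
    rw [cc_avg, aa_avg] at h
    exact ⟨zmod3_two _ h.1, zmod3_two _ h.2⟩
  have key2 : aa (z * (act d5 z)⁻¹) = 0 ∧ cc (z * (act d5 z)⁻¹) = 0 := by
    have h := t12 (avg (z * (act d5 z)⁻¹)) (SU_avg (hS.mul hS5.inv))
      (by rw [act_avg, ← avg_inv, map_mul, map_inv, hdd, mul_inv_rev, inv_inv])
      (by rw [act_avg, ← avg_inv, map_mul, map_inv, act_comm d7 d5, h7, map_inv, mul_inv])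
      (tau_avg _)
    rw [cc_avg, aa_avg] at h
    exact ⟨zmod3_two _ h.1, zmod3_two _ h.2⟩
  rw [aa_mul, cc_mul] at key1
  rw [aa_mul, cc_mul, aa_inv, cc_inv] at key2
  constructor
  · apply zmod3_two; linear_combination key1.1 + key2.1
  · apply zmod3_two; linear_combination key1.2 + key2.2

/-- the key statement: `d7` acts trivially on orders and cubic symbols of `S`-units -/
theorem core (x : Eˣ) (hS : SU x) : aa (act d7 x) = aa x ∧ cc (act d7 x) = cc x := by
  have h := core_neg (x * (act d7 x)⁻¹) (hS.mul (hS.ug _).inv) (by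
    rw [map_mul, map_inv, ← act_mul, d7_sq, act_one, mul_inv_rev, inv_inv])
  rw [aa_mul, cc_mul, aa_inv, cc_inv] at h
  constructor
  · linear_combination (-1) * h.1
  · linear_combination (-1) * h.2

/-- `psi` vanishes on the symbols of `S`-units -/
theorem psi_symb (x y : Eˣ) (hx : SU x) (hy : SU y) : psi E (symb x y) = 0 := by
  rw [psi_apply, actK_symb, actK_symb, actK_symb, phiK_symb, phiK_symb, phiK_symb, phiK_symb]
  have e : ∀ z : Eˣ, ug (gg E (d5 * d7)) z = act d7 (act d5 z) := by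
    intro z
    rw [d57_comm]
    exact act_mul _ _ _
  rw [e, e]
  change phi x y - phi (act d5 x) (act d5 y) - phi (act d7 x) (act d7 y) +
    phi (act d7 (act d5 x)) (act d7 (act d5 y)) = 0
  have hx5 : SU (act d5 x) := hx.ug _
  have hy5 : SU (act d5 y) := hy.ug _
  unfold phi
  rw [(core x hx).1, (core x hx).2, (core y hy).1, (core y hy).2, (core _ hx5).1, (core _ hx5).2,
    (core _ hy5).1, (core _ hy5).2]
  ring

end core

end Pool.Agent.TH834
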