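import Mathlib
import Pool.Agent.TH834.T12
set_option autoImplicit false

/-!
An element of `K_2` of the ring of `S`-integers with non-zero image under `psi`.
-/

namespace Pool.Agent.TH834

open NumberField IsDedekindDomain HeightOneSpectrum WithZero Pool.Agent.W367.KT

section elt

variable (E : Type) [Field E] [NumberField E] [IsCyclotomicExtension {MM} ℚ E]

theorem be_mul_aux : ((5 : E) + 6 * ((sI E : 𝓞 E) : E)) * (5 - 6 * ((sI E : 𝓞 E) : E)) = -83 := by
  linear_combination (-36) * coe_sI_sq (E := E)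

theorem be_ne : (5 : E) + 6 * ((sI E : 𝓞 E) : E) ≠ 0 := by
  intro h
  have h1 := be_mul_aux E
  rw [h, zero_mul] at h1
  norm_num at h1

theorem bb_ne : (5 : E) - 6 * ((sI E : 𝓞 E) : E) ≠ 0 := by
  intro h
  have h1 := be_mul_aux E
  rw [h, mul_zero] at h1
  norm_num at h1

/-- the element `5 + 6 √3` of norm `-83` -/
noncomputable def be : Eˣ := Units.mk0 _ (be_ne E)
/-- the element `5 - 6 √3` of norm `-83` -/
noncomputable def bb : Eˣ := Units.mk0 _ (bb_ne E)

theorem coe_be : ((5 + 6 * sI E : 𝓞 E) : E) = (be E : E) := by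
  change algebraMap (𝓞 E) E (5 + 6 * sI E) = 5 + 6 * algebraMap (𝓞 E) E (sI E)
  simp only [map_add, map_mul, map_ofNat]

theorem coe_bb : ((5 - 6 * sI E : 𝓞 E) : E) = (bb E : E) := by
  change algebraMap (𝓞 E) E (5 - 6 * sI E) = 5 - 6 * algebraMap (𝓞 E) E (sI E)
  simp only [map_sub, map_mul, map_ofNat]

theorem rho_be : rho E (5 + 6 * sI E) = 2062 := by
  rw [map_add, map_mul, rho_sI, map_ofNat, map_ofNat]; decide

theorem rho_bb : rho E (5 - 6 * sI E) = 5281 := by
  rw [map_sub, map_mul, rho_sI, map_ofNat, map_ofNat]; decide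

variable {E}

theorem act_d5_be : act d5 (be E) = bb E := by
  apply Units.ext
  rw [coe_ug]
  change gg E d5 (5 + 6 * ((sI E : 𝓞 E) : E)) = 5 - 6 * ((sI E : 𝓞 E) : E)
  rw [map_add, map_mul, gg_d5_s, map_ofNat, map_ofNat]; ring

theorem act_d7_be : act d7 (be E) = bb E := by
  apply Units.ext
  rw [coe_ug]
  change gg E d7 (5 + 6 * ((sI E : 𝓞 E) : E)) = 5 - 6 * ((sI E : 𝓞 E) : E)
  rw [map_add, map_mul, gg_d7_s, map_ofNat, map_ofNat]; ring

theorem act_d7_bb : act d7 (bb E) = be E := by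
  apply Units.ext
  rw [coe_ug]
  change gg E d7 (5 - 6 * ((sI E : 𝓞 E) : E)) = 5 + 6 * ((sI E : 𝓞 E) : E)
  rw [map_sub, map_mul, gg_d7_s, map_ofNat, map_ofNat]; ring

theorem aa_be : aa (be E) = 0 := by
  unfold aa
  rw [ord_eq_zero_of_not_mem (Wp E) _ _ (coe_be E)]
  · rfl
  · rw [mem_Wp, rho_be]; decide

theorem aa_bb : aa (bb E) = 0 := by
  unfold aa
  rw [ord_eq_zero_of_not_mem (Wp E) _ _ (coe_bb E)]
  · rfl
  · rw [mem_Wp, rho_bb]; decide

theorem cc_be : cc (be E) = 2 := by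
  unfold cc
  apply lam_eq
  rw [lc_int _ (by rw [rho_be]; decide) _ (coe_be E).symm, rho_be]
  have h := pow_eval 2062 2444 3062 (by decide +kernel)
  have h1 : ((2062 : ℕ) : ZMod LL) = 2062 := rfl
  rw [← h1, h]; decide

theorem cc_bb : cc (bb E) = 1 := by
  unfold cc
  apply lam_eq
  rw [lc_int _ (by rw [rho_bb]; decide) _ (coe_bb E).symm, rho_bb]
  have h := pow_eval 5281 2444 4270 (by decide +kernel)
  have h1 : ((5281 : ℕ) : ZMod LL) = 5281 := rfl
  rw [← h1, h]; decide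

theorem act_d5_eta : act d5 (eta E) = eta E := by
  apply Units.ext
  rw [coe_ug, coe_eta, ← coe_intEquiv]
  unfold etaI
  rw [map_sub, map_one, int_d5_z]

theorem act_d7_eta : act d7 (eta E) = eta E := by
  apply Units.ext
  rw [coe_ug, coe_eta, ← coe_intEquiv]
  unfold etaI
  rw [map_sub, map_one, int_d7_z]

theorem psi_elt : psi E (symb (eta E) (be E)) = 1 := by
  rw [psi_apply, actK_symb, actK_symb, actK_symb, phiK_symb, phiK_symb, phiK_symb, phiK_symb]
  have e : ∀ z : Eˣ, ug (gg E (d5 * d7)) z = act d7 (act d5 z) := by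
    intro z
    rw [d57_comm]
    exact act_mul _ _ _
  rw [e, e]
  change phi (eta E) (be E) - phi (act d5 (eta E)) (act d5 (be E)) -
    phi (act d7 (eta E)) (act d7 (be E)) +
    phi (act d7 (act d5 (eta E))) (act d7 (act d5 (be E))) = 1
  rw [act_d5_eta, act_d7_eta, act_d5_be, act_d7_be, act_d7_bb]
  unfold phi
  have h1 : cc (eta E) = 0 := by unfold cc; rw [lc_eta, lam_one]
  have h2 : aa (eta E) = 1 := by unfold aa; rw [ord_eta]; rfl
  rw [h1, h2, aa_be, aa_bb, cc_be, cc_bb]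
  decide

end elt

section mem

variable {E : Type} [Field E] [NumberField E] [IsCyclotomicExtension {MM} ℚ E]

theorem zt_mem : zt E ∈ cycRing E MM :=
  Subring.subset_closure (Or.inl (zt_spec E).pow_eq_one)

omit [NumberField E] [IsCyclotomicExtension {MM} ℚ E] in
theorem inv_mem : ((MM : ℕ) : E)⁻¹ ∈ cycRing E MM := Subring.subset_closure (Or.inr rfl)

theorem eta_mem : ((eta E : Eˣ) : E) ∈ cycRing E MM := by
  rw [coe_eta']
  exact sub_mem (one_mem _) (pow_mem zt_mem _)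

theorem coe_sI : ((sI E : 𝓞 E) : E) = zt E ^ 7333 - (zt E ^ 7333) ^ 5 := by
  unfold sI kI
  simp only [csub, cpow, coe_ztI]

theorem sI_mem : ((sI E : 𝓞 E) : E) ∈ cycRing E MM := by
  rw [coe_sI]
  exact sub_mem (pow_mem zt_mem _) (pow_mem (pow_mem zt_mem _) _)

theorem be_mem : ((be E : Eˣ) : E) ∈ cycRing E MM := by
  change (5 : E) + 6 * ((sI E : 𝓞 E) : E) ∈ _
  exact add_mem (ofNat_mem _ 5) (mul_mem (ofNat_mem _ 6) sI_mem)

theorem bb_mem : ((bb E : Eˣ) : E) ∈ cycRing E MM := by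
  change (5 : E) - 6 * ((sI E : 𝓞 E) : E) ∈ _
  exact sub_mem (ofNat_mem _ 5) (mul_mem (ofNat_mem _ 6) sI_mem)

/-- `η` divides 7333 in the ring -/
theorem eta_dvd : ∃ c ∈ cycRing E MM, ((eta E : Eˣ) : E) * c = 7333 := by
  refine ⟨∑ j ∈ Finset.range LL, ∑ i ∈ Finset.range j, (zt E ^ 12) ^ i, ?_, ?_⟩
  · exact sum_mem (fun j _ => sum_mem (fun i _ => pow_mem (pow_mem zt_mem _) _))
  · have hprim : IsPrimitiveRoot (zt E ^ 12) LL := (zt_spec E).pow (by norm_num) (by norm_num)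
    have h1 := hprim.geom_sum_eq_zero (by norm_num)
    rw [coe_eta', Finset.mul_sum]
    have h2 : ∀ j ∈ Finset.range LL, (1 - zt E ^ 12) * ∑ i ∈ Finset.range j, (zt E ^ 12) ^ i =
        1 - (zt E ^ 12) ^ j := fun j _ => mul_neg_geom_sum _ _
    rw [Finset.sum_congr rfl h2, Finset.sum_sub_distrib, h1, Finset.sum_const, Finset.card_range]
    norm_num

theorem v_eta (v : Valuation E ℤᵐ⁰) (hA : ∀ x ∈ cycRing E MM, v x ≤ 1) :
    v ((eta E : Eˣ) : E) = 1 := by
  obtain ⟨c, hc, h⟩ := eta_dvd (E := E)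
  have h1 : ((eta E : Eˣ) : E) * (c * (12 * ((MM : ℕ) : E)⁻¹)) = 1 := by
    rw [← mul_assoc, h, ← mul_assoc]
    have : ((MM : ℕ) : E) = 7333 * 12 := by norm_num
    rw [this]
    exact mul_inv_cancel₀ (by norm_num)
  have h2 : v ((eta E : Eˣ) : E) * v (c * (12 * ((MM : ℕ) : E)⁻¹)) = 1 := by
    rw [← map_mul, h1, map_one]
  exact eq_one_of_one_le_mul_left (hA _ eta_mem)
    (hA _ (mul_mem hc (mul_mem (ofNat_mem _ 12) inv_mem))) h2.ge

/-- the congruence `η ^ (83 ^ 1833) ≡ η` modulo 83 -/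
theorem eta_frob : ∃ r ∈ cycRing E MM,
    ((eta E : Eˣ) : E) ^ (83 ^ 1833) = ((eta E : Eˣ) : E) + 83 * r := by
  have hp : Nat.Prime 83 := by norm_num
  obtain ⟨r, hr⟩ := exists_add_pow_prime_pow_eq hp (1 : cycRing E MM)
    (-⟨zt E ^ 12, pow_mem zt_mem _⟩) 1833
  have hodd : Odd (83 ^ 1833) := Odd.pow (by decide)
  have hr' := congrArg (Subring.subtype (cycRing E MM)) hr
  simp only [map_add, map_mul, map_pow, map_neg, map_one, map_natCast] at hr'
  have hroot : (zt E ^ 12) ^ (83 ^ 1833) = zt E ^ 12 := by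
    have h1 : (zt E ^ 12) ^ LL = 1 := by
      rw [← pow_mul]; exact (zt_spec E).pow_eq_one
    rw [pow_eq_pow_mod (83 ^ 1833) h1, show 83 ^ 1833 % LL = 1 by decide +kernel, pow_one]
  refine ⟨(((1 : cycRing E MM) * (-⟨zt E ^ 12, pow_mem zt_mem _⟩) * r : cycRing E MM) : E),
    SetLike.coe_mem _, ?_⟩
  have e1 : ((eta E : Eˣ) : E) = 1 + -(zt E ^ 12) := by rw [coe_eta']; ring
  have hr2 : (1 + -(zt E ^ 12)) ^ (83 ^ 1833) = 1 ^ (83 ^ 1833) + (-(zt E ^ 12)) ^ (83 ^ 1833) +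
      ((83 : ℕ) : E) * 1 * (-(zt E ^ 12)) * (r : E) := hr'
  rw [e1, hr2, one_pow, hodd.neg_pow, hroot]
  push_cast
  ring

/-- the exponent -/
def KK : ℕ := 83 ^ 1833 - 1

theorem KK_succ : KK + 1 = 83 ^ 1833 := Nat.sub_add_cancel (Nat.one_le_pow _ _ (by norm_num))

theorem KK_mod : (KK : ZMod 3) = 1 := by
  have h : ((KK + 1 : ℕ) : ZMod 3) = ((83 ^ 1833 : ℕ) : ZMod 3) := by rw [KK_succ]
  have h2 : ((83 ^ 1833 : ℕ) : ZMod 3) = ((2 : ℕ) : ZMod 3) :=
    (ZMod.natCast_eq_natCast_iff' _ _ 3).2 (by decide +kernel)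
  rw [h2] at h
  push_cast at h
  have h3 : (2 : ZMod 3) = 1 + 1 := by decide
  rw [h3] at h
  exact add_right_cancel h

theorem v_eta_pow (v : Valuation E ℤᵐ⁰) (hA : ∀ x ∈ cycRing E MM, v x ≤ 1) :
    v (((eta E : Eˣ) : E) ^ KK - 1) ≤ v 83 := by
  obtain ⟨r, hr, h⟩ := eta_frob (E := E)
  have h1 : ((eta E : Eˣ) : E) * (((eta E : Eˣ) : E) ^ KK - 1) = 83 * r := by
    have h2 : ((eta E : Eˣ) : E) ^ (KK + 1) = ((eta E : Eˣ) : E) + 83 * r := by
      rw [KK_succ]; exact h
    rw [pow_succ] at h2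
    linear_combination h2
  have h2 := congrArg v h1
  rw [map_mul, v_eta v hA, one_mul, map_mul] at h2
  rw [h2]
  exact mul_le_of_le_one_right' (hA r hr)

theorem elt_mem : KK • symb (eta E) (be E) ∈ K2ring (cycRing E MM) := by
  unfold K2ring
  rw [AddSubgroup.mem_iInf]
  intro v
  rw [AddSubgroup.mem_iInf]
  intro hv
  rw [AddSubgroup.mem_iInf]
  intro hA
  rw [AddMonoidHom.mem_ker, map_nsmul]
  have h1 : tame v (symb (eta E) (be E)) = Additive.ofMul (tameRes v (eta E) (be E)) := rfl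
  rw [h1, ← ofMul_pow]
  have h2 : tameRes v (eta E) (be E) ^ KK = 1 := by
    rw [tameRes_pow_eq_one_iff]
    have he : ord v (eta E) = 0 := by
      rw [ord_eq_iff, v_eta v hA]; simp
    have hb : v ((be E : Eˣ) : E) ≤ 1 := hA _ be_mem
    have hn : 0 ≤ ord v (be E) := by
      rw [val_eq, ← WithZero.exp_zero, WithZero.exp_le_exp] at hb
      omega
    obtain ⟨n, hn⟩ := Int.eq_ofNat_of_zero_le hn
    have ht : tameElt v (eta E) (be E) = eta E ^ n := by
      unfold tameElt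
      rw [he, hn]; simp
    rw [ht]
    rcases Nat.eq_zero_or_pos n with h0 | h0
    · rw [h0, pow_zero, one_pow, Units.val_one, sub_self, map_zero]
      exact zero_lt_one
    · have hvb : v ((be E : Eˣ) : E) < 1 := by
        rw [val_eq, ← WithZero.exp_zero, WithZero.exp_lt_exp]; omega
      have h83 : v (83 : E) < 1 := by
        have h3 : (83 : E) = - (((be E : Eˣ) : E) * ((bb E : Eˣ) : E)) := by
          have := be_mul_aux E
          change _ = -(((5 : E) + 6 * ((sI E : 𝓞 E) : E)) * (5 - 6 * ((sI E : 𝓞 E) : E)))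
          rw [this]; ring
        rw [h3, Valuation.map_neg, map_mul]
        exact mul_lt_one_of_lt_of_le hvb (hA _ bb_mem)
      have h4 := (v_eta_pow v hA).trans_lt h83
      have h5 : (((eta E ^ n) ^ KK : Eˣ) : E) - 1 = (((eta E : Eˣ) : E) ^ KK - 1) *
          ∑ i ∈ Finset.range n, (((eta E : Eˣ) : E) ^ KK) ^ i := by
        rw [mul_geom_sum, Units.val_pow_eq_pow_val, Units.val_pow_eq_pow_val, ← pow_mul,
          ← pow_mul, mul_comm]
      rw [h5, map_mul]
      exact mul_lt_one_of_lt_of_le h4 (hA _ (sum_mem (fun i _ => pow_mem (pow_mem eta_mem _) _)))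
  rw [h2]; rfl

theorem psi_elt_smul : psi E (KK • symb (eta E) (be E)) = 1 := by
  rw [map_nsmul, psi_elt, nsmul_eq_mul, KK_mod, one_mul]

/-- units of the ring `ℤ[ζ, 1/M]` are `S`-units -/
theorem SU_of_mem (u : Eˣ) (h1 : (u : E) ∈ cycRing E MM) (h2 : ((u⁻¹ : Eˣ) : E) ∈ cycRing E MM) :
    SU u := by
  intro P hP
  have key : ∀ x ∈ cycRing E MM, P.valuation E x ≤ 1 := by
    intro x hx
    refine Subring.closure_induction (p := fun x _ => P.valuation E x ≤ 1) ?_ ?_ ?_ ?_ ?_ ?_ hx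
    · rintro x (hx | hx)
      · have h3 : (P.valuation E x) ^ MM = 1 := by
          rw [← map_pow, hx, map_one]
        exact (pow_eq_one_iff_of_nonneg zero_le (by norm_num)).1 h3 |>.le
      · rw [Set.mem_singleton_iff] at hx
        rw [hx, map_inv₀]
        have h3 : P.valuation E ((MM : ℕ) : E) = 1 := by
          have h4 := ord_eq_zero_of_not_mem P (MM : 𝓞 E)
            (Units.mk0 ((MM : ℕ) : E) (Nat.cast_ne_zero.2 (by norm_num)))
            (by rw [map_natCast]; rfl) hP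
          rw [ord_eq_iff] at h4
          simpa using h4
        rw [h3, inv_one]
    · rw [map_zero]; exact zero_le
    · rw [map_one]
    · intro x y _ _ hx hy
      exact (Valuation.map_add _ _ _).trans (max_le hx hy)
    · intro x _ hx
      rw [Valuation.map_neg]; exact hx
    · intro x y _ _ hx hy
      rw [map_mul]; exact mul_le_one' hx hy
  have e1 := key _ h1
  have e2 := key _ h2
  rw [val_eq, ← WithZero.exp_zero, WithZero.exp_le_exp] at e1 e2
  rw [ord_inv] at e2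
  omega

end mem

end Pool.Agent.TH834
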