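import Mathlib
import Pool.Agent.TH834.Elt
set_option autoImplicit false

/-!
The character `θ` of conductor `87996` and the residue map.
-/

namespace Pool.Agent.TH834

open NumberField IsDedekindDomain HeightOneSpectrum WithZero Pool.Agent.W367.KT
open scoped TensorProduct

/-- the field `\bar ℚ_3` -/
abbrev Kb : Type := AlgebraicClosure ℚ_[3]

/-- the quadratic character of conductor 12 -/
def chi12 : (ZMod 12)ˣ →* ℤˣ where
  toFun u := if u = 1 ∨ u = -1 then 1 else -1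
  map_one' := by decide
  map_mul' := by decide

theorem chi12_d5 : chi12 (m12 d5) = -1 := by rw [m12_d5]; decide
theorem chi12_d7 : chi12 (m12 d7) = -1 := by rw [m12_d7]; decide

section act

variable {E : Type} [Field E] [NumberField E] [IsCyclotomicExtension {MM} ℚ E]

theorem psi_act (a : (ZMod MM)ˣ) (z : K2 E) :
    psi E (actK a z) = (((chi12 (m12 a) : ℤˣ) : ℤ) : ZMod 3) * psi E z := by
  obtain ⟨h, hh, hcase⟩ := exists_decomp a
  rcases hcase with rfl | rfl | rfl | rfl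
  · rw [psi_inert _ hh, hh, map_one]; simp
  · rw [actK_mul, psi_d5, psi_inert _ hh, map_mul, hh, mul_one, chi12_d5]; simp
  · rw [actK_mul, psi_d7, psi_inert _ hh, map_mul, hh, mul_one, chi12_d7]; simp
  · rw [actK_mul, actK_mul, psi_d5, psi_d7, psi_inert _ hh, map_mul, hh, mul_one, map_mul, map_mul,
      chi12_d5, chi12_d7]; simp

theorem eq_gg (g : E ≃ₐ[ℚ] E) (a : (ZMod MM)ˣ)
    (h : ∀ ζ : E, ζ ^ MM = 1 → g ζ = ζ ^ (a : ZMod MM).val) : g = gg E a := by
  obtain ⟨b, rfl⟩ := exists_gg g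
  congr 1
  have h1 := h (zt E) (zt_spec E).pow_eq_one
  rw [gg_zt] at h1
  have h2 := (zt_spec E).pow_inj (ZMod.val_lt _) (ZMod.val_lt _) h1
  exact Units.ext (ZMod.val_injective _ h2)

end act

theorem exists_root : ∃ w : Kbˣ, IsPrimitiveRoot (w : Kb) 3 := by
  obtain ⟨w, hw⟩ := HasEnoughRootsOfUnity.exists_primitiveRoot Kb 3
  exact ⟨(hw.isUnit (by norm_num)).unit, hw⟩

/-- a primitive cube root of unity -/
noncomputable def wb : Kbˣ := exists_root.choose

theorem wb_spec : IsPrimitiveRoot (wb : Kb) 3 := exists_root.choose_spec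

theorem wb_cube : wb ^ 3 = 1 := Units.ext (by
  rw [Units.val_pow_eq_pow_val, wb_spec.pow_eq_one]; rfl)

/-- the character as a homomorphism -/
noncomputable def thH : (ZMod MM)ˣ →* Kbˣ :=
  MonoidHom.mk' (fun a => (Units.map (Int.castRingHom Kb : ℤ →* Kb) (chi12 (m12 a))) *
    wb ^ (lam (mL a)).val) (fun a b => by
      rw [map_mul, map_mul, map_mul, map_mul, lam_mul, pow_val_add wb wb_cube]
      exact mul_mul_mul_comm _ _ _ _)

/-- the character `θ` -/
noncomputable def th : DirichletCharacter Kb MM := MulChar.ofUnitHom thH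

theorem th_coe (a : (ZMod MM)ˣ) : th (a : ZMod MM) =
    (((chi12 (m12 a) : ℤˣ) : ℤ) : Kb) * (wb : Kb) ^ (lam (mL a)).val := by
  unfold th
  rw [MulChar.ofUnitHom_coe]
  unfold thH
  simp

theorem th_pow_six (a : (ZMod MM)ˣ) : th (a : ZMod MM) ^ 6 = 1 := by
  rw [th_coe, mul_pow, ← pow_mul, mul_comm _ 6, show 6 = 3 * 2 by norm_num, mul_assoc 3 2,
    pow_mul (wb : Kb) 3, wb_spec.pow_eq_one, one_pow, mul_one]
  rcases Int.units_eq_one_or (chi12 (m12 a)) with h | h <;> rw [h] <;> norm_num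

theorem th_cube (a : (ZMod MM)ˣ) :
    th (a : ZMod MM) ^ 3 = (((chi12 (m12 a) : ℤˣ) : ℤ) : Kb) := by
  rw [th_coe, mul_pow, ← pow_mul, mul_comm _ 3,
    pow_mul (wb : Kb) 3, wb_spec.pow_eq_one, one_pow, mul_one]
  rcases Int.units_eq_one_or (chi12 (m12 a)) with h | h <;> rw [h] <;> norm_num

theorem th_integral (x : Kb) (hx : x ∈ Set.range th) : IsIntegral ℤ_[3] x := by
  obtain ⟨a, rfl⟩ := hx
  by_cases ha : IsUnit a
  · obtain ⟨a, rfl⟩ := ha
    apply IsIntegral.of_pow (n := 6) (by norm_num)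
    rw [th_pow_six]
    exact isIntegral_one
  · rw [MulChar.map_nonunit _ ha]
    exact isIntegral_zero

theorem exists_max' : ∃ Q : Ideal (Algebra.adjoin ℤ_[3] (Set.range th)), Q.IsMaximal ∧
    (3 : Algebra.adjoin ℤ_[3] (Set.range th)) ∈ Q := by
  have hint : Algebra.IsIntegral ℤ_[3] (Algebra.adjoin ℤ_[3] (Set.range th)) :=
    Algebra.IsIntegral.adjoin th_integral
  have hinj : Function.Injective
      (algebraMap ℤ_[3] (Algebra.adjoin ℤ_[3] (Set.range th))) := by
    have h1 : Function.Injective (algebraMap ℤ_[3] Kb) := by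
      rw [IsScalarTower.algebraMap_eq ℤ_[3] ℚ_[3] Kb]
      exact (algebraMap ℚ_[3] Kb).injective.comp (IsFractionRing.injective ℤ_[3] ℚ_[3])
    intro x y hxy
    apply h1
    exact congrArg (fun t : Algebra.adjoin ℤ_[3] (Set.range th) => (t : Kb)) hxy
  obtain ⟨Q, hQ, hc⟩ := Ideal.exists_ideal_over_maximal_of_isIntegral
    (S := Algebra.adjoin ℤ_[3] (Set.range th)) (IsLocalRing.maximalIdeal ℤ_[3]) (by
      rw [(RingHom.injective_iff_ker_eq_bot _).1 hinj]; exact bot_le)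
  refine ⟨Q, hQ, ?_⟩
  have h3 : (3 : ℤ_[3]) ∈ IsLocalRing.maximalIdeal ℤ_[3] := by
    rw [PadicInt.maximalIdeal_eq_span_p]
    exact_mod_cast Ideal.mem_span_singleton_self ((3 : ℕ) : ℤ_[3])
  rw [← hc, Ideal.mem_comap, map_ofNat] at h3
  exact h3

theorem exists_max : ∃ Q : Ideal (ZpTheta th), Q.IsMaximal ∧ (3 : ZpTheta th) ∈ Q := exists_max'

theorem thetaVal_cube (a : (ZMod MM)ˣ) :
    (thetaVal th (a : ZMod MM)) ^ 3 = ((((chi12 (m12 a) : ℤˣ) : ℤ)) : ZpTheta th) := by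
  have h1 : ((⟨th (a : ZMod MM), Algebra.subset_adjoin (Set.mem_range_self _)⟩ :
      Algebra.adjoin ℤ_[3] (Set.range th)) ^ 3) =
      ((((chi12 (m12 a) : ℤˣ) : ℤ)) : Algebra.adjoin ℤ_[3] (Set.range th)) := by
    apply Subtype.ext
    push_cast
    exact th_cube a
  exact h1

end Pool.Agent.TH834
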