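import Mathlib
import Pool.Agent.TH834.Theta
import Pool.Agent.TH834.Gen
set_option autoImplicit false

/-!
The symbols do not generate the `θ`-part.
-/

namespace Pool.Agent.TH834

open NumberField IsDedekindDomain HeightOneSpectrum WithZero Pool.Agent.W367.KT

section final

variable (E : Type) [Field E] [NumberField E] [IsCyclotomicExtension {MM} ℚ E]

/-- `psi` on `K_2` of the ring -/
noncomputable def psiO : K2O MM E →+ ZMod 3 where
  toFun x := psi E (K2val x)
  map_zero' := map_zero (psi E)
  map_add' x y := map_add (psi E) (K2val x) (K2val y)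

/-- the element of `K_2` of the ring -/
noncomputable def zz : K2O MM E := ⟨KK • symb (eta E) (be E), elt_mem⟩

theorem not_generate : ¬ SymbolsGenerate th E := by
  obtain ⟨Q, hQ, h3⟩ := exists_max
  apply not_generates Q hQ h3 (galRel th E) (symbolSet MM E) (psiO E) ?_ ?_ (zz E) ?_
  · rintro x y c ⟨g, a, hg, hy, rfl⟩
    refine ⟨chi12 (m12 a), thetaVal_cube a, ?_⟩
    change psi E (K2val y) = _ * psi E (K2val x)
    rw [hy, eq_gg g a hg]
    exact psi_act a (K2val x)
  · rintro x ⟨u, v, hu, hu', hv, hv', hx⟩
    change psi E (K2val x) = 0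
    rw [hx]
    exact psi_symb u v (SU_of_mem u hu hu') (SU_of_mem v hv hv')
  · exact psi_elt_smul

end final

end Pool.Agent.TH834
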