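import Mathlib
import Pool.Agent.TH834.Final
set_option autoImplicit false

/-!
The character `θ` is primitive and even.
-/

namespace Pool.Agent.TH834

open NumberField

theorem th_d5 : th (d5 : ZMod MM) ≠ 1 := by
  rw [th_coe, chi12_d5, mL_d5, lam_one]
  intro h
  have h1 : ((-1 : ℤ) : Kb) * (wb : Kb) ^ (0 : ZMod 3).val = -1 := by
    rw [show (0 : ZMod 3).val = 0 from rfl]; simp
  rw [Units.val_neg, Units.val_one, h1] at h
  have h2 : (2 : Kb) = 0 := by linear_combination (-1) * h
  exact two_ne_zero h2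

theorem th_d7 : th (d7 : ZMod MM) ≠ 1 := by
  rw [th_coe, chi12_d7, mL_d7, lam_one]
  intro h
  have h1 : ((-1 : ℤ) : Kb) * (wb : Kb) ^ (0 : ZMod 3).val = -1 := by
    rw [show (0 : ZMod 3).val = 0 from rfl]; simp
  rw [Units.val_neg, Units.val_one, h1] at h
  have h2 : (2 : Kb) = 0 := by linear_combination (-1) * h
  exact two_ne_zero h2

theorem th_sg : th (sg : ZMod MM) ≠ 1 := by
  rw [th_coe, m12_sg, mL_sg, lam_six, map_one]
  intro h
  rw [show (1 : ZMod 3).val = 1 from rfl] at h
  apply wb_spec.ne_one (by norm_num)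
  simpa using h

theorem not_factors (m : ℕ) (hm : m ∣ MM) (a : (ZMod MM)ˣ)
    (ha : ((a : ZMod MM).val : ZMod m) = 1) (h1 : th (a : ZMod MM) ≠ 1) :
    ¬ th.FactorsThrough m := by
  intro h
  rw [DirichletCharacter.factorsThrough_iff_ker_unitsMap hm] at h
  have h2 : a ∈ (ZMod.unitsMap hm).ker := by
    rw [MonoidHom.mem_ker]
    apply Units.ext
    rw [ZMod.unitsMap_val, ← ZMod.natCast_val, ha, Units.val_one]
  have h3 := h h2
  rw [MonoidHom.mem_ker] at h3
  apply h1
  have h4 := congrArg (fun t : Kbˣ => (t : Kb)) h3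
  simp only [MulChar.coe_toUnitHom, Units.val_one] at h4
  exact h4

theorem th_primitive : th.IsPrimitive := by
  rw [DirichletCharacter.isPrimitive_def]
  have hfac := th.factorsThrough_conductor
  have hdvd := th.conductor_dvd_level
  generalize th.conductor = c at hfac hdvd
  by_contra hne
  obtain ⟨k, hk⟩ := hdvd
  have hk1 : k ≠ 1 := by
    rintro rfl
    rw [mul_one] at hk
    exact hne hk.symm
  obtain ⟨q, hq, j, rfl⟩ := Nat.exists_prime_and_dvd hk1
  have hqM : q ∣ 2 * (2 * (3 * 7333)) := ⟨c * j, by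
    have h1 : 2 * (2 * (3 * 7333)) = 87996 := by norm_num
    have h2 : 87996 = c * (q * j) := hk
    rw [h1, h2]; ring⟩
  have hqc : q = 2 ∨ q = 3 ∨ q = 7333 := by
    rcases (Nat.Prime.dvd_mul hq).1 hqM with h | h
    · exact Or.inl ((Nat.prime_dvd_prime_iff_eq hq Nat.prime_two).1 h)
    rcases (Nat.Prime.dvd_mul hq).1 h with h | h
    · exact Or.inl ((Nat.prime_dvd_prime_iff_eq hq Nat.prime_two).1 h)
    rcases (Nat.Prime.dvd_mul hq).1 h with h | h
    · exact Or.inr (Or.inl ((Nat.prime_dvd_prime_iff_eq hq Nat.prime_three).1 h))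
    · exact Or.inr (Or.inr ((Nat.prime_dvd_prime_iff_eq hq factLL.out).1 h))
  rcases hqc with rfl | rfl | rfl
  · have h0 : 87996 = 2 * (c * j) := by
      have h : 87996 = c * (2 * j) := hk
      rw [h]; ring
    have h1 : c ∣ 43998 := ⟨j, by omega⟩
    exact not_factors 43998 (by norm_num) d7 (by
      have h2 : (d7 : ZMod MM).val = 43998 + 1 := rfl
      rw [h2, Nat.cast_add, ZMod.natCast_self, zero_add, Nat.cast_one]) th_d7
      (DirichletCharacter.FactorsThrough.mono th hfac h1 (by norm_num))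
  · have h0 : 87996 = 3 * (c * j) := by
      have h : 87996 = c * (3 * j) := hk
      rw [h]; ring
    have h1 : c ∣ 29332 := ⟨j, by omega⟩
    exact not_factors 29332 (by norm_num) d5 (by
      have h2 : (d5 : ZMod MM).val = 29332 + 1 := rfl
      rw [h2, Nat.cast_add, ZMod.natCast_self, zero_add, Nat.cast_one]) th_d5
      (DirichletCharacter.FactorsThrough.mono th hfac h1 (by norm_num))
  · have h0 : 87996 = 7333 * (c * j) := by
      have h : 87996 = c * (7333 * j) := hk
      rw [h]; ring
    have h1 : c ∣ 12 := ⟨j, by omega⟩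
    exact not_factors 12 (by norm_num) sg (by
      have h2 : (sg : ZMod MM).val = 12 * 4278 + 1 := rfl
      rw [h2, Nat.cast_add, Nat.cast_mul, ZMod.natCast_self, zero_mul, zero_add, Nat.cast_one])
      th_sg (DirichletCharacter.FactorsThrough.mono th hfac h1 (by norm_num))

theorem th_even : th.Even := by
  have h := th_coe (-1)
  have h1 : m12 (-1) = -1 := by
    apply Units.ext
    rw [coe_m12, val_neg_one]; decide
  have h2 : mL (-1) = -1 := by
    apply Units.ext
    rw [coe_mL, val_neg_one]; decide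
  rw [h1, h2, lam_neg_one] at h
  have h3 : chi12 (-1) = 1 := by decide
  rw [h3] at h
  change th (-1) = 1
  have h4 : ((-1 : (ZMod MM)ˣ) : ZMod MM) = -1 := rfl
  rw [h4] at h
  rw [h, show (0 : ZMod 3).val = 0 from rfl]
  simp

/-- the class that is `3` modulo 29332 and `1` modulo 3 -/
def bq : (ZMod MM)ˣ := ⟨29335, 19555, by decide, by decide⟩

theorem th_bq : th (bq : ZMod MM) ≠ 1 := by
  intro h
  have h1 := th_cube bq
  have h2 : m12 bq = m12 d7 := by
    apply Units.ext
    rw [coe_m12, coe_m12]; decide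
  rw [h2, chi12_d7, h, one_pow, Units.val_neg, Units.val_one] at h1
  have h3 : (2 : Kb) = 0 := by
    have : (1 : Kb) = ((-1 : ℤ) : Kb) := h1
    push_cast at this
    linear_combination this
  exact two_ne_zero h3

end Pool.Agent.TH834
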